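import Pool.Agent.H106R2.G0

/-! Algebraic part of the reduction: an infinite chain contradicts the finiteness of rational
points on a bielliptic curve of genus 2. -/

set_option autoImplicit false

namespace Pool.Agent.H106R2

/-- finiteness of rational points for all parameters -/
def MordellQ : Prop := ∀ g : Gc, {x : ℚ | ∃ y : ℚ, y ^ 2 = @fv g ℚ _ x}.Finite

lemma exists_int_mul (q : ℚ) (N : ℤ) (h : (q.den : ℤ) ∣ N) : ∃ z : ℤ, (z : ℚ) = N * q := by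
  obtain ⟨m, rfl⟩ := h
  refine ⟨m * q.num, ?_⟩
  push_cast
  have h1 : (q.den : ℚ) * q = q.num := Rat.den_mul_eq_num q
  linear_combination (-(m : ℚ)) * h1

theorem mordell_rat (hM : MordellQ) (c A1 A2 A3 : ℚ) (hc : c ≠ 0) (h1 : A1 ≠ 0) (h2 : A2 ≠ 0)
    (h3 : A3 ≠ 0) (h12 : A1 ≠ A2) (h13 : A1 ≠ A3) (h23 : A2 ≠ A3) :
    {x : ℚ | ∃ y : ℚ, y ^ 2 = c * ((x ^ 2 - A1) * (x ^ 2 - A2) * (x ^ 2 - A3))}.Finite := by
  set c2 : ℚ := -(c * (A1 + A2 + A3)) with hc2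
  set c1 : ℚ := c * (A1 * A2 + A1 * A3 + A2 * A3) with hc1
  set c0 : ℚ := -(c * (A1 * A2 * A3)) with hc0
  obtain ⟨D, hD⟩ : ∃ D : ℤ, D = c0.den * c1.den * c2.den * c.den := ⟨_, rfl⟩
  have hD0 : D ≠ 0 := by
    rw [hD]
    have d0 := c0.den_ne_zero
    have d1 := c1.den_ne_zero
    have d2 := c2.den_ne_zero
    have d3 := c.den_ne_zero
    exact mul_ne_zero (mul_ne_zero (mul_ne_zero (by exact_mod_cast d0) (by exact_mod_cast d1))
      (by exact_mod_cast d2)) (by exact_mod_cast d3)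
  obtain ⟨z0, hz0⟩ := exists_int_mul c0 (D ^ 2) (Dvd.dvd.pow (by
    rw [hD]; exact ⟨c1.den * c2.den * c.den, by ring⟩) two_ne_zero)
  obtain ⟨z1, hz1⟩ := exists_int_mul c1 (D ^ 2) (Dvd.dvd.pow (by
    rw [hD]; exact ⟨c0.den * c2.den * c.den, by ring⟩) two_ne_zero)
  obtain ⟨z2, hz2⟩ := exists_int_mul c2 (D ^ 2) (Dvd.dvd.pow (by
    rw [hD]; exact ⟨c0.den * c1.den * c.den, by ring⟩) two_ne_zero)
  obtain ⟨z3, hz3⟩ := exists_int_mul c (D ^ 2) (Dvd.dvd.pow (by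
    rw [hD]; exact ⟨c0.den * c1.den * c2.den, by ring⟩) two_ne_zero)
  have hDq : (D : ℚ) ≠ 0 := by exact_mod_cast hD0
  have hz30 : z3 ≠ 0 := by
    intro h
    rw [h] at hz3
    have : ((D ^ 2 : ℤ) : ℚ) * c ≠ 0 := by
      push_cast
      exact mul_ne_zero (pow_ne_zero _ hDq) hc
    exact this (by rw [← hz3]; simp)
  let g : Gc :=
    { g0 := z0, g1 := z1, g2 := z2, g3 := z3, e1 := A1, e2 := A2, e3 := A3
      hg3 := hz30, he1 := h1, he2 := h2, he3 := h3, h12 := h12, h13 := h13, h23 := h23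
      hg2 := by rw [hz2, hz3, hc2]; ring
      hg1 := by rw [hz1, hz3, hc1]; ring
      hg0 := by rw [hz0, hz3, hc0]; ring }
  refine (hM g).subset ?_
  rintro x ⟨y, hy⟩
  refine ⟨D * y, ?_⟩
  show (D * y) ^ 2 = (z3 : ℚ) * x ^ 6 + (z2 : ℚ) * x ^ 4 + (z1 : ℚ) * x ^ 2 + (z0 : ℚ)
  rw [mul_pow, hy, hz0, hz1, hz2, hz3, hc0, hc1, hc2]
  push_cast
  ring

/-- squares of the later terms are rational -/
lemma chain_sq (q : ℕ → ℝ) (hpos : ∀ i, 0 < q i) (hdec : ∀ i j, i < j → q j < q i)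
    (h : ∀ i j, i < j → ∃ r : ℚ, (r : ℝ) ^ 2 = q j * (4 * q i - q j)) (l : ℕ) (hl : 3 ≤ l) :
    ∃ z : ℚ, (z : ℝ) = q l ^ 2 := by
  obtain ⟨b0, hb0⟩ := h 0 l (by omega)
  obtain ⟨b1, hb1⟩ := h 1 l (by omega)
  obtain ⟨c, hc⟩ := h 2 l (by omega)
  obtain ⟨a0, ha0⟩ := h 0 2 (by omega)
  obtain ⟨a1, ha1⟩ := h 1 2 (by omega)
  have hl0 := hpos l
  have h2l := hdec 2 l (by omega)
  have h01 := hdec 0 1 (by omega)
  -- relation for `n = 0, 1`
  have key : ∀ (p : ℝ) (a b : ℚ), (a : ℝ) ^ 2 = q 2 * (4 * p - q 2) →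
      (b : ℝ) ^ 2 = q l * (4 * p - q l) →
      3 * (q l ^ 2) ^ 2 + (4 * (b : ℝ) ^ 2 + 2 * (c : ℝ) ^ 2 - 16 * (a : ℝ) ^ 2) * q l ^ 2
        + 4 * (b : ℝ) ^ 2 * (c : ℝ) ^ 2 - (c : ℝ) ^ 4 = 0 := by
    intro p a b hap hbp
    have e4 : (c : ℝ) ^ 4 = ((c : ℝ) ^ 2) ^ 2 := by ring
    rw [e4, hap, hbp, hc]
    ring
  have k0 := key (q 0) a0 b0 ha0 hb0
  have k1 := key (q 1) a1 b1 ha1 hb1
  have hbb : (b0 : ℝ) ^ 2 - (b1 : ℝ) ^ 2 = 4 * q l * (q 0 - q 1) := by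
    rw [hb0, hb1]; ring
  have hc2 : (c : ℝ) ^ 2 ≠ 0 := by
    rw [hc]
    have : 0 < q l * (4 * q 2 - q l) := mul_pos hl0 (by linarith)
    exact this.ne'
  have hbb0 : (b0 : ℝ) ^ 2 - (b1 : ℝ) ^ 2 ≠ 0 := by
    rw [hbb]
    have : 0 < 4 * q l * (q 0 - q 1) := by
      have := sub_pos.mpr h01
      positivity
    exact this.ne'
  set A : ℚ := 4 * (b0 ^ 2 - b1 ^ 2) - 16 * (a0 ^ 2 - a1 ^ 2) with hA
  have hrel : (A : ℝ) * q l ^ 2 = - (4 * (c : ℝ) ^ 2 * ((b0 : ℝ) ^ 2 - (b1 : ℝ) ^ 2)) := by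
    rw [hA]
    push_cast
    linear_combination k0 - k1
  have hA0 : (A : ℝ) ≠ 0 := by
    intro h0
    rw [h0, zero_mul] at hrel
    have : 4 * (c : ℝ) ^ 2 * ((b0 : ℝ) ^ 2 - (b1 : ℝ) ^ 2) ≠ 0 :=
      mul_ne_zero (mul_ne_zero (by norm_num) hc2) hbb0
    exact this (by linarith)
  refine ⟨- (4 * c ^ 2 * (b0 ^ 2 - b1 ^ 2)) / A, ?_⟩
  push_cast
  rw [div_eq_iff hA0]
  linear_combination -hrel

theorem chain_false (hM : MordellQ) (q : ℕ → ℝ) (hpos : ∀ i, 0 < q i)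
    (hdec : ∀ i j, i < j → q j < q i)
    (h : ∀ i j, i < j → ∃ r : ℚ, (r : ℝ) ^ 2 = q j * (4 * q i - q j)) : False := by
  -- shift the sequence
  let p : ℕ → ℝ := fun i => q (i + 3)
  have ppos : ∀ i, 0 < p i := fun i => hpos _
  have pdec : ∀ i j, i < j → p j < p i := fun i j hij => hdec _ _ (by omega)
  have hp : ∀ i j, i < j → ∃ r : ℚ, (r : ℝ) ^ 2 = p j * (4 * p i - p j) :=
    fun i j hij => h _ _ (by omega)
  have psq : ∀ i, ∃ z : ℚ, (z : ℝ) = p i ^ 2 := fun i => chain_sq q hpos hdec h (i + 3) (by omega)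
  obtain ⟨d, hd⟩ := psq 0
  have hd0 : 0 < d := by
    have : (0 : ℝ) < d := by rw [hd]; have := ppos 0; positivity
    exact_mod_cast this
  -- ratios
  have hratio : ∀ j, ∃ ρ : ℚ, (ρ : ℝ) * p 0 = p j := by
    intro j
    rcases Nat.eq_zero_or_pos j with rfl | hj
    · exact ⟨1, by simp⟩
    · obtain ⟨r, hr⟩ := hp 0 j hj
      obtain ⟨z, hz⟩ := psq j
      refine ⟨(r ^ 2 + z) / (4 * d), ?_⟩
      push_cast
      rw [hr, hz, hd]
      have := (ppos 0).ne'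
      field_simp
      ring
  choose ρ hρ using hratio
  have p0 := ppos 0
  have ρpos : ∀ j, 0 < ρ j := by
    intro j
    have h1 := ppos j
    rw [← hρ j] at h1
    have : (0 : ℝ) < ρ j := (pos_iff_pos_of_mul_pos h1).mpr p0
    exact_mod_cast this
  have ρ0 : ρ 0 = 1 := by
    have h1 := hρ 0
    have h2 : ((ρ 0 : ℚ) : ℝ) = 1 :=
      mul_right_cancel₀ p0.ne' (by rw [h1, one_mul])
    exact_mod_cast h2
  have ρdec : ∀ i j, i < j → ρ j < ρ i := by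
    intro i j hij
    have h1 := pdec i j hij
    rw [← hρ i, ← hρ j] at h1
    have : (ρ j : ℝ) < ρ i := lt_of_mul_lt_mul_right h1 p0.le
    exact_mod_cast this
  -- rational square condition
  have hsq : ∀ i j, i < j → ∃ t : ℚ, t ^ 2 = d * (4 * ρ i / ρ j - 1) := by
    intro i j hij
    obtain ⟨r, hr⟩ := hp i j hij
    refine ⟨r / ρ j, ?_⟩
    have hj0 : (ρ j : ℝ) ≠ 0 := by
      have := ρpos j
      exact_mod_cast this.ne'
    have : (((r / ρ j) ^ 2 : ℚ) : ℝ) = ((d * (4 * ρ i / ρ j - 1) : ℚ) : ℝ) := by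
      push_cast
      rw [div_pow, hr, ← hρ i, ← hρ j, hd]
      field_simp
    exact_mod_cast this
  -- the curve
  have hA : ∀ i, 0 < i → 0 < d * (1 - ρ i) / ρ i := by
    intro i hi
    have h1 := ρdec 0 i hi
    rw [ρ0] at h1
    have h2 := ρpos i
    have h3 : 0 < 1 - ρ i := by linarith
    positivity
  have hAne : ∀ i j, i < j → d * (1 - ρ i) / ρ i ≠ d * (1 - ρ j) / ρ j := by
    intro i j hij hEq
    have h1 := ρdec i j hij
    have h2 := ρpos i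
    have h3 := ρpos j
    rw [div_eq_div_iff h2.ne' h3.ne'] at hEq
    have h4 : d * (ρ j - ρ i) = 0 := by linear_combination hEq
    rcases mul_eq_zero.mp h4 with h5 | h5
    · exact hd0.ne' h5
    · linarith
  have hfin := mordell_rat hM (ρ 1 * ρ 2 * ρ 3) (d * (1 - ρ 1) / ρ 1) (d * (1 - ρ 2) / ρ 2)
    (d * (1 - ρ 3) / ρ 3)
    (mul_ne_zero (mul_ne_zero (ρpos 1).ne' (ρpos 2).ne') (ρpos 3).ne')
    (hA 1 (by omega)).ne' (hA 2 (by omega)).ne' (hA 3 (by omega)).ne'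
    (hAne 1 2 (by omega)) (hAne 1 3 (by omega)) (hAne 2 3 (by omega))
  choose! t ht using hsq
  have hinj : Function.Injective (fun j : ℕ => t 0 (j + 4)) := by
    intro j k hjk
    simp only at hjk
    by_contra hne
    have e : d * (4 * ρ 0 / ρ (j + 4) - 1) = d * (4 * ρ 0 / ρ (k + 4) - 1) := by
      rw [← ht 0 (j + 4) (by omega), ← ht 0 (k + 4) (by omega), hjk]
    have h1 := mul_left_cancel₀ hd0.ne' e
    rw [ρ0, mul_one, sub_left_inj, div_eq_div_iff (ρpos _).ne' (ρpos _).ne'] at h1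
    have h2 : ρ (j + 4) = ρ (k + 4) := by linarith
    rcases Nat.lt_or_gt_of_ne hne with h3 | h3
    · have := ρdec (j + 4) (k + 4) (by omega); linarith
    · have := ρdec (k + 4) (j + 4) (by omega); linarith
  refine Set.infinite_range_of_injective hinj (hfin.subset ?_)
  rintro _ ⟨j, rfl⟩
  refine ⟨t 1 (j + 4) * t 2 (j + 4) * t 3 (j + 4), ?_⟩
  rw [mul_pow, mul_pow, ht 1 (j + 4) (by omega), ht 2 (j + 4) (by omega), ht 3 (j + 4) (by omega)]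
  simp only
  rw [ht 0 (j + 4) (by omega), ρ0]
  have r1 := (ρpos 1).ne'
  have r2 := (ρpos 2).ne'
  have r3 := (ρpos 3).ne'
  have rj := (ρpos (j + 4)).ne'
  field_simp
  ring

end Pool.Agent.H106R2
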