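import Pool.Agent.H106R2.Iface
import Pool.Agent.H437R2.Man.Asm

/-! ASM module: final assembly of the Vojta-type argument. -/

set_option autoImplicit false
open Polynomial Height
namespace Pool.Agent.H106R2

open Pool.Agent.H437R2.Man (gs RothStatement asm_num0 asm_num1 asm_num asm_mul asm_ratio asm_err)

variable [Gc]

theorem asm_contr (hA : AuxStatement) (K : Type) [Field K] [NumberField K]
    (hMI : MIStatement K) (hR : RothStatement K) :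
    ∃ B c : ℝ, 1 ≤ B ∧ 1 ≤ c ∧ ∀ a₁ b₁ a₂ b₂ : K, b₁ ^ 2 = fv a₁ → b₂ ^ 2 = fv a₂ →
      fv a₁ ≠ 0 → fv a₂ ≠ 0 → a₁ ≠ a₂ → B ≤ logHeight₁ a₁ →
      c * logHeight₁ a₁ ≤ logHeight₁ a₂ →
      4 * gs (mloc a₁ b₁ a₂ b₂) < 10 * (logHeight₁ a₁ + logHeight₁ a₂) +
        6.9 * Real.sqrt (logHeight₁ a₁ * logHeight₁ a₂) := by
  obtain ⟨CA, hCA, hA⟩ := hA
  obtain ⟨CM, hCM, hM⟩ := hMI
  obtain ⟨CR, hCR, hR⟩ := hR
  have hp1 : 0 ≤ 10 ^ 6 * CR * (700 * CA + 5) := by positivity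
  have hp2 : 0 ≤ 10 * (CM * (700 * CA + 20)) := by positivity
  refine ⟨1 + 10 ^ 6 * CR * (700 * CA + 5) + 10 * (CM * (700 * CA + 20)), 4 * 10 ^ 6,
    by linarith only [hp1, hp2], by norm_num, ?_⟩
  intro a₁ b₁ a₂ b₂ hb₁ hb₂ ha₁ ha₂ hne hB hc
  by_contra hcon
  push Not at hcon
  obtain ⟨h₁, hh₁⟩ : ∃ h, h = logHeight₁ a₁ := ⟨_, rfl⟩
  obtain ⟨h₂, hh₂⟩ : ∃ h, h = logHeight₁ a₂ := ⟨_, rfl⟩
  rw [← hh₁] at hB
  rw [← hh₁, ← hh₂] at hc hcon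
  have hh1 : 1 ≤ h₁ := by linarith only [hB, hp1, hp2]
  have hh10 : 0 < h₁ := by linarith only [hh1]
  -- s
  obtain ⟨s, hs⟩ : ∃ s, s = Real.sqrt (h₂ / h₁) := ⟨_, rfl⟩
  have hh2p : 0 < h₂ := by linarith only [hc, hh1]
  have hs2 : s ^ 2 = h₂ / h₁ := by rw [hs]; exact Real.sq_sqrt (by positivity)
  have hh2s : h₂ = s ^ 2 * h₁ := by rw [hs2]; field_simp
  have hs2000 : 2000 ≤ s := by
    rw [hs]
    apply Real.le_sqrt_of_sq_le
    rw [le_div_iff₀ hh10]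
    linarith only [hc]
  have hs0 : 0 < s := by linarith only [hs2000]
  have hg : Real.sqrt (h₁ * h₂) = s * h₁ := by
    rw [hh2s, show h₁ * (s ^ 2 * h₁) = (s * h₁) ^ 2 by ring]
    exact Real.sqrt_sq (by positivity)
  rw [hg] at hcon
  obtain ⟨t, ht⟩ : ∃ t, t = s⁻¹ := ⟨_, rfl⟩
  have hst : s * t = 1 := by rw [ht]; exact mul_inv_cancel₀ hs0.ne'
  have ht0 : 0 < t := by rw [ht]; positivity
  -- e
  obtain ⟨e, he⟩ := exists_nat_ge (max (24 * s) (max (4 * 10 ^ 6) (5 * (h₁ + h₂))))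
  have he1 : 24 * s ≤ e := le_trans (le_max_left _ _) he
  have he2 : 4 * 10 ^ 6 ≤ (e : ℝ) := le_trans (le_trans (le_max_left _ _) (le_max_right _ _)) he
  have he3 : 5 * (h₁ + h₂) ≤ e := le_trans (le_trans (le_max_right _ _) (le_max_right _ _)) he
  have he0 : (0 : ℝ) < e := by linarith only [he2]
  obtain ⟨m₁, hm₁⟩ : ∃ m : ℕ, m = ⌈1.5 * (e : ℝ) * s⌉₊ := ⟨_, rfl⟩
  obtain ⟨m₂, hm₂⟩ : ∃ m : ℕ, m = ⌈1.5 * (e : ℝ) * t⌉₊ := ⟨_, rfl⟩
  have hm1a : 1.5 * (e : ℝ) * s ≤ m₁ := by rw [hm₁]; exact Nat.le_ceil _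
  have hm1b : (m₁ : ℝ) ≤ 1.5 * (e : ℝ) * s + 1 := by
    rw [hm₁]; exact (Nat.ceil_lt_add_one (by positivity)).le
  have hm2a : 1.5 * (e : ℝ) * t ≤ m₂ := by rw [hm₂]; exact Nat.le_ceil _
  have hm2b : (m₂ : ℝ) ≤ 1.5 * (e : ℝ) * t + 1 := by
    rw [hm₂]; exact (Nat.ceil_lt_add_one (by positivity)).le
  have hm20r : (0:ℝ) < m₂ := lt_of_lt_of_le (by positivity) hm2a
  have hm10r : (0:ℝ) < m₁ := lt_of_lt_of_le (by positivity) hm1a
  have hm20 : 0 < m₂ := by exact_mod_cast hm20r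
  have hm10 : 0 < m₁ := by exact_mod_cast hm10r
  have he3' : 3 ≤ e := by
    have : (3:ℝ) ≤ e := by linarith only [he2]
    exact_mod_cast this
  clear hm₁ hm₂ he hs ht hg hs2
  obtain ⟨hrN, hbd⟩ := asm_num (e : ℝ) s t m₁ m₂ hs2000 hst he1 hm1a hm1b hm2a hm2b _ _ rfl rfl
  obtain ⟨G, R, R', Q, Λ, hG0, hQ0, hBG, hVV, hBR1, hBR2, hnorm, hBD, hΛ0, c1, c2, c3, c4, c5, c6, c7,
    hΛ⟩ := hA (m₁ + e) (m₂ + e) e (by omega) (by omega) (by omega) (by omega) _ _ rfl rfl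
      (by push_cast; exact hrN)
  push_cast at hΛ
  have hes : 0 < (e : ℝ) * s := by positivity
  have hΛ' : Λ ≤ 700 * CA * (e * s) := by
    refine hΛ.trans ?_
    have := mul_le_mul_of_nonneg_left hbd hCA.le
    linarith only [this]
  -- Roth
  have hr1 : 2 * (m₁ + e) - 2 * e = 2 * m₁ := by omega
  have hr2 : 2 * (m₂ + e) - 2 * e = 2 * m₂ := by omega
  rw [hr1, hr2] at hBD
  have hes1 : 2000 * (e : ℝ) ≤ e * s := by nlinarith only [he0, hs2000]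
  have hLr : CR * (Λ + ((2 * m₁ : ℕ) : ℝ)) ≤ (1 / 1000 : ℝ) ^ 2 * (3 * (e * s) * h₁) := by
    have k1 : Λ + ((2 * m₁ : ℕ) : ℝ) ≤ (700 * CA + 5) * (e * s) := by
      push_cast
      linarith only [hΛ', hm1b, hes1, he2]
    have k2 : CR * (Λ + ((2 * m₁ : ℕ) : ℝ)) ≤ CR * ((700 * CA + 5) * (e * s)) :=
      mul_le_mul_of_nonneg_left k1 hCR.le
    have k3 : 10 ^ 6 * CR * (700 * CA + 5) ≤ h₁ := by linarith only [hB, hp2]
    have k4 : 10 ^ 6 * CR * (700 * CA + 5) * (e * s) ≤ h₁ * (e * s) :=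
      mul_le_mul_of_nonneg_right k3 hes.le
    have k5 : 0 ≤ h₁ * (e * s) := by positivity
    linarith only [k2, k4, k5]
  obtain ⟨hmh1, hmh1', hmh2, hmh2'⟩ := asm_mul (e : ℝ) s t h₁ h₂ m₁ m₂ hh10 hh2p hst hh2s
    hm1a hm1b hm2a hm2b
  obtain ⟨i₁, i₂, hi, hsum⟩ := hR (1 / 1000) (by norm_num) (by norm_num) (2 * m₁) (2 * m₂)
    (by omega)
    (by
      push_cast
      exact asm_ratio e s t m₁ m₂ hs2000 hst he2 hm1a hm2b)
    (fun a b => (Q.coeff b).coeff a)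
    (by
      have : ∃ b, Q.coeff b ≠ 0 := by
        by_contra h
        push Not at h
        exact hQ0 (Polynomial.ext (by simpa using h))
      obtain ⟨b, hb⟩ := this
      have : ∃ a, (Q.coeff b).coeff a ≠ 0 := by
        by_contra h
        push Not at h
        exact hb (Polynomial.ext (by simpa using h))
      obtain ⟨a, ha⟩ := this
      refine ⟨a, ?_, b, ?_, ha⟩
      · have h1 := Polynomial.le_natDegree_of_ne_zero ha
        have h2 := hBD.1 b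
        rw [Finset.mem_range]; omega
      · have h1 := Polynomial.le_natDegree_of_ne_zero hb
        have h2 := hBD.2
        rw [Finset.mem_range]; omega)
    Λ hΛ0 (fun a b => c7 a b) a₁ a₂
    (by
      rw [← hh₁]
      refine hLr.trans ?_
      push_cast
      linarith only [hmh1])
    (by
      rw [← hh₂]
      refine hLr.trans ?_
      push_cast
      linarith only [hmh2])
  -- main inequality
  have hM1p : (0 : ℝ) < ((2 * m₁ : ℕ) : ℝ) := by exact_mod_cast (by omega : 0 < 2 * m₁)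
  have hM2p : (0 : ℝ) < ((2 * m₂ : ℕ) : ℝ) := by exact_mod_cast (by omega : 0 < 2 * m₂)
  obtain ⟨j₁, j₂, hj, hmain⟩ := hM (m₁ + e) (m₂ + e) e G R R' Q Λ hBG hVV hBR1 hBR2 hnorm
    (by rw [hr1, hr2]; exact hBD) hΛ0 c1 c2 c3 c4 c5 c6 a₁ b₁ a₂ b₂ hb₁ hb₂ ha₁ ha₂ hne i₁ i₂
    (by rw [hr1, hr2]; exact hsum) ((2 * m₁ : ℕ) : ℝ) ((2 * m₂ : ℕ) : ℝ) hM1p hM2p
  rw [← hh₁, ← hh₂] at hmain
  have hjj := hj.trans hi
  have hj1 : (j₁ : ℝ) ≤ 8 / 1000 * m₁ := by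
    have : (j₁ : ℝ) / ((2 * m₁ : ℕ) : ℝ) ≤ 4 * (1 / 1000) := by
      have : 0 ≤ (j₂ : ℝ) / ((2 * m₂ : ℕ) : ℝ) := by positivity
      linarith only [this, hjj]
    rw [div_le_iff₀ hM1p] at this
    push_cast at this
    linarith only [this]
  have hj2 : (j₂ : ℝ) ≤ 8 / 1000 * m₂ := by
    have : (j₂ : ℝ) / ((2 * m₂ : ℕ) : ℝ) ≤ 4 * (1 / 1000) := by
      have : 0 ≤ (j₁ : ℝ) / ((2 * m₁ : ℕ) : ℝ) := by positivity
      linarith only [this, hjj]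
    rw [div_le_iff₀ hM2p] at this
    push_cast at this
    linarith only [this]
  push_cast at hmain
  refine asm_err CA CM Λ e s t m₁ m₂ h₁ h₂ j₁ j₂ hCM hs2000 hst he2 hm1b hm2b hm10r hm20r hΛ'
    hj1 hj2 hh10 hh2p (by linarith only [hB, hp1]) hmh1' hmh2' ?_ (gs (mloc a₁ b₁ a₂ b₂)) hmain hcon
  have h1s : 1 ≤ s * h₁ := by nlinarith only [hs2000, hh1]
  nlinarith only [h1s, he3, he0, hh10, hh2p]

end Pool.Agent.H106R2
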