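import Pool.Agent.H106R2.Asm
import Pool.Agent.H106R2.Ndvd
import Pool.Agent.H437R2.Man.MW
import Pool.Agent.H437R2.Man.Asm2

/-! ASM module, second part: the gap principle with the sphere, and the final theorem. -/

set_option autoImplicit false
open Polynomial Height
namespace Pool.Agent.H106R2

open Pool.Agent.H437R2.Man (gs RothStatement MW.crv MW.crv_embed MW.crv_nonsing MW.neg_mk)

/-- topological part: an infinite sequence of vectors of square length about `4 h` contains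
pairs with small angle -/
lemma pairs {E E' : Type} [NormedAddCommGroup E] [InnerProductSpace ℝ E] [FiniteDimensional ℝ E]
    [NormedAddCommGroup E'] [InnerProductSpace ℝ E'] [FiniteDimensional ℝ E']
    (u : ℕ → E) (w : ℕ → E') (h : ℕ → ℝ) (C : ℝ)
    (hh : Filter.Tendsto h Filter.atTop Filter.atTop)
    (hu : ∀ k, |‖u k‖ ^ 2 - 2 * h k| ≤ C) (hw : ∀ k, |‖w k‖ ^ 2 - 2 * h k| ≤ C) (h1 : ∀ k, 1 ≤ h k)
    (B c : ℝ) :
    ∃ k l : ℕ, B ≤ h k ∧ c * h k + 1 ≤ h l ∧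
      3.5 * Real.sqrt (h k * h l) ≤ inner ℝ (u k) (u l) + inner ℝ (w k) (w l) := by
  have hC0 : 0 ≤ C := (abs_nonneg _).trans (hu 0)
  have hsq : ∀ k, 0 < Real.sqrt (h k) := fun k => Real.sqrt_pos.mpr (by linarith [h1 k])
  let v : ℕ → E × E' := fun k => ((Real.sqrt (h k))⁻¹ • u k, (Real.sqrt (h k))⁻¹ • w k)
  let F : (E × E') × (E × E') → ℝ := fun p => inner ℝ p.1.1 p.2.1 + inner ℝ p.1.2 p.2.2
  have hF : Continuous F := by
    apply Continuous.add
    · exact Continuous.inner (continuous_fst.comp continuous_fst) (continuous_fst.comp continuous_snd)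
    · exact Continuous.inner (continuous_snd.comp continuous_fst) (continuous_snd.comp continuous_snd)
  have hFv : ∀ k l, F (v k, v l) =
      (Real.sqrt (h k * h l))⁻¹ * (inner ℝ (u k) (u l) + inner ℝ (w k) (w l)) := by
    intro k l
    simp only [F, v, real_inner_smul_left, real_inner_smul_right]
    rw [Real.sqrt_mul (by linarith [h1 k]), mul_inv]
    ring
  have hbd0 : ∀ (r : ℝ) (k : ℕ), 0 ≤ r → |r ^ 2 - 2 * h k| ≤ C →
      r ≤ Real.sqrt (h k) * (2 + C) := by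
    intro r k hr ha
    apply le_of_sq_le_sq _ (by positivity)
    rw [mul_pow, Real.sq_sqrt (by linarith [h1 k])]
    have h2 := (abs_le.mp ha).2
    have h3 : 0 ≤ C * h k := mul_nonneg hC0 (by linarith [h1 k])
    have h4 : 0 ≤ C ^ 2 * h k := mul_nonneg (sq_nonneg C) (by linarith [h1 k])
    have h5 : 0 ≤ C * (h k - 1) := mul_nonneg hC0 (by linarith [h1 k])
    linarith [h1 k]
  have hbd : ∀ (a : E) (k : ℕ), |‖a‖ ^ 2 - 2 * h k| ≤ C → ‖(Real.sqrt (h k))⁻¹ • a‖ ≤ 2 + C := by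
    intro a k ha
    rw [norm_smul, norm_inv, Real.norm_of_nonneg (Real.sqrt_nonneg _), inv_mul_le_iff₀ (hsq k)]
    exact hbd0 _ k (norm_nonneg _) ha
  have hbd' : ∀ (a : E') (k : ℕ), |‖a‖ ^ 2 - 2 * h k| ≤ C → ‖(Real.sqrt (h k))⁻¹ • a‖ ≤ 2 + C := by
    intro a k ha
    rw [norm_smul, norm_inv, Real.norm_of_nonneg (Real.sqrt_nonneg _), inv_mul_le_iff₀ (hsq k)]
    exact hbd0 _ k (norm_nonneg _) ha
  have hb : Bornology.IsBounded (Metric.closedBall (0 : E × E') (2 + C)) := Metric.isBounded_closedBall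
  obtain ⟨a, _, φ, hφ, hlim⟩ := tendsto_subseq_of_bounded hb (x := v) (by
    intro k
    rw [mem_closedBall_zero_iff, Prod.norm_def]
    exact max_le (hbd _ k (hu k)) (hbd' _ k (hw k)))
  have hhφ : Filter.Tendsto (h ∘ φ) Filter.atTop Filter.atTop := hh.comp hφ.tendsto_atTop
  have hFa : 3.9 ≤ F (a, a) := by
    have hl : Filter.Tendsto (fun k => F (v (φ k), v (φ k))) Filter.atTop (nhds (F (a, a))) :=
      (hF.tendsto (a, a)).comp (hlim.prodMk_nhds hlim)
    refine ge_of_tendsto hl ?_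
    filter_upwards [hhφ.eventually_ge_atTop (20 * C)] with k hk
    rw [hFv]
    have h1k := h1 (φ k)
    rw [Real.sqrt_mul_self (by linarith), real_inner_self_eq_norm_sq, real_inner_self_eq_norm_sq,
      inv_mul_eq_div, le_div_iff₀ (by linarith)]
    have := (abs_le.mp (hu (φ k))).1
    have := (abs_le.mp (hw (φ k))).1
    simp only [Function.comp] at hk
    linarith
  have hev : ∀ᶠ p in nhds (a, a), 3.5 < F p :=
    (hF.tendsto (a, a)).eventually (lt_mem_nhds (by linarith))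
  rw [nhds_prod_eq] at hev
  have hev2 := (hlim.prodMap hlim).eventually hev
  have hev3 := hev2.curry
  obtain ⟨k, hk1, hk2⟩ := (hev3.and (hhφ.eventually_ge_atTop B)).exists
  obtain ⟨l, hl1, hl2⟩ := (hk1.and (hhφ.eventually_ge_atTop (c * h (φ k) + 1))).exists
  refine ⟨φ k, φ l, hk2, hl2, ?_⟩
  simp only [Prod.map, Function.comp] at hl1
  rw [hFv, inv_mul_eq_div, lt_div_iff₀] at hl1
  · exact hl1.le
  · exact Real.sqrt_pos.mpr (mul_pos (by linarith [h1 (φ k)]) (by linarith [h1 (φ l)]))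

variable [Gc]

section curves

variable {K : Type} [Field K] [CharZero K]

lemma cast0 : ((g0 : ℤ) : K) = - ((g3 : K) * ((Gc.e1 : K) * (Gc.e2 : K) * (Gc.e3 : K))) := by
  have := congrArg (fun q : ℚ => (q : K)) Gc.hg0
  push_cast at this
  exact this

lemma cast1 : ((g1 : ℤ) : K) = (g3 : K) * ((Gc.e1 : K) * (Gc.e2 : K) + (Gc.e1 : K) * (Gc.e3 : K)
      + (Gc.e2 : K) * (Gc.e3 : K)) := by
  have := congrArg (fun q : ℚ => (q : K)) Gc.hg1
  push_cast at this
  exact this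

lemma cast2 : ((g2 : ℤ) : K) = - ((g3 : K) * ((Gc.e1 : K) + (Gc.e2 : K) + (Gc.e3 : K))) := by
  have := congrArg (fun q : ℚ => (q : K)) Gc.hg2
  push_cast at this
  exact this

lemma fv_prod (x : K) : fv x = (g3 : K) * ((x ^ 2 - (Gc.e1 : K)) * (x ^ 2 - (Gc.e2 : K)) *
    (x ^ 2 - (Gc.e3 : K))) := by
  unfold fv
  rw [cast0, cast1, cast2]
  ring

lemma hg3K : ((g3 : ℤ) : K) ≠ 0 := by exact_mod_cast Gc.hg3
lemma hg0K : ((g0 : ℤ) : K) ≠ 0 := by exact_mod_cast g0_ne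

lemma EA_ns {x y : K} (h : y ^ 2 = fv x) :
    (EA K).toAffine.Nonsingular ((g3 : K) * x ^ 2) ((g3 : K) * y) := by
  have h3 : ((g3 : ℤ) : ℚ) ≠ 0 := by exact_mod_cast Gc.hg3
  apply MW.crv_nonsing
  · intro h
    have := Rat.cast_injective (α := K) h
    rw [neg_inj] at this
    exact Gc.h12 (mul_left_cancel₀ h3 this)
  · intro h
    have := Rat.cast_injective (α := K) h
    rw [neg_inj] at this
    exact Gc.h13 (mul_left_cancel₀ h3 this)
  · intro h
    have := Rat.cast_injective (α := K) h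
    rw [neg_inj] at this
    exact Gc.h23 (mul_left_cancel₀ h3 this)
  · rw [mul_pow, h, fv_prod]
    push_cast
    ring

lemma EB_ns {x y : K} (hx : x ≠ 0) (h : y ^ 2 = fv x) :
    (EB K).toAffine.Nonsingular ((g0 : K) * x⁻¹ ^ 2) ((g0 : K) * (y * x⁻¹ ^ 3)) := by
  have h0 : ((g0 : ℤ) : ℚ) ≠ 0 := by exact_mod_cast g0_ne
  have i1 := Gc.he1
  have i2 := Gc.he2
  have i3 := Gc.he3
  have hk : ∀ p q : ℚ, p ≠ 0 → q ≠ 0 → p ≠ q →
      ((-(g0 / p) : ℚ) : K) ≠ ((-(g0 / q) : ℚ) : K) := by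
    intro p q hp hq hpq h
    have h2 := Rat.cast_injective (α := K) h
    rw [neg_inj, div_eq_div_iff hp hq] at h2
    exact hpq (mul_left_cancel₀ h0 h2).symm
  apply MW.crv_nonsing (hk _ _ i1 i2 Gc.h12) (hk _ _ i1 i3 Gc.h13) (hk _ _ i2 i3 Gc.h23)
  have j1 : (Gc.e1 : K) ≠ 0 := by exact_mod_cast i1
  have j2 : (Gc.e2 : K) ≠ 0 := by exact_mod_cast i2
  have j3 : (Gc.e3 : K) ≠ 0 := by exact_mod_cast i3
  rw [mul_pow, mul_pow, h, fv_prod]
  push_cast
  have e : ∀ p : K, p ≠ 0 → (g0 : K) * x⁻¹ ^ 2 + -((g0 : K) / p)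
      = (g0 : K) * (p - x ^ 2) * (p⁻¹ * x⁻¹ ^ 2) := by
    intro p hp
    field_simp
    ring
  rw [e _ j1, e _ j2, e _ j3]
  have e3 : (g0 : K) * (Gc.e1 : K)⁻¹ * (Gc.e2 : K)⁻¹ * (Gc.e3 : K)⁻¹ = - (g3 : K) := by
    rw [cast0]
    field_simp
  have e4 : (g0 : K) * ((Gc.e1 : K) - x ^ 2) * ((Gc.e1 : K)⁻¹ * x⁻¹ ^ 2) *
      ((g0 : K) * ((Gc.e2 : K) - x ^ 2) * ((Gc.e2 : K)⁻¹ * x⁻¹ ^ 2)) *
      ((g0 : K) * ((Gc.e3 : K) - x ^ 2) * ((Gc.e3 : K)⁻¹ * x⁻¹ ^ 2)) =
      ((g0 : K) * (Gc.e1 : K)⁻¹ * (Gc.e2 : K)⁻¹ * (Gc.e3 : K)⁻¹) * (g0 : K) ^ 2 * (x⁻¹ ^ 3) ^ 2 *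
      (((Gc.e1 : K) - x ^ 2) * ((Gc.e2 : K) - x ^ 2) * ((Gc.e3 : K) - x ^ 2)) := by ring
  rw [e4, e3]
  ring

end curves

lemma logHeight_scale {K : Type} [Field K] [NumberField K] {c : K} (hc : c ≠ 0) (z : K) :
    |logHeight₁ (c * z) - logHeight₁ z| ≤ logHeight₁ c := by
  rw [abs_le]
  constructor
  · have h := logHeight₁_mul_le (c⁻¹) (c * z)
    rw [inv_mul_cancel_left₀ hc, logHeight₁_inv] at h
    linarith
  · have h := logHeight₁_mul_le c z
    linarith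

theorem mordell_of (hA : AuxStatement)
    (K : Type) [Field K] [NumberField K] [DecidableEq K]
    (hMI : MIStatement K) (hP : PhiStatement K) (hR : RothStatement K) :
    {x : K | ∃ y : K, y ^ 2 = fv x}.Finite := by
  have h3 : ((g3 : ℤ) : ℚ) ≠ 0 := by exact_mod_cast Gc.hg3
  have h0 : ((g0 : ℤ) : ℚ) ≠ 0 := by exact_mod_cast g0_ne
  have hkA : ∀ p q : ℚ, p ≠ q → ((-(g3 * p) : ℚ) : K) ≠ ((-(g3 * q) : ℚ) : K) := by
    intro p q hpq h
    have h2 := Rat.cast_injective (α := K) h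
    rw [neg_inj] at h2
    exact hpq (mul_left_cancel₀ h3 h2)
  have hkB : ∀ p q : ℚ, p ≠ 0 → q ≠ 0 → p ≠ q →
      ((-(g0 / p) : ℚ) : K) ≠ ((-(g0 / q) : ℚ) : K) := by
    intro p q hp hq hpq h
    have h2 := Rat.cast_injective (α := K) h
    rw [neg_inj, div_eq_div_iff hp hq] at h2
    exact hpq (mul_left_cancel₀ h0 h2).symm
  obtain ⟨B, c, hB, hc, hcontr⟩ := asm_contr hA K hMI hR
  obtain ⟨CP, hP⟩ := hP
  obtain ⟨n, ψ, CA, hψ⟩ : ∃ (n : ℕ) (ψ : (EA K).toAffine.Point →+ EuclideanSpace ℝ (Fin n)) (C : ℝ),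
      ∀ P : (EA K).toAffine.Point, |‖ψ P‖ ^ 2 - Height.logHeight P.xRep| ≤ C :=
    MW.crv_embed (hkA _ _ Gc.h12) (hkA _ _ Gc.h13) (hkA _ _ Gc.h23)
  obtain ⟨n', ψ', CB', hψ'⟩ : ∃ (n : ℕ) (ψ : (EB K).toAffine.Point →+ EuclideanSpace ℝ (Fin n))
      (C : ℝ), ∀ P : (EB K).toAffine.Point, |‖ψ P‖ ^ 2 - Height.logHeight P.xRep| ≤ C :=
    MW.crv_embed (hkB _ _ Gc.he1 Gc.he2 Gc.h12) (hkB _ _ Gc.he1 Gc.he3 Gc.h13)
      (hkB _ _ Gc.he2 Gc.he3 Gc.h23)
  have hCA0 : 0 ≤ CA := (abs_nonneg _).trans (hψ 0)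
  have hCB0 : 0 ≤ CB' := (abs_nonneg _).trans (hψ' 0)
  obtain ⟨C, hCdef⟩ : ∃ C : ℝ, C = CA + CB' + logHeight₁ ((g3 : ℤ) : K) + logHeight₁ ((g0 : ℤ) : K) :=
    ⟨_, rfl⟩
  have hl3 : 0 ≤ logHeight₁ ((g3 : ℤ) : K) := zero_le_logHeight₁ _
  have hl0 : 0 ≤ logHeight₁ ((g0 : ℤ) : K) := zero_le_logHeight₁ _
  have hC0 : 0 ≤ C := by rw [hCdef]; positivity
  by_contra hinf
  have hinf : {x : K | ∃ y : K, y ^ 2 = fv x}.Infinite := hinf
  -- remove the bad points
  have hbad : ({x : K | fv x = 0} ∪ {x : K | logHeight₁ x ≤ 1}).Finite := by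
    refine Set.Finite.union ?_ (NumberField.finite_setOfPred_logHeight₁_le K 1)
    refine Set.Finite.subset (Polynomial.finite_setOfPred_isRoot (ff_ne (S := K))) ?_
    intro x hx
    simp only [Set.mem_ofPred_eq, Polynomial.IsRoot, eval_ff] at hx ⊢
    exact hx
  have hinf2 := hinf.sdiff hbad
  let emb := hinf2.natEmbedding
  let x : ℕ → K := fun k => (emb k).1
  have hxinj : Function.Injective x := fun i j hij => emb.injective (Subtype.ext hij)
  have hxm : ∀ k, (∃ y : K, y ^ 2 = fv (x k)) ∧ fv (x k) ≠ 0 ∧ 1 < logHeight₁ (x k) := by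
    intro k
    have := (emb k).2
    refine ⟨this.1, fun h => this.2 (Or.inl h), ?_⟩
    by_contra h
    push Not at h
    exact this.2 (Or.inr h)
  choose y hy using fun k => (hxm k).1
  have hx0 : ∀ k, x k ≠ 0 := by
    intro k h
    have := (hxm k).2.2
    rw [h, logHeight₁_zero] at this
    linarith
  have n1 : ∀ k, (EA K).toAffine.Nonsingular ((g3 : K) * x k ^ 2) ((g3 : K) * y k) := fun k =>
    EA_ns (hy k)
  have n2 : ∀ k, (EB K).toAffine.Nonsingular ((g0 : K) * (x k)⁻¹ ^ 2)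
      ((g0 : K) * (y k * (x k)⁻¹ ^ 3)) := fun k => EB_ns (hx0 k) (hy k)
  have m1 : ∀ k, (EA K).toAffine.Nonsingular ((g3 : K) * x k ^ 2) ((g3 : K) * -y k) := fun k =>
    EA_ns (by rw [neg_sq]; exact hy k)
  have m2 : ∀ k, (EB K).toAffine.Nonsingular ((g0 : K) * (x k)⁻¹ ^ 2)
      ((g0 : K) * (-y k * (x k)⁻¹ ^ 3)) := fun k =>
    EB_ns (hx0 k) (by rw [neg_sq]; exact hy k)
  let u : ℕ → EuclideanSpace ℝ (Fin n) := fun k =>
    ψ (WeierstrassCurve.Affine.Point.some _ _ (n1 k))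
  let v : ℕ → EuclideanSpace ℝ (Fin n') := fun k =>
    ψ' (WeierstrassCurve.Affine.Point.some _ _ (n2 k))
  have hu : ∀ k, |‖u k‖ ^ 2 - 2 * logHeight₁ (x k)| ≤ C := by
    intro k
    have h := hψ (WeierstrassCurve.Affine.Point.some _ _ (n1 k))
    rw [WeierstrassCurve.Affine.Point.xRep_some, ← logHeight₁_eq_logHeight] at h
    have h' := logHeight_scale (hg3K (K := K)) (x k ^ 2)
    rw [logHeight₁_pow (x k)] at h'
    have a := abs_le.mp h
    have b := abs_le.mp h'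
    push_cast at b
    rw [abs_le]
    constructor
    · show -C ≤ ‖ψ (WeierstrassCurve.Affine.Point.some _ _ (n1 k))‖ ^ 2 - 2 * logHeight₁ (x k)
      linarith [a.1, b.1]
    · show ‖ψ (WeierstrassCurve.Affine.Point.some _ _ (n1 k))‖ ^ 2 - 2 * logHeight₁ (x k) ≤ C
      linarith [a.2, b.2]
  have hv : ∀ k, |‖v k‖ ^ 2 - 2 * logHeight₁ (x k)| ≤ C := by
    intro k
    have h := hψ' (WeierstrassCurve.Affine.Point.some _ _ (n2 k))
    rw [WeierstrassCurve.Affine.Point.xRep_some, ← logHeight₁_eq_logHeight] at h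
    have h' := logHeight_scale (hg0K (K := K)) ((x k)⁻¹ ^ 2)
    rw [logHeight₁_pow ((x k)⁻¹), logHeight₁_inv] at h'
    have a := abs_le.mp h
    have b := abs_le.mp h'
    push_cast at b
    rw [abs_le]
    constructor
    · show -C ≤ ‖ψ' (WeierstrassCurve.Affine.Point.some _ _ (n2 k))‖ ^ 2 - 2 * logHeight₁ (x k)
      linarith [a.1, b.1]
    · show ‖ψ' (WeierstrassCurve.Affine.Point.some _ _ (n2 k))‖ ^ 2 - 2 * logHeight₁ (x k) ≤ C
      linarith [a.2, b.2]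
  have hh : Filter.Tendsto (fun k => logHeight₁ (x k)) Filter.atTop Filter.atTop := by
    rw [Filter.tendsto_atTop]
    intro b
    have hf : {k : ℕ | logHeight₁ (x k) ≤ b}.Finite :=
      Set.Finite.preimage hxinj.injOn (NumberField.finite_setOfPred_logHeight₁_le K b)
    rw [← Nat.cofinite_eq_atTop]
    filter_upwards [hf.eventually_cofinite_notMem] with k hk
    simp only [not_le] at hk
    exact hk.le
  obtain ⟨k, l, hk, hl, hip⟩ := pairs u v (fun k => logHeight₁ (x k)) C hh hu hv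
    (fun k => (hxm k).2.2.le) (max B (10 * (6 * C + CP) + 1)) c
  have hkB : B ≤ logHeight₁ (x k) := (le_max_left _ _).trans hk
  have hkC : 10 * (6 * C + CP) + 1 ≤ logHeight₁ (x k) := (le_max_right _ _).trans hk
  have h1k := (hxm k).2.2
  have h1l := (hxm l).2.2
  have hck : logHeight₁ (x k) ≤ c * logHeight₁ (x k) := by nlinarith only [hc, h1k]
  have hlt : logHeight₁ (x k) < logHeight₁ (x l) := by
    linarith only [hck, hl]
  have hne : x k ≠ x l := fun h => by rw [h] at hlt; exact lt_irrefl _ hlt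
  have hne' : x k ≠ -x l := fun h => by
    rw [h, logHeight₁_neg] at hlt; exact lt_irrefl _ hlt
  have hsq : (-y l) ^ 2 = fv (x l) := by rw [neg_sq]; exact hy l
  have h4 := hcontr (x k) (y k) (x l) (-y l) (hy k) hsq (hxm k).2.1 (hxm l).2.1 hne hkB
    (by linarith only [hl])
  have h5 := hP (x k) (y k) (x l) (-y l) (hy k) hsq hne hne' (hx0 k) (hx0 l) (n1 k) (m1 l) (n2 k) (m2 l)
  have e1 : WeierstrassCurve.Affine.Point.some _ _ (n1 k) - WeierstrassCurve.Affine.Point.some _ _ (m1 l)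
      = WeierstrassCurve.Affine.Point.some _ _ (n1 k) + WeierstrassCurve.Affine.Point.some _ _ (n1 l) := by
    have m1' : (EA K).toAffine.Nonsingular ((g3 : K) * x l ^ 2) (-((g3 : K) * y l)) := by
      have := m1 l
      rwa [mul_neg] at this
    have e3 : WeierstrassCurve.Affine.Point.some _ _ (m1 l) =
        WeierstrassCurve.Affine.Point.some _ _ m1' := by
      congr 1
      ring
    have e4 : -WeierstrassCurve.Affine.Point.some _ _ (n1 l)
      = WeierstrassCurve.Affine.Point.some _ _ m1' := MW.neg_mk (n1 l) m1'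
    rw [e3, ← e4, sub_neg_eq_add]
  have e2 : WeierstrassCurve.Affine.Point.some _ _ (n2 k) - WeierstrassCurve.Affine.Point.some _ _ (m2 l)
      = WeierstrassCurve.Affine.Point.some _ _ (n2 k) + WeierstrassCurve.Affine.Point.some _ _ (n2 l) := by
    have m2' : (EB K).toAffine.Nonsingular ((g0 : K) * (x l)⁻¹ ^ 2)
        (-((g0 : K) * (y l * (x l)⁻¹ ^ 3))) := by
      have := m2 l
      rwa [neg_mul, mul_neg] at this
    have e3 : WeierstrassCurve.Affine.Point.some _ _ (m2 l) =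
        WeierstrassCurve.Affine.Point.some _ _ m2' := by
      congr 1
      ring
    have e4 : -WeierstrassCurve.Affine.Point.some _ _ (n2 l)
      = WeierstrassCurve.Affine.Point.some _ _ m2' := MW.neg_mk (n2 l) m2'
    rw [e3, ← e4, sub_neg_eq_add]
  rw [e1, e2] at h5
  have h6 := (abs_le.mp (hψ (WeierstrassCurve.Affine.Point.some _ _ (n1 k) +
    WeierstrassCurve.Affine.Point.some _ _ (n1 l)))).2
  have h7 := (abs_le.mp (hψ' (WeierstrassCurve.Affine.Point.some _ _ (n2 k) +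
    WeierstrassCurve.Affine.Point.some _ _ (n2 l)))).2
  rw [map_add, norm_add_sq_real] at h6 h7
  have a1 := (abs_le.mp (hu k)).1
  have a2 := (abs_le.mp (hu l)).1
  have a3 := (abs_le.mp (hv k)).1
  have a4 := (abs_le.mp (hv l)).1
  simp only [u, v] at a1 a2 a3 a4 hip
  have hg : logHeight₁ (x k) ≤ Real.sqrt (logHeight₁ (x k) * logHeight₁ (x l)) := by
    apply Real.le_sqrt_of_sq_le
    nlinarith only [hlt, h1k]
  linarith only [h4, h5, h6, h7, a1, a2, a3, a4, hip, hg, hkC, hC0, hCdef, hCA0, hCB0, hl3, hl0]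

end Pool.Agent.H106R2
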