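import Mathlib

/-! Parameters of the curve `y² = g₃ x⁶ + g₂ x⁴ + g₁ x² + g₀`. -/

set_option autoImplicit false

open Polynomial

namespace Pool.Agent.H106R2

/-- integer parameters of the curve, with the rational roots of the cubic `g` -/
class Gc where
  g0 : ℤ
  g1 : ℤ
  g2 : ℤ
  g3 : ℤ
  e1 : ℚ
  e2 : ℚ
  e3 : ℚ
  hg3 : g3 ≠ 0
  he1 : e1 ≠ 0
  he2 : e2 ≠ 0
  he3 : e3 ≠ 0
  h12 : e1 ≠ e2
  h13 : e1 ≠ e3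
  h23 : e2 ≠ e3
  hg2 : (g2 : ℚ) = - (g3 * (e1 + e2 + e3))
  hg1 : (g1 : ℚ) = g3 * (e1 * e2 + e1 * e3 + e2 * e3)
  hg0 : (g0 : ℚ) = - (g3 * (e1 * e2 * e3))

export Gc (g0 g1 g2 g3)

lemma g0_ne [Gc] : (g0 : ℤ) ≠ 0 := by
  intro h
  have h1 := Gc.hg0
  rw [h] at h1
  have h3 : ((g3 : ℤ) : ℚ) ≠ 0 := by exact_mod_cast Gc.hg3
  have : (g3 : ℚ) * (Gc.e1 * Gc.e2 * Gc.e3) = 0 := by
    have : ((0 : ℤ) : ℚ) = 0 := Int.cast_zero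
    linarith
  exact (mul_ne_zero h3 (mul_ne_zero (mul_ne_zero Gc.he1 Gc.he2) Gc.he3)) this

/-- value of the sextic at a point of a ring -/
def fv [Gc] {K : Type} [CommRing K] (a : K) : K :=
  (g3 : K) * a ^ 6 + (g2 : K) * a ^ 4 + (g1 : K) * a ^ 2 + (g0 : K)

/-- a bound for the coefficients -/
noncomputable def hh [Gc] : ℝ := |((g0 : ℤ) : ℝ)| + |((g1 : ℤ) : ℝ)| + |((g2 : ℤ) : ℝ)| + |((g3 : ℤ) : ℝ)|

lemma one_le_hh [Gc] : 1 ≤ hh := by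
  have h3 : (1 : ℝ) ≤ |((g3 : ℤ) : ℝ)| := by
    rw [← Int.cast_abs]
    exact_mod_cast Int.one_le_abs Gc.hg3
  have h0 := abs_nonneg ((g0 : ℤ) : ℝ)
  have h1 := abs_nonneg ((g1 : ℤ) : ℝ)
  have h2 := abs_nonneg ((g2 : ℤ) : ℝ)
  unfold hh
  linarith

end Pool.Agent.H106R2
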