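import Mathlib

/-! Set-theoretic and metric part of the reduction for rational-area sets in `ℓ²`. -/

set_option autoImplicit false

open TopologicalSpace

namespace Pool.Agent.H106R2

/-- the Hilbert space -/
abbrev L2 : Type := lp (fun _ : ℕ => ℝ) 2

lemma L2_sep : SeparableSpace L2 := by
  rw [← isSeparable_univ_iff]
  have h1 : IsSeparable (Set.range (fun i : ℕ => (lp.single 2 i (1:ℝ) : L2))) :=
    (Set.countable_range _).isSeparable
  have h2 : IsSeparable ((Submodule.span ℝ (Set.range (fun i : ℕ => (lp.single 2 i (1:ℝ) : L2)))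
      : Submodule ℝ L2) : Set L2) := h1.span
  refine h2.closure.mono ?_
  intro f _
  have hf := lp.hasSum_single (p := 2) (by norm_num) f
  refine mem_closure_of_tendsto hf (Filter.Eventually.of_forall fun s => ?_)
  refine Submodule.sum_mem _ fun i _ => ?_
  have : (lp.single 2 i (f i) : L2) = (f i) • (lp.single 2 i (1:ℝ) : L2) := by
    rw [← lp.single_smul]; simp
  rw [this]
  exact Submodule.smul_mem _ _ (Submodule.subset_span ⟨i, rfl⟩)

/-- area condition -/
def RatArea (S : Set L2) : Prop :=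
  ∀ a ∈ S, ∀ b ∈ S, ∀ c ∈ S, a ≠ b → b ≠ c → a ≠ c →
        ∃ q : ℚ, q ≠ 0 ∧
          (1 / 2 : ℝ) * Real.sqrt (‖b - a‖ ^ 2 * ‖c - a‖ ^ 2 - (inner ℝ (b - a) (c - a)) ^ 2) = (q : ℝ)

/-- the Gram determinant is a nonzero rational square -/
lemma RatArea.gram {S : Set L2} (hS : RatArea S) {a b c : L2} (ha : a ∈ S) (hb : b ∈ S) (hc : c ∈ S)
    (h1 : a ≠ b) (h2 : b ≠ c) (h3 : a ≠ c) :
    ∃ q : ℚ, q ≠ 0 ∧ ‖b - a‖ ^ 2 * ‖c - a‖ ^ 2 - (inner ℝ (b - a) (c - a)) ^ 2 = (q : ℝ) ^ 2 := by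
  obtain ⟨q, hq0, hq⟩ := hS a ha b hb c hc h1 h2 h3
  have hnn : 0 ≤ ‖b - a‖ ^ 2 * ‖c - a‖ ^ 2 - (inner ℝ (b - a) (c - a)) ^ 2 := by
    have h := abs_real_inner_le_norm (b - a) (c - a)
    have h4 := pow_le_pow_left₀ (abs_nonneg _) h 2
    rw [sq_abs, mul_pow] at h4
    linarith
  refine ⟨2 * q, mul_ne_zero two_ne_zero hq0, ?_⟩
  push_cast
  rw [← hq]
  have := Real.sq_sqrt hnn
  linear_combination -this

/-- the elimination: for fixed data only finitely many values of `w` are possible -/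
lemma elim_finite (E F k α β γ : ℝ) (hE : 0 < E) (hdet : E * F - k ^ 2 ≠ 0) :
    {w : ℝ | ∃ s t : ℝ, E * w - s ^ 2 = α ∧ F * w - t ^ 2 = β ∧
      (E + F - 2 * k) * (w - 2 * s + E) - (t - k - s + E) ^ 2 = γ}.Finite := by
  classical
  -- the polynomial in `s`
  let R : Polynomial ℝ := Polynomial.C (-2 * k) * Polynomial.X ^ 2
    + Polynomial.C (-2 * E * (E + F - 2 * k) + 2 * E * (E - k)) * Polynomial.X
    + Polynomial.C ((E + F - 2 * k) * (α + E ^ 2) - γ * E - F * α + β * E - E * (E - k) ^ 2)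
  let P : Polynomial ℝ := Polynomial.C (4 * E) * (Polynomial.C F * (Polynomial.C α + Polynomial.X ^ 2)
      - Polynomial.C (β * E)) * (Polynomial.C (E - k) - Polynomial.X) ^ 2 - R ^ 2
  have hP4 : P.coeff 4 = 4 * (E * F - k ^ 2) := by
    have e : P = Polynomial.C (4 * (E * F - k ^ 2)) * Polynomial.X ^ 4
        + Polynomial.C (-8 * E * F * (E - k) - 2 * (-2 * k) * (-2 * E * (E + F - 2 * k) + 2 * E * (E - k)))
          * Polynomial.X ^ 3
        + Polynomial.C (4 * E * (F * α - β * E) + 4 * E * F * (E - k) ^ 2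
            - (-2 * E * (E + F - 2 * k) + 2 * E * (E - k)) ^ 2
            - 2 * (-2 * k) * ((E + F - 2 * k) * (α + E ^ 2) - γ * E - F * α + β * E - E * (E - k) ^ 2))
          * Polynomial.X ^ 2
        + Polynomial.C (-8 * E * (F * α - β * E) * (E - k)
            - 2 * (-2 * E * (E + F - 2 * k) + 2 * E * (E - k))
              * ((E + F - 2 * k) * (α + E ^ 2) - γ * E - F * α + β * E - E * (E - k) ^ 2))
          * Polynomial.X
        + Polynomial.C (4 * E * (F * α - β * E) * (E - k) ^ 2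
            - ((E + F - 2 * k) * (α + E ^ 2) - γ * E - F * α + β * E - E * (E - k) ^ 2) ^ 2) := by
      simp only [P, R, map_mul, map_sub, map_add, map_pow, map_neg, map_ofNat]
      ring
    rw [e]
    simp only [Polynomial.coeff_add, Polynomial.coeff_C_mul, Polynomial.coeff_X_pow,
      Polynomial.coeff_X, Polynomial.coeff_C]
    norm_num
  have hP0 : P ≠ 0 := by
    intro h
    rw [h, Polynomial.coeff_zero] at hP4
    apply hdet
    linarith
  have hfin : {s : ℝ | P.IsRoot s}.Finite := Polynomial.finite_setOfPred_isRoot hP0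
  refine (hfin.image (fun s => (α + s ^ 2) / E)).subset ?_
  rintro w ⟨s, t, h1, h2, h3⟩
  refine ⟨s, ?_, ?_⟩
  · have hw : w = (α + s ^ 2) / E := by
      field_simp
      linarith
    show P.IsRoot s
    rw [Polynomial.IsRoot]
    simp only [P, R, Polynomial.eval_sub, Polynomial.eval_mul, Polynomial.eval_add,
      Polynomial.eval_pow, Polynomial.eval_X, Polynomial.eval_C]
    -- `E t² = F (α + s²) - β E`, and `2 E t (E - k - s) = R(s)`
    have e1 : E * w = α + s ^ 2 := by linarith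
    have e2 : E * t ^ 2 = F * (α + s ^ 2) - β * E := by
      have : t ^ 2 = F * w - β := by linarith
      rw [this]
      linear_combination F * e1
    have e3 : 2 * E * t * (E - k - s) = (-2 * k) * s ^ 2
        + (-2 * E * (E + F - 2 * k) + 2 * E * (E - k)) * s
        + ((E + F - 2 * k) * (α + E ^ 2) - γ * E - F * α + β * E - E * (E - k) ^ 2) := by
      linear_combination (-E) * h3 + (E + F - 2 * k) * e1 - e2
    rw [← e3]
    linear_combination (-(4 * E * (E - k - s) ^ 2)) * e2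
  · simp only
    field_simp
    linarith

/-- for a base point, only countably many distances occur -/
lemma RatArea.countable_dist {S : Set L2} (hS : RatArea S) {a b c : L2} (ha : a ∈ S) (hb : b ∈ S)
    (hc : c ∈ S) (h1 : a ≠ b) (h2 : b ≠ c) (h3 : a ≠ c) :
    ((fun x => ‖x - a‖ ^ 2) '' S).Countable := by
  obtain ⟨q0, hq0, hdet⟩ := hS.gram ha hb hc h1 h2 h3
  set e := b - a with he
  set f := c - a with hf
  set E := ‖e‖ ^ 2 with hE
  set F := ‖f‖ ^ 2 with hF
  set k := inner ℝ e f with hk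
  have hE0 : 0 < E := by
    have : e ≠ 0 := sub_ne_zero.mpr h1.symm
    positivity
  have hd : E * F - k ^ 2 ≠ 0 := by
    rw [hdet]
    have : (q0 : ℝ) ≠ 0 := by exact_mod_cast hq0
    exact pow_ne_zero _ this
  let W : ℚ × ℚ × ℚ → Set ℝ := fun p => {w : ℝ | ∃ s t : ℝ, E * w - s ^ 2 = (p.1 : ℝ) ^ 2 ∧
    F * w - t ^ 2 = (p.2.1 : ℝ) ^ 2 ∧
      (E + F - 2 * k) * (w - 2 * s + E) - (t - k - s + E) ^ 2 = (p.2.2 : ℝ) ^ 2}
  have hW : (⋃ p, W p).Countable :=
    Set.countable_iUnion fun p => (elim_finite E F k _ _ _ hE0 hd).countable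
  refine ((hW.union (Set.countable_singleton (‖a - a‖ ^ 2))).union
    ((Set.countable_singleton (‖b - a‖ ^ 2)).union (Set.countable_singleton (‖c - a‖ ^ 2)))).mono ?_
  rintro _ ⟨x, hx, rfl⟩
  by_cases hxa : x = a
  · subst hxa; exact Or.inl (Or.inr rfl)
  by_cases hxb : x = b
  · subst hxb; exact Or.inr (Or.inl rfl)
  by_cases hxc : x = c
  · subst hxc; exact Or.inr (Or.inr rfl)
  refine Or.inl (Or.inl ?_)
  obtain ⟨r1, -, hr1⟩ := hS.gram ha hb hx h1 (Ne.symm hxb) (Ne.symm hxa)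
  obtain ⟨r2, -, hr2⟩ := hS.gram ha hc hx h3 (Ne.symm hxc) (Ne.symm hxa)
  obtain ⟨r3, -, hr3⟩ := hS.gram hb hc hx h2 (Ne.symm hxc) (Ne.symm hxb)
  rw [Set.mem_iUnion]
  refine ⟨(r1, r2, r3), inner ℝ e (x - a), inner ℝ f (x - a), ?_, ?_, ?_⟩
  · simpa using hr1
  · simpa using hr2
  · have e1 : c - b = f - e := by rw [he, hf]; abel
    have e2 : x - b = (x - a) - e := by rw [he]; abel
    rw [e1, e2] at hr3
    have n1 : ‖f - e‖ ^ 2 = E + F - 2 * k := by
      rw [norm_sub_sq_real, real_inner_comm]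
      ring
    have n2 : ‖(x - a) - e‖ ^ 2 = ‖x - a‖ ^ 2 - 2 * inner ℝ e (x - a) + E := by
      rw [norm_sub_sq_real, real_inner_comm]
    have n3 : inner ℝ (f - e) ((x - a) - e) = inner ℝ f (x - a) - k - inner ℝ e (x - a) + E := by
      rw [inner_sub_left, inner_sub_right f (x - a) e, inner_sub_right e (x - a) e,
        real_inner_self_eq_norm_sq, real_inner_comm e f]
      ring
    rw [n1, n2, n3] at hr3
    exact hr3

/-- uncountable subsets contain small uncountable spheres -/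
lemma RatArea.step {S : Set L2} (hS : RatArea S) (T : Set L2) (hT : T ⊆ S) (hTu : ¬ T.Countable)
    (ε : ℝ) (hε : 0 < ε) :
    ∃ x ∈ T, ∃ q : ℝ, 0 < q ∧ q < ε ∧ ¬ {y ∈ T | ‖y - x‖ ^ 2 = q}.Countable := by
  have := L2_sep
  obtain ⟨D, hDc, hDd⟩ := TopologicalSpace.exists_countable_dense L2
  -- radius
  obtain ⟨r, hr0, hr⟩ : ∃ r : ℝ, 0 < r ∧ (2 * r) ^ 2 < ε := by
    refine ⟨Real.sqrt ε / 4, by positivity, ?_⟩
    have := Real.sq_sqrt hε.le
    nlinarith
  -- a ball with uncountably many points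
  obtain ⟨d, hd⟩ : ∃ d ∈ D, ¬ (T ∩ Metric.ball d r).Countable := by
    by_contra hcon
    push Not at hcon
    apply hTu
    refine (hDc.biUnion hcon).mono ?_
    intro y hy
    obtain ⟨d, hd, hdy⟩ := hDd.exists_dist_lt y hr0
    rw [Set.mem_iUnion₂]
    exact ⟨d, hd, hy, hdy⟩
  set T' := T ∩ Metric.ball d r with hT'
  have hT'ne : T'.Infinite := fun h => hd.2 h.countable
  obtain ⟨x, hx⟩ := hT'ne.nonempty
  obtain ⟨b, hb, hbx⟩ := (hT'ne.sdiff (Set.finite_singleton x)).nonempty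
  obtain ⟨c, hc, hcx⟩ := (hT'ne.sdiff ((Set.finite_singleton x).union (Set.finite_singleton b))).nonempty
  have hcount := hS.countable_dist (hT hx.1) (hT hb.1) (hT hc.1) (fun h => hbx h.symm)
    (fun h => hcx (Or.inr h.symm)) (fun h => hcx (Or.inl h.symm))
  refine ⟨x, hx.1, ?_⟩
  by_contra hcon
  push Not at hcon
  apply hd.2
  have hsub : T' ⊆ {x} ∪ ⋃ q ∈ ((fun x' => ‖x' - x‖ ^ 2) '' S) ∩ Set.Ioo 0 ε,
      {y ∈ T | ‖y - x‖ ^ 2 = q} := by
    intro y hy
    by_cases hyx : y = x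
    · exact Or.inl hyx
    · refine Or.inr ?_
      rw [Set.mem_iUnion₂]
      refine ⟨‖y - x‖ ^ 2, ⟨⟨y, hT hy.1, rfl⟩, ?_, ?_⟩, hy.1, rfl⟩
      · have : y - x ≠ 0 := sub_ne_zero.mpr hyx
        positivity
      · have h1 : ‖y - x‖ < 2 * r := by
          have h2 : dist y x ≤ dist y d + dist d x := dist_triangle _ _ _
          have h3 : dist y d < r := hy.2
          have h4 : dist x d < r := hx.2
          rw [dist_comm d x] at h2
          rw [← dist_eq_norm]
          linarith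
        calc ‖y - x‖ ^ 2 ≤ (2 * r) ^ 2 := pow_le_pow_left₀ (norm_nonneg _) h1.le 2
          _ < ε := hr
  refine Set.Countable.mono hsub ((Set.countable_singleton x).union ?_)
  refine (hcount.mono Set.inter_subset_left).biUnion ?_
  rintro q ⟨-, hq1, hq2⟩
  exact hcon q hq1 hq2

/-- chain of points -/
theorem RatArea.chain {S : Set L2} (hS : RatArea S) (hSu : ¬ S.Countable) :
    ∃ q : ℕ → ℝ, (∀ i, 0 < q i) ∧ (∀ i j, i < j → q j < q i) ∧
      ∀ i j, i < j → ∃ r : ℚ, (r : ℝ) ^ 2 = q j * (4 * q i - q j) := by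
  classical
  let St : Type := {p : Set L2 × ℝ // (p.1 ⊆ S ∧ ¬ p.1.Countable) ∧ 0 < p.2}
  have hstep : ∀ p : St, ∃ x ∈ p.1.1, ∃ q : ℝ, 0 < q ∧ q < p.1.2 ∧
      ¬ {y ∈ p.1.1 | ‖y - x‖ ^ 2 = q}.Countable := fun p =>
    hS.step p.1.1 p.2.1.1 p.2.1.2 p.1.2 p.2.2
  choose X hX Q hQ0 hQε hQc using hstep
  let nxt : St → St := fun p => ⟨({y ∈ p.1.1 | ‖y - X p‖ ^ 2 = Q p}, Q p),
    ⟨fun y hy => p.2.1.1 hy.1, hQc p⟩, hQ0 p⟩
  let st : ℕ → St := fun n => Nat.rec (⟨(S, 1), ⟨subset_rfl, hSu⟩, one_pos⟩ : St)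
    (fun _ p => nxt p) n
  have hst : ∀ n, st (n + 1) = nxt (st n) := fun n => rfl
  have hmono : ∀ i k, (st (i + k)).1.1 ⊆ (st i).1.1 := by
    intro i k
    induction k with
    | zero => exact subset_rfl
    | succ k ih =>
      refine subset_trans ?_ ih
      rw [← add_assoc, hst]
      intro y hy
      exact hy.1
  have hdist : ∀ i j, i < j → ‖X (st j) - X (st i)‖ ^ 2 = Q (st i) := by
    intro i j hij
    have h1 : X (st j) ∈ (st (i + 1)).1.1 := by
      have := hmono (i + 1) (j - (i + 1))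
      rw [Nat.add_sub_cancel' hij] at this
      exact this (hX (st j))
    rw [hst] at h1
    exact h1.2
  have hdec1 : ∀ i, Q (st (i + 1)) < Q (st i) := by
    intro i
    have := hQε (st (i + 1))
    rw [hst] at this ⊢
    exact this
  have hanti : StrictAnti (fun i => Q (st i)) := strictAnti_nat_of_succ_lt hdec1
  have hmem : ∀ i, X (st i) ∈ S := fun i => (st i).2.1.1 (hX (st i))
  have hne : ∀ i j, i < j → X (st i) ≠ X (st j) := by
    intro i j hij h
    have h1 := hdist i j hij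
    rw [h, sub_self, norm_zero] at h1
    have := hQ0 (st i)
    rw [← h1] at this
    norm_num at this
  refine ⟨fun i => Q (st i), fun i => hQ0 _, fun i j hij => hanti hij, ?_⟩
  intro i j hij
  obtain ⟨r, -, hr⟩ := hS.gram (hmem i) (hmem j) (hmem (j + 1)) (hne i j hij)
    (hne j (j + 1) (Nat.lt_succ_self j)) (hne i (j + 1) (by omega))
  have d1 := hdist i j hij
  have d2 := hdist i (j + 1) (by omega)
  have d3 := hdist j (j + 1) (by omega)
  have hin : inner ℝ (X (st j) - X (st i)) (X (st (j + 1)) - X (st i)) = Q (st i) - Q (st j) / 2 := by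
    have e : X (st (j + 1)) - X (st j) = (X (st (j + 1)) - X (st i)) - (X (st j) - X (st i)) := by abel
    rw [e, norm_sub_sq_real, d1, d2, real_inner_comm] at d3
    linarith
  rw [d1, d2, hin] at hr
  refine ⟨2 * r, ?_⟩
  push_cast
  linear_combination (-4) * hr

end Pool.Agent.H106R2
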