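import Pool.Agent.H106R2.V3
import Pool.Agent.H437R2.Man.V1
import Pool.Agent.H437R2.Man.MWPar

/-! Interface definitions between the modules. -/

set_option autoImplicit false

open Polynomial Height

namespace Pool.Agent.H106R2

open Pool.Agent.H437R2.Man (gs FS lx MW.crv)

variable [Gc]

/-- local function `log M_v` of a pair of points -/
noncomputable def mloc {K : Type} [Field K] (a₁ b₁ a₂ b₂ : K) (v : AbsoluteValue K ℝ) : ℝ :=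
  Real.log (max (v (a₁ - a₂) * max (v a₁) 1 ^ 2 * max (v a₂) 1 ^ 2)
    (max (v (b₁ + b₂)) (v (b₁ * a₂ ^ 3 + b₂ * a₁ ^ 3))))

/-- sup norm bound for the coefficients -/
def CB (Λ : ℝ) (p : P2 ℤ) : Prop := ∀ i j, |(((p.coeff j).coeff i : ℤ) : ℝ)| ≤ Real.exp Λ

/-- statement AUX (auxiliary polynomial) -/
def AuxStatement : Prop :=
  ∃ C : ℝ, 0 < C ∧ ∀ n₁ n₂ e : ℕ, 3 ≤ n₁ → 3 ≤ n₂ → e ≤ n₁ → e ≤ n₂ → ∀ r N : ℝ,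
    r = 2 * e * (n₁ + n₂) + 2 * e ^ 2 + e → N = (n₁ + 1) * (n₂ + 1) + (n₁ - 2) * (n₂ - 2) →
    r < N →
    ∃ (G R R' : RR ℤ) (Q : P2 ℤ) (Λ : ℝ), G ≠ 0 ∧ Q ≠ 0 ∧ BR n₁ n₂ G ∧ VV e G R R' ∧
      BR (n₁ + 4 * e) (n₂ + 4 * e) R ∧ BR (n₁ + 4 * e) (n₂ + 4 * e) R' ∧
      G.re ^ 2 - DD ℤ * G.im ^ 2 = dlt ℤ ^ (2 * e) * Q ∧ BD (2 * n₁ - 2 * e) (2 * n₂ - 2 * e) Q ∧
      0 ≤ Λ ∧ CB Λ G.re ∧ CB Λ G.im ∧ CB Λ R.re ∧ CB Λ R.im ∧ CB Λ R'.re ∧ CB Λ R'.im ∧ CB Λ Q ∧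
      Λ ≤ C * (r / (N - r) * (n₂ + e + Real.log N) + n₁ + n₂ + e)

/-- statement MI (main inequality) for a number field `K` -/
def MIStatement (K : Type) [Field K] [NumberField K] : Prop :=
  ∃ C : ℝ, 0 < C ∧ ∀ (n₁ n₂ e : ℕ) (G R R' : RR ℤ) (Q : P2 ℤ) (Λ : ℝ), BR n₁ n₂ G → VV e G R R' →
      BR (n₁ + 4 * e) (n₂ + 4 * e) R → BR (n₁ + 4 * e) (n₂ + 4 * e) R' →
      G.re ^ 2 - DD ℤ * G.im ^ 2 = dlt ℤ ^ (2 * e) * Q → BD (2 * n₁ - 2 * e) (2 * n₂ - 2 * e) Q →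
      0 ≤ Λ → CB Λ G.re → CB Λ G.im → CB Λ R.re → CB Λ R.im → CB Λ R'.re → CB Λ R'.im →
      ∀ a₁ b₁ a₂ b₂ : K, b₁ ^ 2 = fv a₁ → b₂ ^ 2 = fv a₂ → fv a₁ ≠ 0 → fv a₂ ≠ 0 → a₁ ≠ a₂ →
      ∀ (i₁ i₂ : ℕ), ∑ a ∈ Finset.range (2 * n₁ - 2 * e + 1), ∑ b ∈ Finset.range (2 * n₂ - 2 * e + 1),
          (((Q.coeff b).coeff a : ℤ) : K) * ((a.choose i₁ : K) * a₁ ^ (a - i₁)) *
            ((b.choose i₂ : K) * a₂ ^ (b - i₂)) ≠ 0 →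
      ∀ r₁ r₂ : ℝ, 0 < r₁ → 0 < r₂ → ∃ j₁ j₂ : ℕ,
        (j₁ : ℝ) / r₁ + (j₂ : ℝ) / r₂ ≤ (i₁ : ℝ) / r₁ + (i₂ : ℝ) / r₂ ∧
        2 * e * gs (mloc a₁ b₁ a₂ b₂) ≤ (n₁ + 4 * e + 5 * j₁) * logHeight₁ a₁
          + (n₂ + 4 * e + 5 * j₂) * logHeight₁ a₂ + C * (Λ + n₁ + n₂ + e + j₁ + j₂)

/-- the first quotient elliptic curve `y² = g₃² ... ` (monic model) -/
noncomputable def EA (K : Type) [Field K] : WeierstrassCurve K :=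
  MW.crv ((-(g3 * Gc.e1) : ℚ) : K) ((-(g3 * Gc.e2) : ℚ) : K) ((-(g3 * Gc.e3) : ℚ) : K)

/-- the second quotient elliptic curve (monic model) -/
noncomputable def EB (K : Type) [Field K] : WeierstrassCurve K :=
  MW.crv ((-(g0 / Gc.e1) : ℚ) : K) ((-(g0 / Gc.e2) : ℚ) : K) ((-(g0 / Gc.e3) : ℚ) : K)

/-- statement PHI (lower bound for the local functions through the elliptic curves) -/
def PhiStatement (K : Type) [Field K] [NumberField K] [DecidableEq K] : Prop :=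
  ∃ C : ℝ, ∀ a₁ b₁ a₂ b₂ : K, b₁ ^ 2 = fv a₁ → b₂ ^ 2 = fv a₂ → a₁ ≠ a₂ → a₁ ≠ -a₂ →
    a₁ ≠ 0 → a₂ ≠ 0 →
    ∀ (h₁ : (EA K).toAffine.Nonsingular ((g3 : K) * a₁ ^ 2) ((g3 : K) * b₁))
      (h₂ : (EA K).toAffine.Nonsingular ((g3 : K) * a₂ ^ 2) ((g3 : K) * b₂))
      (h₃ : (EB K).toAffine.Nonsingular ((g0 : K) * a₁⁻¹ ^ 2) ((g0 : K) * (b₁ * a₁⁻¹ ^ 3)))
      (h₄ : (EB K).toAffine.Nonsingular ((g0 : K) * a₂⁻¹ ^ 2) ((g0 : K) * (b₂ * a₂⁻¹ ^ 3))),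
      logHeight (WeierstrassCurve.Affine.Point.some _ _ h₁ -
          WeierstrassCurve.Affine.Point.some _ _ h₂).xRep
        + logHeight (WeierstrassCurve.Affine.Point.some _ _ h₃ -
          WeierstrassCurve.Affine.Point.some _ _ h₄).xRep
        + 6 * logHeight₁ a₁ + 6 * logHeight₁ a₂ ≤ 4 * gs (mloc a₁ b₁ a₂ b₂) + C

/-- `ℓ¹` norm of an integer polynomial -/
noncomputable def l1 (p : Polynomial ℤ) : ℝ := p.sum (fun _ c => |(c : ℝ)|)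

/-- `ℓ¹` norm of an integer polynomial in two variables -/
noncomputable def l2 (p : P2 ℤ) : ℝ := p.sum (fun _ c => l1 c)

/-- norm on the ring `RR ℤ` -/
noncomputable def lR (G : RR ℤ) : ℝ := l2 G.re + hh * l2 G.im

/-- index set of the unknown coefficients -/
abbrev Idx (n₁ n₂ : ℕ) : Type := (Fin (n₁ + 1) × Fin (n₂ + 1)) ⊕ (Fin (n₁ - 2) × Fin (n₂ - 2))

/-- the element of `RR S` with given coefficients -/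
noncomputable def Gof {S : Type} [CommRing S] {n₁ n₂ : ℕ} (c : Idx n₁ n₂ → S) : RR S :=
  ⟨∑ i : Fin (n₁ + 1) × Fin (n₂ + 1), C (C (c (Sum.inl i)) * X ^ (i.1 : ℕ)) * X ^ (i.2 : ℕ),
    ∑ i : Fin (n₁ - 2) × Fin (n₂ - 2), C (C (c (Sum.inr i)) * X ^ (i.1 : ℕ)) * X ^ (i.2 : ℕ)⟩

/-- the matrix of the linear conditions -/
noncomputable def Amat (n₁ n₂ e D : ℕ) : Matrix (Fin (2 * e) × Fin D) (Idx n₁ n₂) ℤ :=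
  fun kd i => (LL (kd.1 : ℕ) (Gof (S := ℤ) (Pi.single i 1))).coeff (kd.2 : ℕ)

end Pool.Agent.H106R2
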