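import Pool.Agent.H106R2.Iface

set_option autoImplicit false

open Polynomial

set_option linter.unusedSectionVars false

namespace Pool.Agent.H106R2

variable [Gc]

namespace Rk

section lin

variable {S : Type} [CommRing S]

lemma cc_smul (k : ℕ) (a : S) (p : P2 S) : cc k (a • p) = a • cc k p := by
  have h : a • p = C (C a) * p := by
    ext i j
    simp [coeff_smul, coeff_C_mul]
  rw [h, cc_C_mul]
  ext i
  simp

lemma LL_add (k : ℕ) (G H : RR S) : LL k (G + H) = LL k G + LL k H := by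
  unfold LL
  rw [mul_add]
  simp only [QuadraticAlgebra.re_add, QuadraticAlgebra.im_add, cc_add]
  split_ifs
  · ring
  · ring

lemma LL_smul (k : ℕ) (a : S) (G : RR S) : LL k (a • G) = a • LL k G := by
  have hs : P0 S ^ (k / 2) * (a • G) = a • (P0 S ^ (k / 2) * G) := by
    apply QuadraticAlgebra.ext
    · simp only [QuadraticAlgebra.re_mul, QuadraticAlgebra.im_mul, QuadraticAlgebra.re_smul,
        QuadraticAlgebra.im_smul, mul_smul_comm, smul_add]
    · simp only [QuadraticAlgebra.re_mul, QuadraticAlgebra.im_mul, QuadraticAlgebra.re_smul,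
        QuadraticAlgebra.im_smul, mul_smul_comm, smul_add]
  unfold LL
  rw [hs]
  simp only [QuadraticAlgebra.re_smul, QuadraticAlgebra.im_smul, cc_smul]
  split_ifs
  · rw [smul_add, mul_smul_comm]
  · rw [smul_add, smul_add, mul_smul_comm, mul_smul_comm, mul_smul_comm]

noncomputable def LLl (S : Type) [CommRing S] (k : ℕ) : RR S →ₗ[S] Polynomial S where
  toFun G := LL k G
  map_add' := LL_add k
  map_smul' := LL_smul k

variable {n₁ n₂ : ℕ}

lemma Gof_add (c d : Idx n₁ n₂ → S) : Gof (c + d) = Gof c + Gof d := by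
  apply QuadraticAlgebra.ext
  · simp only [Gof, QuadraticAlgebra.re_add, Pi.add_apply, map_add, add_mul, Finset.sum_add_distrib]
  · simp only [Gof, QuadraticAlgebra.im_add, Pi.add_apply, map_add, add_mul, Finset.sum_add_distrib]

lemma Gof_smul (a : S) (c : Idx n₁ n₂ → S) : Gof (a • c) = a • Gof c := by
  have key : ∀ (x : S) (i j : ℕ), (C (C (a * x) * X ^ i) * X ^ j : P2 S)
      = a • (C (C x * X ^ i) * X ^ j : P2 S) := by
    intro x i j
    ext u v
    simp [coeff_smul, coeff_C_mul, mul_assoc]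
  apply QuadraticAlgebra.ext
  · simp only [Gof, QuadraticAlgebra.re_smul, Pi.smul_apply, smul_eq_mul, Finset.smul_sum, key]
  · simp only [Gof, QuadraticAlgebra.im_smul, Pi.smul_apply, smul_eq_mul, Finset.smul_sum, key]

noncomputable def Gl (S : Type) [CommRing S] (n₁ n₂ : ℕ) : (Idx n₁ n₂ → S) →ₗ[S] RR S where
  toFun c := Gof c
  map_add' := Gof_add
  map_smul' := Gof_smul

noncomputable def Fk (S : Type) [CommRing S] (n₁ n₂ k : ℕ) : (Idx n₁ n₂ → S) →ₗ[S] Polynomial S :=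
  (LLl S k).comp (Gl S n₁ n₂)

lemma Fk_apply (k : ℕ) (c : Idx n₁ n₂ → S) : Fk S n₁ n₂ k c = LL k (Gof c) := rfl

lemma Fk_sum (k : ℕ) (c : Idx n₁ n₂ → S) :
    LL k (Gof c) = ∑ i, c i • LL k (Gof (S := S) (Pi.single i 1)) := by
  have h : c = ∑ i, c i • (Pi.single i 1 : Idx n₁ n₂ → S) := by
    exact pi_eq_sum_univ' c |>.trans (by
      refine Finset.sum_congr rfl fun i _ => ?_
      congr 1)
  conv_lhs => rw [h]
  rw [← Fk_apply, map_sum]
  refine Finset.sum_congr rfl fun i _ => ?_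
  rw [map_smul, Fk_apply]

end lin

section coef

variable {S : Type} [CommRing S] {n₁ n₂ : ℕ}

lemma coeff_term (x : S) (i j u v : ℕ) :
    ((C (C x * X ^ i) * X ^ j : P2 S).coeff v).coeff u = if u = i ∧ v = j then x else 0 := by
  rw [coeff_C_mul, coeff_X_pow]
  by_cases hv : v = j
  · rw [if_pos hv, mul_one, coeff_C_mul, coeff_X_pow]
    by_cases hu : u = i
    · simp [hu, hv]
    · simp [hu]
  · simp [hv]

lemma BD_term (x : S) {i j n m : ℕ} (hi : i ≤ n) (hj : j ≤ m) :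
    BD n m (C (C x * X ^ i) * X ^ j : P2 S) := by
  refine ⟨fun v => ?_, ?_⟩
  · rw [natDegree_le_iff_coeff_eq_zero]
    intro u hu
    rw [coeff_term, if_neg]
    omega
  · rw [natDegree_le_iff_coeff_eq_zero]
    intro v hv
    ext u
    rw [coeff_term, if_neg, coeff_zero]
    omega

lemma BD_sum {ι : Type} (s : Finset ι) {n m : ℕ} (f : ι → P2 S) (h : ∀ i ∈ s, BD n m (f i)) :
    BD n m (∑ i ∈ s, f i) := by
  classical
  induction s using Finset.induction_on with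
  | empty => exact ⟨fun j => by simp, by simp⟩
  | insert a s ha ih =>
    rw [Finset.sum_insert ha]
    exact (h a (Finset.mem_insert_self _ _)).add
      (ih fun i hi => h i (Finset.mem_insert_of_mem hi))

lemma BR_Gof'' (h₁ : 3 ≤ n₁) (h₂ : 3 ≤ n₂) (c : Idx n₁ n₂ → S) : BR n₁ n₂ (Gof c) := by
  refine ⟨h₁, h₂, ?_, ?_⟩
  · exact BD_sum _ _ fun i _ => BD_term _ (by have := i.1.2; omega) (by have := i.2.2; omega)
  · exact BD_sum _ _ fun i _ => BD_term _ (by have := i.1.2; omega) (by have := i.2.2; omega)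

lemma coeff_re (c : Idx n₁ n₂ → S) (i : Fin (n₁ + 1) × Fin (n₂ + 1)) :
    (((Gof c).re.coeff i.2).coeff i.1) = c (Sum.inl i) := by
  rw [Gof]
  simp only
  rw [finsetSum_coeff, finsetSum_coeff]
  rw [Finset.sum_eq_single i]
  · rw [coeff_term]; simp
  · intro b _ hb
    rw [coeff_term, if_neg]
    rintro ⟨h1, h2⟩
    exact hb (Prod.ext (Fin.ext h1.symm) (Fin.ext h2.symm))
  · intro h; exact absurd (Finset.mem_univ _) h

lemma coeff_im (c : Idx n₁ n₂ → S) (i : Fin (n₁ - 2) × Fin (n₂ - 2)) :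
    (((Gof c).im.coeff i.2).coeff i.1) = c (Sum.inr i) := by
  rw [Gof]
  simp only
  rw [finsetSum_coeff, finsetSum_coeff]
  rw [Finset.sum_eq_single i]
  · rw [coeff_term]; simp
  · intro b _ hb
    rw [coeff_term, if_neg]
    rintro ⟨h1, h2⟩
    exact hb (Prod.ext (Fin.ext h1.symm) (Fin.ext h2.symm))
  · intro h; exact absurd (Finset.mem_univ _) h

end coef

section base

noncomputable def mR (G : RR ℤ) : RR ℚ :=
  ⟨G.re.map (mapRingHom (Int.castRingHom ℚ)), G.im.map (mapRingHom (Int.castRingHom ℚ))⟩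

lemma map_DD : (DD ℤ).map (mapRingHom (Int.castRingHom ℚ)) = DD ℚ := by
  simp [DD, f1, f2, ff]

lemma mR_mul (G H : RR ℤ) : mR (G * H) = mR G * mR H := by
  apply QuadraticAlgebra.ext
  · simp only [mR, QuadraticAlgebra.re_mul, Polynomial.map_add, Polynomial.map_mul, map_DD]
  · simp only [mR, QuadraticAlgebra.im_mul, Polynomial.map_add, Polynomial.map_mul]
    simp

lemma mR_P0 : mR (P0 ℤ) = P0 ℚ := by
  apply QuadraticAlgebra.ext
  · simp [mR, P0, f1, f2, ff]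
  · simp [mR, P0]

lemma mR_one : mR 1 = 1 := by
  apply QuadraticAlgebra.ext
  · simp [mR, QuadraticAlgebra.re_one]
  · simp [mR, QuadraticAlgebra.im_one]

lemma mR_pow (G : RR ℤ) (k : ℕ) : mR (G ^ k) = mR G ^ k := by
  induction k with
  | zero => simp [mR_one]
  | succ k ih => rw [pow_succ, pow_succ, mR_mul, ih]

lemma cc_map (k : ℕ) (p : P2 ℤ) :
    cc k (p.map (mapRingHom (Int.castRingHom ℚ))) = (cc k p).map (Int.castRingHom ℚ) := by
  have h := Polynomial.map_taylor p (X : Polynomial ℤ) (mapRingHom (Int.castRingHom ℚ))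
  have h2 : (mapRingHom (Int.castRingHom ℚ)) (X : Polynomial ℤ) = X := by simp
  rw [h2] at h
  unfold cc
  rw [← h, coeff_map]
  rfl

lemma LL_map (k : ℕ) (G : RR ℤ) : LL k (mR G) = (LL k G).map (Int.castRingHom ℚ) := by
  have h : P0 ℚ ^ (k / 2) * mR G = mR (P0 ℤ ^ (k / 2) * G) := by rw [mR_mul, mR_pow, mR_P0]
  unfold LL
  rw [h]
  have h3 : (mR (P0 ℤ ^ (k / 2) * G)).re
    = (P0 ℤ ^ (k / 2) * G).re.map (mapRingHom (Int.castRingHom ℚ)) := rfl
  have h4 : (mR (P0 ℤ ^ (k / 2) * G)).im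
    = (P0 ℤ ^ (k / 2) * G).im.map (mapRingHom (Int.castRingHom ℚ)) := rfl
  rw [h3, h4]
  simp only [cc_map]
  split_ifs
  · simp [ff]
  · simp [ff, df]

lemma mR_single {n₁ n₂ : ℕ} (i : Idx n₁ n₂) :
    mR (Gof (S := ℤ) (Pi.single i 1)) = Gof (S := ℚ) (Pi.single i 1) := by
  have key : ∀ j : Idx n₁ n₂, (Int.castRingHom ℚ) ((Pi.single i 1 : Idx n₁ n₂ → ℤ) j)
      = (Pi.single i 1 : Idx n₁ n₂ → ℚ) j := by
    intro j
    by_cases h : j = i
    · subst h; simp
    · simp [Pi.single_eq_of_ne h]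
  apply QuadraticAlgebra.ext
  · simp only [mR, Gof, Polynomial.map_sum, Polynomial.map_mul, Polynomial.map_pow, map_X, map_C,
      coe_mapRingHom, key]
  · simp only [mR, Gof, Polynomial.map_sum, Polynomial.map_mul, Polynomial.map_pow, map_X, map_C,
      coe_mapRingHom, key]

end base

section rank

variable (n₁ n₂ : ℕ)

/-- the subspace of the first `k` linear conditions -/
noncomputable def W (k : ℕ) : Submodule ℚ (Idx n₁ n₂ → ℚ) :=
  ⨅ i : Fin k, LinearMap.ker (Fk ℚ n₁ n₂ i)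

lemma mem_W {k : ℕ} {c : Idx n₁ n₂ → ℚ} : c ∈ W n₁ n₂ k ↔ ∀ i < k, LL i (Gof c) = 0 := by
  simp only [W, Submodule.mem_iInf, LinearMap.mem_ker, Fk_apply]
  constructor
  · intro h i hi; exact h ⟨i, hi⟩
  · intro h i; exact h i i.2

lemma W_succ (h₁ : 3 ≤ n₁) (h₂ : 3 ≤ n₂) (k : ℕ) :
    Module.finrank ℚ (W n₁ n₂ k) ≤ Module.finrank ℚ (W n₁ n₂ (k + 1)) + (n₁ + n₂ + k + 1) := by
  set g : W n₁ n₂ k →ₗ[ℚ] Polynomial ℚ := (Fk ℚ n₁ n₂ k).domRestrict (W n₁ n₂ k) with hg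
  have h1 := LinearMap.finrank_range_add_finrank_ker g
  have h2 : LinearMap.range g ≤ degreeLT ℚ (n₁ + n₂ + k + 1) := by
    rintro _ ⟨c, rfl⟩
    rw [mem_degreeLT]
    have h3 := LL_deg (k := k) (BR_Gof'' h₁ h₂ c.1) ((mem_W n₁ n₂).1 c.2)
    have h4 : g c = LL k (Gof c.1) := rfl
    rw [h4]
    refine lt_of_le_of_lt degree_le_natDegree ?_
    exact_mod_cast Nat.lt_succ_of_le h3
  have h5 : Module.finrank ℚ (LinearMap.range g) ≤ n₁ + n₂ + k + 1 := by
    have h6 := Submodule.finrank_mono h2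
    rwa [(degreeLTEquiv ℚ (n₁ + n₂ + k + 1)).finrank_eq, Module.finrank_fin_fun] at h6
  have h7 : Module.finrank ℚ (LinearMap.ker g) ≤ Module.finrank ℚ (W n₁ n₂ (k + 1)) := by
    let u : LinearMap.ker g →ₗ[ℚ] W n₁ n₂ (k + 1) :=
      LinearMap.codRestrict _ ((W n₁ n₂ k).subtype.comp (LinearMap.ker g).subtype) (by
        intro c
        rw [mem_W]
        intro i hi
        rcases Nat.lt_succ_iff_lt_or_eq.1 hi with h | h
        · exact (mem_W n₁ n₂).1 c.1.2 i h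
        · subst h
          exact c.2)
    refine LinearMap.finrank_le_finrank_of_injective (f := u) ?_
    intro a b hab
    have := congrArg (fun z : W n₁ n₂ (k + 1) => (z : Idx n₁ n₂ → ℚ)) hab
    exact Subtype.ext (Subtype.ext this)
  omega

lemma W_codim (h₁ : 3 ≤ n₁) (h₂ : 3 ≤ n₂) (k : ℕ) :
    Fintype.card (Idx n₁ n₂) ≤ Module.finrank ℚ (W n₁ n₂ k)
      + ∑ i ∈ Finset.range k, (n₁ + n₂ + i + 1) := by
  induction k with
  | zero =>
    have : W n₁ n₂ 0 = ⊤ := by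
      rw [eq_top_iff]
      intro c _
      rw [mem_W]
      intro i hi
      omega
    rw [this, finrank_top, Module.finrank_fintype_fun_eq_card]
    simp
  | succ k ih =>
    have := W_succ n₁ n₂ h₁ h₂ k
    rw [Finset.sum_range_succ]
    omega

lemma sum_eq (e : ℕ) : ∑ i ∈ Finset.range (2 * e), (n₁ + n₂ + i + 1)
    = 2 * e * (n₁ + n₂) + 2 * e ^ 2 + e := by
  induction e with
  | zero => simp
  | succ e ih =>
    rw [show 2 * (e + 1) = 2 * e + 1 + 1 by ring, Finset.sum_range_succ, Finset.sum_range_succ, ih]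
    ring

end rank

end Rk

theorem LL_Gof {n₁ n₂ : ℕ} (k : ℕ) (c : Idx n₁ n₂ → ℤ) :
    LL k (Gof c) = ∑ i, C (c i) * LL k (Gof (S := ℤ) (Pi.single i 1)) := by
  rw [Rk.Fk_sum]
  refine Finset.sum_congr rfl fun i _ => ?_
  rw [← smul_eq_C_mul]

theorem BR_Gof {n₁ n₂ : ℕ} (h₁ : 3 ≤ n₁) (h₂ : 3 ≤ n₂) (c : Idx n₁ n₂ → ℤ) : BR n₁ n₂ (Gof c) :=
  Rk.BR_Gof'' h₁ h₂ c

theorem Gof_ne {n₁ n₂ : ℕ} {c : Idx n₁ n₂ → ℤ} (hc : c ≠ 0) : Gof c ≠ 0 := by
  intro h
  apply hc
  funext i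
  rcases i with i | i
  · rw [← Rk.coeff_re c i, h]; simp
  · rw [← Rk.coeff_im c i, h]; simp

theorem rank_Amat (n₁ n₂ e D : ℕ) (h₁ : 3 ≤ n₁) (h₂ : 3 ≤ n₂) :
    ((Amat n₁ n₂ e D).map (Int.cast : ℤ → ℚ)).rank ≤ 2 * e * (n₁ + n₂) + 2 * e ^ 2 + e := by
  set M := (Amat n₁ n₂ e D).map (Int.cast : ℤ → ℚ) with hM
  have hle : Rk.W n₁ n₂ (2 * e) ≤ LinearMap.ker M.mulVecLin := by
    intro c hc
    rw [Rk.mem_W] at hc
    rw [LinearMap.mem_ker, Matrix.mulVecLin_apply]
    funext kd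
    have h1 : (M.mulVec c) kd = (LL (kd.1 : ℕ) (Gof c)).coeff (kd.2 : ℕ) := by
      rw [Rk.Fk_sum, finsetSum_coeff, Matrix.mulVec, dotProduct]
      refine Finset.sum_congr rfl fun i _ => ?_
      rw [coeff_smul, smul_eq_mul, mul_comm, ← Rk.mR_single, Rk.LL_map, coeff_map]
      rfl
    rw [h1, hc _ kd.1.2]
    simp
  have h2 := Submodule.finrank_mono hle
  have h3 := LinearMap.finrank_range_add_finrank_ker M.mulVecLin
  rw [Module.finrank_fintype_fun_eq_card] at h3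
  have h4 := Rk.W_codim n₁ n₂ h₁ h₂ (2 * e)
  rw [Rk.sum_eq] at h4
  have h5 : M.rank = Module.finrank ℚ (LinearMap.range M.mulVecLin) := rfl
  rw [h5]
  omega

end Pool.Agent.H106R2
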