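import Mathlib

/-!
# Roth's lemma in two variables: order of vanishing bound (module ROTH of TEAM-V)
-/

set_option autoImplicit false

open Polynomial

namespace Pool.Agent.H106R2.Rt

/-- The `ℓ¹`-norm of an integer polynomial. -/
noncomputable def l1 (P : ℤ[X]) : ℝ := P.sum fun _ a => |(a : ℝ)|

section Nonarch

variable {K : Type} [Field K] (v : AbsoluteValue K ℝ) (hv : IsNonarchimedean v)

include hv

theorem nonarch_one (ξ : K) (Q : K[X]) (B : ℝ) (hB : 0 ≤ B)
    (h : ∀ i, v (((X - C ξ) * Q).coeff i) ≤ B) : ∀ i, max (v ξ) 1 * v (Q.coeff i) ≤ B := by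
  rcases le_total (v ξ) 1 with h1 | h1
  · rw [max_eq_right h1]
    have key : ∀ n i, Q.natDegree + 1 ≤ i + n → v (Q.coeff i) ≤ B := by
      intro n
      induction n with
      | zero =>
        intro i hi
        rw [coeff_eq_zero_of_natDegree_lt (by omega)]
        simpa using hB
      | succ n ih =>
        intro i hi
        have h2 := ih (i+1) (by omega)
        have h3 := h (i+1)
        have h4 : Q.coeff i = ((X - C ξ) * Q).coeff (i+1) + ξ * Q.coeff (i+1) := by
          rw [sub_mul, coeff_sub, coeff_X_mul, coeff_C_mul]; ring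
        rw [h4]
        refine (hv _ _).trans (max_le h3 ?_)
        rw [map_mul]
        calc v ξ * v (Q.coeff (i+1)) ≤ 1 * B := mul_le_mul h1 h2 (v.nonneg _) zero_le_one
          _ = B := one_mul B
    intro i
    rw [one_mul]
    exact key (Q.natDegree + 1) i (by omega)
  · rw [max_eq_left h1]
    intro i
    induction i with
    | zero =>
      have h3 := h 0
      have h4 : ((X - C ξ) * Q).coeff 0 = - (ξ * Q.coeff 0) := by
        rw [sub_mul, coeff_sub, coeff_C_mul]
        simp
      rw [h4, map_neg_eq_map, map_mul] at h3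
      exact h3
    | succ i ih =>
      have h3 := h (i+1)
      have h4 : ξ * Q.coeff (i+1) = - ((X - C ξ) * Q).coeff (i+1) + Q.coeff i := by
        rw [sub_mul, coeff_sub, coeff_X_mul, coeff_C_mul]; ring
      rw [← map_mul, h4]
      refine (hv _ _).trans (max_le ?_ ?_)
      · rw [map_neg_eq_map]; exact h3
      · refine le_trans ?_ ih
        nlinarith [v.nonneg (Q.coeff i)]

theorem nonarch_pow (ξ : K) (e : ℕ) : ∀ (Q : K[X]) (B : ℝ) (_ : 0 ≤ B)
    (_ : ∀ i, v (((X - C ξ) ^ e * Q).coeff i) ≤ B),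
    ∀ i, (max (v ξ) 1) ^ e * v (Q.coeff i) ≤ B := by
  induction e with
  | zero =>
    intro Q B hB h i
    simpa using h i
  | succ e ih =>
    intro Q B hB h i
    have hm : 0 < max (v ξ) 1 := lt_max_of_lt_right one_pos
    have h1 : ∀ i, v (((X - C ξ) * Q).coeff i) ≤ B / (max (v ξ) 1) ^ e := by
      intro j
      have := ih ((X - C ξ) * Q) B hB (by
        intro j
        have := h j
        rwa [pow_succ, mul_assoc] at this) j
      rw [le_div_iff₀ (by positivity)]
      linarith
    have h2 := nonarch_one v hv ξ Q (B / (max (v ξ) 1) ^ e) (by positivity) h1 i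
    rw [le_div_iff₀ (by positivity)] at h2
    calc max (v ξ) 1 ^ (e+1) * v (Q.coeff i) = max (v ξ) 1 * v (Q.coeff i) * max (v ξ) 1 ^ e := by ring
      _ ≤ B := h2

/-- nonarchimedean part of the order bound -/
theorem nonarch_bound (ξ : K) (e : ℕ) (F : ℤ[X])
    (h : (X - C ξ) ^ e ∣ F.map (Int.castRingHom K)) :
    (max (v ξ) 1) ^ e * v (F.leadingCoeff : K) ≤ 1 := by
  obtain ⟨Q, hQ⟩ := h
  have hint : ∀ n : ℤ, v (n : K) ≤ 1 := by
    intro n
    have hnat : ∀ n : ℕ, v (n : K) ≤ 1 := by
      intro n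
      induction n with
      | zero => simp
      | succ n ih =>
        push_cast
        exact (hv _ _).trans (max_le ih (by simp))
    rcases Int.eq_nat_or_neg n with ⟨m, rfl | rfl⟩
    · simpa using hnat m
    · push_cast
      rw [map_neg_eq_map]
      exact hnat m
  have h1 : ∀ i, v (((X - C ξ) ^ e * Q).coeff i) ≤ 1 := by
    intro i
    rw [← hQ, coeff_map]
    exact hint _
  have h2 := nonarch_pow v hv ξ e Q 1 zero_le_one h1
  by_cases hF : (F.leadingCoeff : K) = 0
  · rw [hF]; simp
  have h3 : (F.map (Int.castRingHom K)).leadingCoeff = (F.leadingCoeff : K) := by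
    rw [leadingCoeff_map_of_leadingCoeff_ne_zero]
    · simp
    · simpa using hF
  have h4 : (F.leadingCoeff : K) = Q.leadingCoeff := by
    rw [← h3, hQ, leadingCoeff_mul, leadingCoeff_pow, leadingCoeff_X_sub_C, one_pow, one_mul]
  rw [h4]
  exact h2 _

end Nonarch

theorem arch_bound {K : Type} [Field K] (φ : K →+* ℂ) (ξ : K) (e : ℕ) (F : ℤ[X])
    (h : (X - C ξ) ^ e ∣ F.map (Int.castRingHom K)) :
    (max ‖φ ξ‖ 1) ^ e * |(F.leadingCoeff : ℝ)| ≤ l1 F := by
  obtain ⟨Q, hQ⟩ := h
  have h1 : F.map (Int.castRingHom ℂ) = (X - C (φ ξ)) ^ e * Q.map φ := by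
    have := congrArg (Polynomial.map φ) hQ
    rw [Polynomial.map_mul, Polynomial.map_pow, Polynomial.map_sub, map_X, map_C, map_map] at this
    rw [← this]
    congr 1
    exact RingHom.ext_int _ _
  have h2 : (F.map (Int.castRingHom ℂ)).mahlerMeasure ≤ l1 F := by
    refine (mahlerMeasure_le_sum_norm_coeff _).trans ?_
    unfold l1
    rw [Polynomial.sum_def, Polynomial.sum_def, support_map_of_injective _ Int.cast_injective]
    apply Finset.sum_le_sum
    intro i _
    simp
  have h3 : (F.map (Int.castRingHom ℂ)).leadingCoeff = (F.leadingCoeff : ℂ) := by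
    rw [leadingCoeff_map_of_injective Int.cast_injective]
    simp
  refine le_trans ?_ h2
  rw [h1, mahlerMeasure_mul]
  have h4 : (((X - C (φ ξ)) ^ e).mahlerMeasure) = (max ‖φ ξ‖ 1) ^ e := by
    clear h1 hQ h2 h3
    induction e with
    | zero => simp
    | succ e ih => rw [pow_succ, mahlerMeasure_mul, ih, mahlerMeasure_X_sub_C, pow_succ, max_comm]
  rw [h4]
  apply mul_le_mul_of_nonneg_left _ (by positivity)
  have h5 : (F.leadingCoeff : ℂ) = (Q.map φ).leadingCoeff := by
    rw [← h3, h1, leadingCoeff_mul, leadingCoeff_pow, leadingCoeff_X_sub_C, one_pow, one_mul]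
  have h6 := leadingCoeff_le_mahlerMeasure (Q.map φ)
  rw [← h5] at h6
  simpa using h6

end Pool.Agent.H106R2.Rt
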