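import Mathlib
import Pool.Agent.H106R2.RothA

/-!
# Roth's lemma in two variables: global order bound, and bounds for determinants
-/

set_option autoImplicit false

open Polynomial

namespace Pool.Agent.H106R2.Rt

open NumberField in
/-- If `(x - ξ)^e` divides the nonzero integer polynomial `F` then `H(ξ)^e ≤ |F|₁^[K:ℚ]`. -/
theorem order_bound_mul (K : Type) [Field K] [NumberField K] (ξ : K) (e : ℕ) (F : ℤ[X])
    (hF : F ≠ 0) (h : (X - C ξ) ^ e ∣ F.map (Int.castRingHom K)) :
    Height.mulHeight₁ ξ ^ e ≤ l1 F ^ Module.finrank ℚ K := by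
  have hc : (F.leadingCoeff : K) ≠ 0 := by
    simpa using hF
  set c : K := (F.leadingCoeff : K) with hcdef
  have hpf := prod_abs_eq_one hc
  have hfs1 : (fun w : FinitePlace K => w c).HasFiniteMulSupport :=
    FinitePlace.hasFiniteMulSupport hc
  have hfs2 : (fun w : FinitePlace K => max (w ξ) 1).HasFiniteMulSupport := by
    by_cases hξ : ξ = 0
    · have : (fun w : FinitePlace K => max (w ξ) 1) = fun _ => 1 := by
        funext w
        rw [hξ, map_zero]
        simp
      rw [this]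
      exact Function.hasFiniteMulSupport_one
    · refine (FinitePlace.hasFiniteMulSupport hξ).subset ?_
      intro w hw
      rw [Function.mem_mulSupport] at hw ⊢
      intro h1
      apply hw
      rw [h1]
      simp
  rw [mulHeight₁_eq, mul_pow, finprod_pow hfs2, ← Finset.prod_pow]
  have key : (∏ v : InfinitePlace K, (max (v ξ) 1 ^ v.mult) ^ e) *
      (∏ᶠ v : FinitePlace K, max (v ξ) 1 ^ e) =
      (∏ v : InfinitePlace K, (max (v ξ) 1 ^ e * v c) ^ v.mult) *
      (∏ᶠ v : FinitePlace K, (max (v ξ) 1 ^ e * v c)) := by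
    have hfse : (fun w : FinitePlace K => max (w ξ) 1 ^ e).HasFiniteMulSupport := hfs2.pow e
    rw [finprod_mul_distrib hfse hfs1]
    have : ∏ v : InfinitePlace K, (max (v ξ) 1 ^ e * v c) ^ v.mult =
        (∏ v : InfinitePlace K, (max (v ξ) 1 ^ v.mult) ^ e) * ∏ v : InfinitePlace K, v c ^ v.mult := by
      rw [← Finset.prod_mul_distrib]
      apply Finset.prod_congr rfl
      intro v _
      rw [mul_pow, ← pow_mul, ← pow_mul, mul_comm e]
    rw [this]
    calc _ = ((∏ v : InfinitePlace K, (max (v ξ) 1 ^ v.mult) ^ e) *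
      (∏ᶠ v : FinitePlace K, max (v ξ) 1 ^ e)) * ((∏ w : InfinitePlace K, w c ^ w.mult) *
        ∏ᶠ w : FinitePlace K, w c) := by rw [hpf, mul_one]
      _ = _ := by ring
  rw [key]
  have hinf : ∏ v : InfinitePlace K, (max (v ξ) 1 ^ e * v c) ^ v.mult ≤
      l1 F ^ Module.finrank ℚ K := by
    rw [← InfinitePlace.sum_mult_eq (K := K), ← Finset.prod_pow_eq_pow_sum]
    apply Finset.prod_le_prod
    · intro v _
      have := v.pos_iff.mpr hc
      positivity
    · intro v _
      have h1 := arch_bound v.embedding ξ e F h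
      rw [InfinitePlace.norm_embedding_eq] at h1
      have h2 : v c = |(F.leadingCoeff : ℝ)| := by
        rw [← InfinitePlace.norm_embedding_eq, hcdef]
        simp
      rw [h2]
      apply pow_le_pow_left₀ (by positivity) h1
  have hfin : ∏ᶠ v : FinitePlace K, (max (v ξ) 1 ^ e * v c) ≤ 1 := by
    have hfs3 : (fun v : FinitePlace K => max (v ξ) 1 ^ e * v c).HasFiniteMulSupport :=
      (hfs2.pow e).mul hfs1
    rw [finprod_eq_prod _ hfs3]
    apply Finset.prod_le_one
    · intro v _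
      have : 0 ≤ v c := apply_nonneg _ _
      positivity
    · intro v _
      exact nonarch_bound v.val (FinitePlace.add_le v) ξ e F h
  have hfin0 : 0 ≤ ∏ᶠ v : FinitePlace K, (max (v ξ) 1 ^ e * v c) := by
    apply finprod_nonneg
    intro v
    have : 0 ≤ v c := apply_nonneg _ _
    positivity
  have hl1 : 0 ≤ l1 F := by
    unfold l1
    rw [Polynomial.sum_def]
    positivity
  calc _ ≤ l1 F ^ Module.finrank ℚ K * 1 := mul_le_mul hinf hfin hfin0 (by positivity)
    _ = _ := mul_one _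

theorem order_bound (K : Type) [Field K] [NumberField K] (ξ : K) (e : ℕ) (F : ℤ[X])
    (hF : F ≠ 0) (h : (X - C ξ) ^ e ∣ F.map (Int.castRingHom K)) :
    e * Height.logHeight₁ ξ ≤ Module.finrank ℚ K * Real.log (l1 F) := by
  have h1 := order_bound_mul K ξ e F hF h
  rw [Height.logHeight₁_eq_log_mulHeight₁, ← Real.log_pow, ← Real.log_pow]
  exact Real.log_le_log (pow_pos (Height.mulHeight₁_pos ξ) e) h1

/-! ### the ℓ¹-norm -/

theorem l1_nonneg (P : ℤ[X]) : 0 ≤ l1 P := by
  unfold l1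
  rw [Polynomial.sum_def]
  positivity

theorem l1_eq (P : ℤ[X]) (N : ℕ) (h : P.natDegree < N) :
    l1 P = ∑ i ∈ Finset.range N, |(P.coeff i : ℝ)| := by
  unfold l1
  exact P.sum_over_range' (by simp) N h

theorem l1_add (P Q : ℤ[X]) : l1 (P + Q) ≤ l1 P + l1 Q := by
  set N := max P.natDegree Q.natDegree + 1 with hN
  rw [l1_eq (P + Q) N, l1_eq P N (by omega), l1_eq Q N (by omega), ← Finset.sum_add_distrib]
  · apply Finset.sum_le_sum
    intro i _
    rw [coeff_add]
    push_cast
    exact abs_add_le _ _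
  · have := natDegree_add_le P Q
    omega

theorem l1_zero : l1 0 = 0 := by simp [l1]

theorem l1_neg (P : ℤ[X]) : l1 (-P) = l1 P := by
  rw [l1_eq P (P.natDegree + 1) (by omega), l1_eq (-P) (P.natDegree + 1) (by simp)]
  simp

theorem l1_sum {ι : Type*} (s : Finset ι) (f : ι → ℤ[X]) :
    l1 (∑ i ∈ s, f i) ≤ ∑ i ∈ s, l1 (f i) := by
  classical
  induction s using Finset.induction_on with
  | empty => simp [l1_zero]
  | insert a s ha ih =>
    rw [Finset.sum_insert ha, Finset.sum_insert ha]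
    linarith [l1_add (f a) (∑ i ∈ s, f i)]

theorem l1_monomial_mul (n : ℕ) (a : ℤ) (Q : ℤ[X]) :
    l1 (monomial n a * Q) ≤ |(a : ℝ)| * l1 Q := by
  rw [l1_eq (monomial n a * Q) (n + (Q.natDegree + 1)), l1_eq Q (Q.natDegree + 1) (by omega),
    Finset.sum_range_add, Finset.mul_sum]
  · have h1 : ∑ x ∈ Finset.range n, |(((monomial n a * Q).coeff x : ℤ) : ℝ)| = 0 := by
      apply Finset.sum_eq_zero
      intro i hi
      rw [Finset.mem_range] at hi
      rw [← C_mul_X_pow_eq_monomial, mul_assoc, coeff_C_mul, coeff_X_pow_mul', if_neg (by omega)]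
      simp
    rw [h1, zero_add]
    apply Finset.sum_le_sum
    intro i _
    rw [← C_mul_X_pow_eq_monomial, mul_assoc, coeff_C_mul, add_comm n i, coeff_X_pow_mul]
    push_cast
    rw [abs_mul]
  · refine lt_of_le_of_lt natDegree_mul_le ?_
    have := natDegree_monomial_le a (m := n)
    omega

theorem l1_mul (P Q : ℤ[X]) : l1 (P * Q) ≤ l1 P * l1 Q := by
  conv_lhs => rw [P.as_sum_range, Finset.sum_mul]
  refine (l1_sum _ _).trans ?_
  rw [l1_eq P (P.natDegree + 1) (by omega), Finset.sum_mul]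
  exact Finset.sum_le_sum fun i _ => l1_monomial_mul _ _ _

theorem l1_one : l1 1 = 1 := by
  rw [l1_eq 1 1 (by simp)]
  simp

theorem l1_prod_le {ι : Type*} (s : Finset ι) (f : ι → ℤ[X]) (Z : ℝ)
    (hZ : ∀ i ∈ s, l1 (f i) ≤ Z) : l1 (∏ i ∈ s, f i) ≤ Z ^ s.card := by
  classical
  induction s using Finset.induction_on with
  | empty => simp [l1_one]
  | insert a s ha ih =>
    rw [Finset.prod_insert ha, Finset.card_insert_of_notMem ha, pow_succ']
    have h1 := hZ a (Finset.mem_insert_self _ _)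
    have h2 := ih fun i hi => hZ i (Finset.mem_insert_of_mem hi)
    exact (l1_mul _ _).trans (mul_le_mul h1 h2 (l1_nonneg _) ((l1_nonneg _).trans h1))

theorem l1_det {k : ℕ} (E : Matrix (Fin k) (Fin k) ℤ[X]) (Z : ℝ)
    (hZ : ∀ i j, l1 (E i j) ≤ Z) : l1 E.det ≤ k.factorial * Z ^ k := by
  rw [Matrix.det_apply']
  refine (l1_sum _ _).trans ?_
  have h1 : ∀ σ ∈ (Finset.univ : Finset (Equiv.Perm (Fin k))),
      l1 (((Equiv.Perm.sign σ : ℤ) : ℤ[X]) * ∏ i, E (σ i) i) ≤ Z ^ k := by
    intro σ _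
    have h2 := l1_prod_le Finset.univ (fun i => E (σ i) i) Z (fun i _ => hZ _ _)
    rw [Finset.card_univ, Fintype.card_fin] at h2
    rcases Int.units_eq_one_or (Equiv.Perm.sign σ) with h | h
    · rw [h]; simpa using h2
    · rw [h]
      simp only [Units.val_neg, Units.val_one, Int.cast_neg, Int.cast_one, neg_mul, one_mul, l1_neg]
      exact h2
  refine (Finset.sum_le_sum h1).trans ?_
  rw [Finset.sum_const, Finset.card_univ, Fintype.card_perm, Fintype.card_fin, nsmul_eq_mul]

theorem l1_hasseDeriv (i r : ℕ) (f : ℤ[X]) (B : ℝ) (hf : f.natDegree ≤ r)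
    (hB : ∀ n, |(f.coeff n : ℝ)| ≤ B) :
    l1 (hasseDeriv i f) ≤ (r + 1) * 2 ^ r * B := by
  have hB0 : 0 ≤ B := (abs_nonneg _).trans (hB 0)
  rw [l1_eq (hasseDeriv i f) (r + 1)
    (lt_of_le_of_lt (natDegree_hasseDeriv_le f i) (by omega))]
  have h1 : ∀ n ∈ Finset.range (r + 1), |((hasseDeriv i f).coeff n : ℝ)| ≤ 2 ^ r * B := by
    intro n _
    rw [hasseDeriv_coeff]
    by_cases hn : n + i ≤ r
    · push_cast
      rw [abs_mul]
      have h2 : |((n + i).choose i : ℝ)| ≤ 2 ^ r := by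
        rw [abs_of_nonneg (by positivity)]
        calc ((n + i).choose i : ℝ) ≤ 2 ^ (n + i) := by
              exact_mod_cast Nat.choose_le_two_pow (n + i) i
          _ ≤ 2 ^ r := pow_le_pow_right₀ (by norm_num) hn
      exact mul_le_mul h2 (hB _) (abs_nonneg _) (by positivity)
    · rw [coeff_eq_zero_of_natDegree_lt (by omega)]
      simp
      positivity
  refine (Finset.sum_le_sum h1).trans ?_
  rw [Finset.sum_const, Finset.card_range, nsmul_eq_mul]
  push_cast
  linarith

/-- bound for the Wronskian determinant -/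
theorem log_l1_wronskian {k r r₁ : ℕ} (hk : 0 < k) (hkr : k ≤ r₁ + 1) (hr : r ≤ r₁)
    (f : Fin k → ℤ[X]) (L : ℝ) (hL : 0 ≤ L)
    (hf : ∀ l, (f l).natDegree ≤ r) (hB : ∀ l n, |((f l).coeff n : ℝ)| ≤ Real.exp L)
    (hne : (Matrix.of fun i l : Fin k => hasseDeriv (i : ℕ) (f l)).det ≠ 0) :
    Real.log (l1 (Matrix.of fun i l : Fin k => hasseDeriv (i : ℕ) (f l)).det) ≤
      3 * k * (L + r₁) := by
  set W := (Matrix.of fun i l : Fin k => hasseDeriv (i : ℕ) (f l)).det with hW
  have hWpos : 0 < l1 W := by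
    rw [l1_eq W (W.natDegree + 1) (by omega)]
    have : |((W.coeff W.natDegree : ℤ) : ℝ)| ≤ ∑ i ∈ Finset.range (W.natDegree + 1), |(W.coeff i : ℝ)| :=
      Finset.single_le_sum (f := fun i => |(W.coeff i : ℝ)|) (fun i _ => abs_nonneg _) (by simp)
    refine lt_of_lt_of_le ?_ this
    have h1 : W.leadingCoeff ≠ 0 := leadingCoeff_ne_zero.mpr hne
    rw [coeff_natDegree, abs_pos]
    exact_mod_cast h1
  have h1 : l1 W ≤ k.factorial * ((r + 1) * 2 ^ r * Real.exp L) ^ k :=
    l1_det _ _ fun i j => by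
      rw [Matrix.of_apply]
      exact l1_hasseDeriv _ _ _ _ (hf _) (hB _)
  have h2 : (k.factorial : ℝ) ≤ Real.exp r₁ ^ k := by
    have h3 : (k.factorial : ℝ) ≤ (k : ℝ) ^ k := by exact_mod_cast Nat.factorial_le_pow k
    refine h3.trans ?_
    apply pow_le_pow_left₀ (by positivity)
    have h4 := Real.add_one_le_exp (r₁ : ℝ)
    refine le_trans ?_ h4
    exact_mod_cast hkr
  have h3 : ((r : ℝ) + 1) * 2 ^ r * Real.exp L ≤ Real.exp r₁ * Real.exp r₁ * Real.exp L := by
    have h4 : (r : ℝ) + 1 ≤ Real.exp r₁ := by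
      refine le_trans ?_ (Real.add_one_le_exp (r₁ : ℝ))
      have : (r : ℝ) ≤ r₁ := by exact_mod_cast hr
      linarith
    have h5 : (2 : ℝ) ^ r ≤ Real.exp r₁ := by
      calc (2 : ℝ) ^ r ≤ 2 ^ r₁ := pow_le_pow_right₀ (by norm_num) hr
        _ ≤ (Real.exp 1) ^ r₁ := by
          apply pow_le_pow_left₀ (by norm_num)
          have := Real.add_one_le_exp (1 : ℝ)
          linarith
        _ = Real.exp r₁ := by rw [← Real.exp_nat_mul, mul_one]
    have := Real.exp_pos L
    have := Real.exp_pos (r₁ : ℝ)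
    gcongr
  have h4 : l1 W ≤ Real.exp (3 * k * (L + r₁)) := by
    calc l1 W ≤ k.factorial * ((r + 1) * 2 ^ r * Real.exp L) ^ k := h1
      _ ≤ Real.exp r₁ ^ k * (Real.exp r₁ * Real.exp r₁ * Real.exp L) ^ k := by
        gcongr
      _ = Real.exp (k * (r₁ + r₁ + r₁ + L)) := by
        rw [← mul_pow, ← Real.exp_add, ← Real.exp_add, ← Real.exp_add, ← Real.exp_nat_mul]
        congr 1; ring
      _ ≤ Real.exp (3 * k * (L + r₁)) := by
        apply Real.exp_le_exp.mpr
        have : 0 ≤ (k : ℝ) * L := by positivity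
        nlinarith
  calc Real.log (l1 W) ≤ Real.log (Real.exp (3 * k * (L + r₁))) := Real.log_le_log hWpos h4
    _ = _ := Real.log_exp _

end Pool.Agent.H106R2.Rt
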