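import Mathlib
import Pool.Agent.H106R2.RothB
import Pool.Agent.H393R2.Roth2

/-!
# Roth's lemma in two variables: rank factorisation and orders of vanishing
-/

set_option autoImplicit false

open Polynomial

namespace Pool.Agent.H106R2.Rt

theorem rank_factor {p q : ℕ} (c : Matrix (Fin p) (Fin q) ℚ) :
    ∃ (k : ℕ) (α : Fin k → Fin q) (β : Fin k → Fin p) (n : Matrix (Fin k) (Fin k) ℚ),
      n.det ≠ 0 ∧ k ≤ q ∧ LinearIndependent ℚ (fun l => fun i => c i (α l)) ∧
      LinearIndependent ℚ (fun m => c (β m)) ∧
      ∀ i j, c i j = ∑ l, ∑ m, c i (α l) * n l m * c (β m) j := by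
  classical
  obtain ⟨κ, a, hai, has, hal⟩ := exists_linearIndependent' ℚ (fun j : Fin q => fun i => c i j)
  obtain ⟨κ', b, hbi, hbs, hbl⟩ := exists_linearIndependent' ℚ (fun i : Fin p => c i)
  have : Fintype κ := Fintype.ofInjective a hai
  have : Fintype κ' := Fintype.ofInjective b hbi
  have hc1 : Fintype.card κ = c.rank := by
    rw [Matrix.rank_eq_finrank_span_cols, ← finrank_span_eq_card hal, has]
    rfl
  have hc2 : Fintype.card κ' = c.rank := by
    rw [Matrix.rank_eq_finrank_span_row, ← finrank_span_eq_card hbl, hbs]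
    rfl
  set k := c.rank with hk
  let e : κ ≃ Fin k := Fintype.equivFinOfCardEq hc1
  let e' : κ' ≃ Fin k := Fintype.equivFinOfCardEq hc2
  set α : Fin k → Fin q := a ∘ e.symm with hα
  set β : Fin k → Fin p := b ∘ e'.symm with hβ
  have hkq : k ≤ q := by
    have := Fintype.card_le_of_injective α (hai.comp e.symm.injective)
    simpa using this
  have hαl : LinearIndependent ℚ (fun l => fun i => c i (α l)) :=
    hal.comp e.symm e.symm.injective
  have hβl : LinearIndependent ℚ (fun m => c (β m)) :=
    hbl.comp e'.symm e'.symm.injective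
  have hαs : ∀ j, (fun i => c i j) ∈ Submodule.span ℚ (Set.range (fun l => fun i => c i (α l))) := by
    intro j
    have h1 : Set.range (fun l => fun i => c i (α l)) = Set.range ((fun j : Fin q => fun i => c i j) ∘ a) := by
      ext v
      constructor
      · rintro ⟨l, rfl⟩
        exact ⟨e.symm l, rfl⟩
      · rintro ⟨l, rfl⟩
        exact ⟨e l, by simp [hα]⟩
    rw [h1, has]
    exact Submodule.subset_span ⟨j, rfl⟩
  have hβs : ∀ i, c i ∈ Submodule.span ℚ (Set.range (fun m => c (β m))) := by
    intro i
    have h1 : Set.range (fun m => c (β m)) = Set.range ((fun i : Fin p => c i) ∘ b) := by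
      ext v
      constructor
      · rintro ⟨l, rfl⟩
        exact ⟨e'.symm l, rfl⟩
      · rintro ⟨l, rfl⟩
        exact ⟨e' l, by simp [hβ]⟩
    rw [h1, hbs]
    exact Submodule.subset_span ⟨i, rfl⟩
  simp only [Submodule.mem_span_range_iff_exists_fun] at hαs hβs
  choose M1 hM1 using hαs
  choose M2 hM2 using hβs
  set D : Matrix (Fin k) (Fin k) ℚ := Matrix.of fun m l => c (β m) (α l) with hD
  have hA : ∀ i l, c i (α l) = ∑ m, M2 i m * D m l := by
    intro i l
    have := congrFun (hM2 i) (α l)
    rw [← this]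
    simp [hD]
  have hR : ∀ m j, c (β m) j = ∑ l, D m l * M1 j l := by
    intro m j
    have := congrFun (hM1 j) (β m)
    rw [← this]
    simp [hD, mul_comm]
  have hdet : D.det ≠ 0 := by
    intro h0
    obtain ⟨v, hv0, hv⟩ := Matrix.exists_mulVec_eq_zero_iff.mpr h0
    apply hv0
    have h1 : ∑ l, v l • (fun i => c i (α l)) = 0 := by
      funext i
      simp only [Finset.sum_apply, Pi.smul_apply, smul_eq_mul, Pi.zero_apply]
      have h2 : ∀ l, v l * c i (α l) = ∑ m, M2 i m * (D m l * v l) := by
        intro l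
        rw [hA, Finset.mul_sum]
        apply Finset.sum_congr rfl
        intro m _
        ring
      simp only [h2]
      rw [Finset.sum_comm]
      apply Finset.sum_eq_zero
      intro m _
      rw [← Finset.mul_sum]
      have h3 := congrFun hv m
      simp only [Matrix.mulVec, dotProduct, Pi.zero_apply] at h3
      rw [h3, mul_zero]
    exact funext fun l => Fintype.linearIndependent_iff.mp hαl v h1 l
  refine ⟨k, α, β, D⁻¹, ?_, hkq, hαl, hβl, ?_⟩
  · rw [Matrix.det_nonsing_inv]
    simpa using hdet
  · intro i j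
    have h1 : c i j = ∑ l, c i (α l) * M1 j l := by
      have := congrFun (hM1 j) i
      rw [← this]
      simp [mul_comm]
    rw [h1]
    apply Finset.sum_congr rfl
    intro l _
    have h2 : ∑ m, c i (α l) * D⁻¹ l m * c (β m) j = c i (α l) * (D⁻¹.mulVec (fun m => c (β m) j)) l := by
      simp only [Matrix.mulVec, dotProduct, Finset.mul_sum, mul_assoc]
    rw [h2]
    congr 1
    have h3 : (fun m => c (β m) j) = D.mulVec (M1 j) := by
      funext m
      rw [hR]
      rfl
    rw [h3, Matrix.mulVec_mulVec, Matrix.nonsing_inv_mul _ (by simpa using hdet), Matrix.one_mulVec]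

end Pool.Agent.H106R2.Rt
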