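import Mathlib
import Pool.Agent.H106R2.RothC

/-!
# Roth's lemma in two variables: proof
-/

set_option autoImplicit false

open Polynomial

namespace Pool.Agent.H106R2.Rt

section Taylor

variable {K : Type} [Field K]

/-- the value at `(ξ₁, ξ₂)` of a divided partial derivative of `∑ c a b x^a y^b`. -/
noncomputable def VV (c : ℕ → ℕ → ℤ) (r₁ r₂ : ℕ) (ξ₁ ξ₂ : K) (i₁ i₂ : ℕ) : K :=
  ∑ a ∈ Finset.range (r₁ + 1), ∑ b ∈ Finset.range (r₂ + 1),
    (c a b : K) * ((a.choose i₁ : K) * ξ₁ ^ (a - i₁)) * ((b.choose i₂ : K) * ξ₂ ^ (b - i₂))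

theorem taylor_one (ξ : K) (u : K[X]) (r a i : ℕ) (ha : a ≤ r) :
    ((a.choose i : ℕ) : K[X]) * (C ξ + u) ^ (a - i) =
      ∑ α ∈ Finset.range (r + 1), (((i + α).choose i : ℕ) : K[X]) *
        C ((a.choose (i + α) : K) * ξ ^ (a - (i + α))) * u ^ α := by
  by_cases hia : i ≤ a
  · have h1 : ∑ α ∈ Finset.range (r + 1), (((i + α).choose i : ℕ) : K[X]) *
        C ((a.choose (i + α) : K) * ξ ^ (a - (i + α))) * u ^ α =
        ∑ α ∈ Finset.range (a - i + 1), (((i + α).choose i : ℕ) : K[X]) *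
        C ((a.choose (i + α) : K) * ξ ^ (a - (i + α))) * u ^ α := by
      symm
      apply Finset.sum_subset
      · intro x hx
        rw [Finset.mem_range] at hx ⊢
        omega
      · intro x _ hx
        rw [Finset.mem_range] at hx
        rw [Nat.choose_eq_zero_of_lt (show a < i + x by omega)]
        simp
    rw [h1, add_comm (C ξ) u, add_pow, Finset.mul_sum]
    apply Finset.sum_congr rfl
    intro α hα
    rw [Finset.mem_range] at hα
    have h2 : a.choose (i + α) * (i + α).choose i = a.choose i * (a - i).choose α := by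
      have := Nat.choose_mul (n := a) (k := i + α) (s := i) (by omega)
      rw [this]
      congr 2
      omega
    have h3 : ((a.choose (i + α) : ℕ) : K[X]) * (((i + α).choose i : ℕ) : K[X]) =
        ((a.choose i : ℕ) : K[X]) * (((a - i).choose α : ℕ) : K[X]) := by
      exact_mod_cast congrArg (Nat.cast : ℕ → K[X]) h2
    have h4 : a - (i + α) = a - i - α := by omega
    rw [C_mul, C_pow, h4]
    have h5 : C ((a.choose (i + α) : ℕ) : K) = ((a.choose (i + α) : ℕ) : K[X]) := by simp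
    rw [h5]
    calc _ = (((a.choose i : ℕ) : K[X]) * (((a - i).choose α : ℕ) : K[X])) *
          (u ^ α * C ξ ^ (a - i - α)) := by ring
      _ = _ := by rw [← h3]; ring
  · rw [Nat.choose_eq_zero_of_lt (show a < i by omega)]
    symm
    simp only [Nat.cast_zero, zero_mul]
    apply Finset.sum_eq_zero
    intro α _
    rw [Nat.choose_eq_zero_of_lt (show a < i + α by omega)]
    simp

/-- the entries of the determinant, on the curve `(ξ₁ + s^p, ξ₂ + s^q)`. -/
noncomputable def EE (c : ℕ → ℕ → ℤ) (r₁ r₂ : ℕ) (ξ₁ ξ₂ : K) (u w : K[X]) (i j : ℕ) : K[X] :=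
  ∑ a ∈ Finset.range (r₁ + 1), ∑ b ∈ Finset.range (r₂ + 1),
    C (c a b : K) * (((a.choose i : ℕ) : K[X]) * (C ξ₁ + u) ^ (a - i)) *
      (((b.choose j : ℕ) : K[X]) * (C ξ₂ + w) ^ (b - j))

theorem EE_expand (c : ℕ → ℕ → ℤ) (r₁ r₂ : ℕ) (ξ₁ ξ₂ : K) (u w : K[X]) (i j : ℕ) :
    EE c r₁ r₂ ξ₁ ξ₂ u w i j = ∑ α ∈ Finset.range (r₁ + 1), ∑ β ∈ Finset.range (r₂ + 1),
      ((((i + α).choose i : ℕ) : K[X]) * (((j + β).choose j : ℕ) : K[X]) *
        C (VV c r₁ r₂ ξ₁ ξ₂ (i + α) (j + β))) * (u ^ α * w ^ β) := by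
  have h1 : EE c r₁ r₂ ξ₁ ξ₂ u w i j = ∑ a ∈ Finset.range (r₁ + 1), ∑ b ∈ Finset.range (r₂ + 1),
      ∑ α ∈ Finset.range (r₁ + 1), ∑ β ∈ Finset.range (r₂ + 1),
      ((((i + α).choose i : ℕ) : K[X]) * (((j + β).choose j : ℕ) : K[X]) *
        C ((c a b : K) * ((a.choose (i + α) : K) * ξ₁ ^ (a - (i + α))) *
          ((b.choose (j + β) : K) * ξ₂ ^ (b - (j + β))))) * (u ^ α * w ^ β) := by
    unfold EE
    apply Finset.sum_congr rfl
    intro a ha
    apply Finset.sum_congr rfl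
    intro b hb
    rw [Finset.mem_range] at ha hb
    rw [taylor_one ξ₁ u r₁ a i (by omega), taylor_one ξ₂ w r₂ b j (by omega), mul_assoc,
      Finset.sum_mul_sum, Finset.mul_sum]
    apply Finset.sum_congr rfl
    intro α _
    rw [Finset.mul_sum]
    apply Finset.sum_congr rfl
    intro β _
    simp only [C_mul]
    ring
  rw [h1]
  have h2 : ∀ α β : ℕ, C (VV c r₁ r₂ ξ₁ ξ₂ (i + α) (j + β)) =
      ∑ a ∈ Finset.range (r₁ + 1), ∑ b ∈ Finset.range (r₂ + 1),
        C ((c a b : K) * ((a.choose (i + α) : K) * ξ₁ ^ (a - (i + α))) *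
          ((b.choose (j + β) : K) * ξ₂ ^ (b - (j + β)))) := by
    intro α β
    unfold VV
    rw [map_sum]
    apply Finset.sum_congr rfl
    intro a _
    rw [map_sum]
  simp only [h2, Finset.mul_sum, Finset.sum_mul]
  -- swap sums
  calc _ = ∑ a ∈ Finset.range (r₁ + 1), ∑ α ∈ Finset.range (r₁ + 1), ∑ β ∈ Finset.range (r₂ + 1),
        ∑ b ∈ Finset.range (r₂ + 1),
        ((((i + α).choose i : ℕ) : K[X]) * (((j + β).choose j : ℕ) : K[X]) *
        C ((c a b : K) * ((a.choose (i + α) : K) * ξ₁ ^ (a - (i + α))) *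
          ((b.choose (j + β) : K) * ξ₂ ^ (b - (j + β))))) * (u ^ α * w ^ β) := by
        apply Finset.sum_congr rfl
        intro a _
        rw [Finset.sum_comm]
        apply Finset.sum_congr rfl
        intro α _
        rw [Finset.sum_comm]
    _ = _ := by
        rw [Finset.sum_comm]
        apply Finset.sum_congr rfl
        intro α _
        rw [Finset.sum_comm]

theorem EE_dvd (c : ℕ → ℕ → ℤ) (r₁ r₂ : ℕ) (ξ₁ ξ₂ : K) (t : ℕ)
    (hV : ∀ i j, i * r₂ + j * r₁ < t → VV c r₁ r₂ ξ₁ ξ₂ i j = 0) (i j : ℕ) :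
    (X : K[X]) ^ (t - i * r₂ - j * r₁) ∣
      EE c r₁ r₂ ξ₁ ξ₂ (X ^ r₂) (X ^ r₁) i j := by
  rw [EE_expand]
  apply Finset.dvd_sum
  intro α _
  apply Finset.dvd_sum
  intro β _
  by_cases h : (i + α) * r₂ + (j + β) * r₁ < t
  · rw [hV _ _ h]
    simp
  · apply Dvd.dvd.mul_left
    rw [← pow_mul, ← pow_mul, ← pow_add]
    apply pow_dvd_pow
    have h1 : t ≤ (i + α) * r₂ + (j + β) * r₁ := by omega
    have h2 : (i + α) * r₂ + (j + β) * r₁ = i * r₂ + j * r₁ + (r₂ * α + r₁ * β) := by ring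
    omega

/-- composition of a divided derivative -/
theorem comp_hasse (f : ℤ[X]) (r i : ℕ) (hf : f.natDegree ≤ r) (y : K[X]) :
    ((hasseDeriv i f).map (Int.castRingHom K)).comp y =
      ∑ a ∈ Finset.range (r + 1), C ((f.coeff a : ℤ) : K) * (((a.choose i : ℕ) : K[X]) * y ^ (a - i)) := by
  rw [hasseDeriv_apply, Polynomial.sum_over_range' _ _ (r + 1) (by omega)]
  · rw [Polynomial.map_sum, Polynomial.sum_comp]
    apply Finset.sum_congr rfl
    intro a _
    rw [map_monomial, monomial_comp]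
    simp only [map_mul, eq_intCast, map_natCast, map_intCast]
    ring
  · intro n; simp

theorem sum4_comm {M : Type} [AddCommMonoid M] {k : ℕ} (R₁ R₂ : ℕ) (G : ℕ → ℕ → Fin k → Fin k → M) :
    ∑ a ∈ Finset.range R₁, ∑ b ∈ Finset.range R₂, ∑ l, ∑ m, G a b l m =
      ∑ m, ∑ l, ∑ a ∈ Finset.range R₁, ∑ b ∈ Finset.range R₂, G a b l m := by
  calc _ = ∑ a ∈ Finset.range R₁, ∑ b ∈ Finset.range R₂, ∑ m, ∑ l, G a b l m := by
        apply Finset.sum_congr rfl
        intro a _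
        apply Finset.sum_congr rfl
        intro b _
        rw [Finset.sum_comm]
    _ = ∑ a ∈ Finset.range R₁, ∑ m, ∑ b ∈ Finset.range R₂, ∑ l, G a b l m := by
        apply Finset.sum_congr rfl
        intro a _
        rw [Finset.sum_comm]
    _ = ∑ m, ∑ a ∈ Finset.range R₁, ∑ b ∈ Finset.range R₂, ∑ l, G a b l m := by
        rw [Finset.sum_comm]
    _ = ∑ m, ∑ a ∈ Finset.range R₁, ∑ l, ∑ b ∈ Finset.range R₂, G a b l m := by
        apply Finset.sum_congr rfl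
        intro m _
        apply Finset.sum_congr rfl
        intro a _
        rw [Finset.sum_comm]
    _ = _ := by
        apply Finset.sum_congr rfl
        intro m _
        rw [Finset.sum_comm]

/-- multiplicativity of the determinant -/
theorem det_EE {k : ℕ} (c : ℕ → ℕ → ℤ) (r₁ r₂ : ℕ) (ξ₁ ξ₂ : K) (u w : K[X])
    (f g : Fin k → ℤ[X]) (n : Matrix (Fin k) (Fin k) K)
    (hf : ∀ l, (f l).natDegree ≤ r₁) (hg : ∀ l, (g l).natDegree ≤ r₂)
    (hc : ∀ a ≤ r₁, ∀ b ≤ r₂, (c a b : K) =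
      ∑ l, ∑ m, (((f l).coeff a : ℤ) : K) * n l m * (((g m).coeff b : ℤ) : K)) :
    (Matrix.of fun i j : Fin k => EE c r₁ r₂ ξ₁ ξ₂ u w i j).det =
      ((Matrix.of fun i l : Fin k => hasseDeriv (i : ℕ) (f l)).det.map (Int.castRingHom K)).comp
        (C ξ₁ + u) * C n.det *
      ((Matrix.of fun i l : Fin k => hasseDeriv (i : ℕ) (g l)).det.map (Int.castRingHom K)).comp
        (C ξ₂ + w) := by
  let φ : K[X] → (ℤ[X] →+* K[X]) := fun y =>
    (Polynomial.compRingHom y).comp (Polynomial.mapRingHom (Int.castRingHom K))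
  have hφ : ∀ y P, φ y P = (P.map (Int.castRingHom K)).comp y := fun y P => rfl
  rw [← hφ, ← hφ, RingHom.map_det, RingHom.map_det, RingHom.map_det, ← Matrix.det_transpose
    ((φ (C ξ₂ + w)).mapMatrix _), ← Matrix.det_mul, ← Matrix.det_mul]
  congr 1
  ext1 i j
  rw [Matrix.mul_apply]
  simp only [Matrix.mul_apply, RingHom.mapMatrix_apply, Matrix.map_apply, Matrix.of_apply,
    Matrix.transpose_apply, hφ]
  simp only [comp_hasse _ r₁ _ (hf _), comp_hasse _ r₂ _ (hg _)]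
  unfold EE
  have h1 : ∀ a ∈ Finset.range (r₁ + 1), ∀ b ∈ Finset.range (r₂ + 1),
      C (c a b : K) = ∑ l, ∑ m, C (((f l).coeff a : ℤ) : K) * C (n l m) *
        C (((g m).coeff b : ℤ) : K) := by
    intro a ha b hb
    rw [Finset.mem_range] at ha hb
    rw [hc a (by omega) b (by omega)]
    simp only [map_sum, C_mul]
  have h2 : ∑ a ∈ Finset.range (r₁ + 1), ∑ b ∈ Finset.range (r₂ + 1),
    C (c a b : K) * (((a.choose (i : ℕ) : ℕ) : K[X]) * (C ξ₁ + u) ^ (a - (i : ℕ))) *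
      (((b.choose (j : ℕ) : ℕ) : K[X]) * (C ξ₂ + w) ^ (b - (j : ℕ))) =
      ∑ a ∈ Finset.range (r₁ + 1), ∑ b ∈ Finset.range (r₂ + 1), ∑ l, ∑ m,
      (C (((f l).coeff a : ℤ) : K) * (((a.choose (i : ℕ) : ℕ) : K[X]) * (C ξ₁ + u) ^ (a - (i : ℕ)))) *
      C (n l m) *
      (C (((g m).coeff b : ℤ) : K) * (((b.choose (j : ℕ) : ℕ) : K[X]) * (C ξ₂ + w) ^ (b - (j : ℕ)))) := by
    apply Finset.sum_congr rfl
    intro a ha
    apply Finset.sum_congr rfl
    intro b hb
    rw [h1 a ha b hb]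
    simp only [Finset.sum_mul]
    apply Finset.sum_congr rfl
    intro l _
    apply Finset.sum_congr rfl
    intro m _
    ring
  rw [h2]
  have h3 : ∀ (l m : Fin k),
      (∑ a ∈ Finset.range (r₁ + 1), C (((f l).coeff a : ℤ) : K) * (((a.choose (i : ℕ) : ℕ) : K[X]) *
        (C ξ₁ + u) ^ (a - (i : ℕ)))) * C (n l m) *
      (∑ b ∈ Finset.range (r₂ + 1), C (((g m).coeff b : ℤ) : K) * (((b.choose (j : ℕ) : ℕ) : K[X]) *
        (C ξ₂ + w) ^ (b - (j : ℕ)))) =
      ∑ a ∈ Finset.range (r₁ + 1), ∑ b ∈ Finset.range (r₂ + 1),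
      (C (((f l).coeff a : ℤ) : K) * (((a.choose (i : ℕ) : ℕ) : K[X]) * (C ξ₁ + u) ^ (a - (i : ℕ)))) *
      C (n l m) *
      (C (((g m).coeff b : ℤ) : K) * (((b.choose (j : ℕ) : ℕ) : K[X]) * (C ξ₂ + w) ^ (b - (j : ℕ)))) := by
    intro l m
    rw [Finset.sum_mul, Finset.sum_mul_sum]
  simp only [Finset.sum_mul (s := (Finset.univ : Finset (Fin k)))]
  simp only [h3]
  generalize (fun (a b : ℕ) (l m : Fin k) =>
      (C (((f l).coeff a : ℤ) : K) * (((a.choose (i : ℕ) : ℕ) : K[X]) * (C ξ₁ + u) ^ (a - (i : ℕ)))) *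
      C (n l m) *
      (C (((g m).coeff b : ℤ) : K) * (((b.choose (j : ℕ) : ℕ) : K[X]) * (C ξ₂ + w) ^ (b - (j : ℕ)))))
      = G
  exact sum4_comm _ _ _

end Taylor

end Pool.Agent.H106R2.Rt
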