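import Mathlib
import Pool.Agent.H106R2.RothD

/-!
# Roth's lemma in two variables: `roth2`
-/

set_option autoImplicit false

open Polynomial

namespace Pool.Agent.H106R2.Rt

theorem comp_order {K : Type} [Field K] [CharZero K] (W : ℤ[X]) (hW : W ≠ 0) (ξ : K) (p : ℕ)
    (hp : 0 < p) :
    ∃ (e : ℕ) (U : K[X]), (X - C ξ) ^ e ∣ W.map (Int.castRingHom K) ∧ U.eval 0 ≠ 0 ∧
      (W.map (Int.castRingHom K)).comp (C ξ + X ^ p) = X ^ (p * e) * U := by
  have h0 : W.map (Int.castRingHom K) ≠ 0 :=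
    (Polynomial.map_ne_zero_iff (RingHom.injective_int (Int.castRingHom K))).mpr hW
  obtain ⟨U, hU, hnd⟩ := exists_eq_pow_rootMultiplicity_mul_and_not_dvd _ h0 ξ
  refine ⟨rootMultiplicity ξ (W.map (Int.castRingHom K)), U.comp (C ξ + X ^ p), ?_, ?_, ?_⟩
  · exact Dvd.intro _ hU.symm
  · rw [eval_comp, eval_add, eval_C, eval_pow, eval_X, zero_pow hp.ne', add_zero]
    rwa [dvd_iff_isRoot] at hnd
  · conv_lhs => rw [hU]
    rw [mul_comp, pow_comp, sub_comp, X_comp, C_comp, pow_mul]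
    congr 2
    ring

theorem pow_le_of_dvd {K : Type} [Field K] (N M : ℕ) (U : K[X]) (hU : U.eval 0 ≠ 0)
    (h : (X : K[X]) ^ N ∣ X ^ M * U) : N ≤ M := by
  by_contra hlt
  push Not at hlt
  obtain ⟨d, hd⟩ : ∃ d, N = M + (d + 1) := ⟨N - M - 1, by omega⟩
  rw [hd, pow_add] at h
  have h1 := (mul_dvd_mul_iff_left (pow_ne_zero M X_ne_zero)).mp h
  obtain ⟨Q, hQ⟩ := h1
  apply hU
  rw [hQ, eval_mul, eval_pow, eval_X]
  simp

theorem det_dvd {K : Type} [Field K] {k : ℕ} (E : Matrix (Fin k) (Fin k) K[X]) (n : Fin k → ℕ)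
    (h : ∀ i j, (X : K[X]) ^ n j ∣ E i j) : (X : K[X]) ^ (∑ j, n j) ∣ E.det := by
  rw [Matrix.det_apply]
  apply Finset.dvd_sum
  intro σ _
  rw [Units.smul_def, zsmul_eq_mul]
  apply Dvd.dvd.mul_left
  rw [← Finset.prod_pow_eq_pow_sum]
  exact Finset.prod_dvd_prod_of_dvd _ _ fun j _ => h _ _

theorem map_hasseDeriv' (i : ℕ) (f : ℤ[X]) :
    (hasseDeriv i f).map (Int.castRingHom ℚ) = hasseDeriv i (f.map (Int.castRingHom ℚ)) := by
  ext n
  rw [coeff_map, hasseDeriv_coeff, hasseDeriv_coeff, coeff_map]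
  simp

/-- nonvanishing of the Wronskian -/
theorem wronskian_ne {k : ℕ} (f : Fin k → ℤ[X])
    (hf : LinearIndependent ℚ (fun l => (f l).map (Int.castRingHom ℚ))) :
    (Matrix.of fun i l : Fin k => hasseDeriv (i : ℕ) (f l)).det ≠ 0 := by
  intro h
  apply Pool.Agent.H393R2.RothNS.gw_poly _ hf
  have h1 := congrArg (Polynomial.mapRingHom (Int.castRingHom ℚ)) h
  rw [RingHom.map_det, map_zero] at h1
  rw [← h1]
  congr 1
  ext1 i j
  simp only [Matrix.of_apply, RingHom.mapMatrix_apply, Matrix.map_apply, coe_mapRingHom]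
  rw [map_hasseDeriv']

/-- polynomial with given coefficients -/
noncomputable def mkP (r : ℕ) (x : ℕ → ℤ) : ℤ[X] := ∑ a ∈ Finset.range (r + 1), C (x a) * X ^ a

theorem coeff_mkP (r : ℕ) (x : ℕ → ℤ) (n : ℕ) : (mkP r x).coeff n = if n ≤ r then x n else 0 := by
  unfold mkP
  rw [finsetSum_coeff]
  simp only [coeff_C_mul, coeff_X_pow, mul_ite, mul_one, mul_zero, Finset.sum_ite_eq,
    Finset.mem_range]
  by_cases h : n ≤ r
  · rw [if_pos (by omega), if_pos h]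
  · rw [if_neg (by omega), if_neg h]

theorem natDegree_mkP (r : ℕ) (x : ℕ → ℤ) : (mkP r x).natDegree ≤ r := by
  rw [natDegree_le_iff_coeff_eq_zero]
  intro n hn
  rw [coeff_mkP, if_neg (by omega)]

theorem linInd_mkP {k : ℕ} (r : ℕ) (x : Fin k → ℕ → ℤ)
    (h : LinearIndependent ℚ (fun l => fun i : Fin (r + 1) => ((x l i : ℤ) : ℚ))) :
    LinearIndependent ℚ (fun l => (mkP r (x l)).map (Int.castRingHom ℚ)) := by
  let T : ℚ[X] →ₗ[ℚ] (Fin (r + 1) → ℚ) := LinearMap.pi fun i => Polynomial.lcoeff ℚ (i : ℕ)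
  apply LinearIndependent.of_comp T
  convert h using 1
  funext l i
  simp only [Function.comp, T, LinearMap.pi_apply, lcoeff_apply, coeff_map, coeff_mkP]
  rw [if_pos (by omega)]
  simp

theorem sum_max_lower (k r : ℕ) (hk : 0 < k) (hr : 0 < r) (hkr : k ≤ r + 1) (ω : ℝ) (hω : 0 < ω)
    (hω1 : ω ≤ 1) :
    (k : ℝ) * ω ^ 2 * r < ∑ j ∈ Finset.range k, max 0 (3 * ω * r - j) := by
  have hk' : (0 : ℝ) < k := by exact_mod_cast hk
  have hr' : (1 : ℝ) ≤ r := by exact_mod_cast hr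
  have hkr' : (k : ℝ) ≤ r + 1 := by exact_mod_cast hkr
  set y : ℝ := 3 * ω * r with hy
  have hy0 : 0 < y := by positivity
  have key : ∀ n : ℕ, n ≤ k → (n : ℝ) * (y - (n - 1) / 2) ≤ ∑ j ∈ Finset.range k, max 0 (y - j) := by
    intro n hn
    have h1 : ∀ n : ℕ, ∑ j ∈ Finset.range n, (y - j) = (n : ℝ) * (y - (n - 1) / 2) := by
      intro n
      induction n with
      | zero => simp
      | succ n ih => rw [Finset.sum_range_succ, ih]; push_cast; ring
    rw [← h1]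
    calc ∑ j ∈ Finset.range n, (y - j) ≤ ∑ j ∈ Finset.range n, max 0 (y - j) :=
          Finset.sum_le_sum fun j _ => le_max_right _ _
      _ ≤ ∑ j ∈ Finset.range k, max 0 (y - j) :=
          Finset.sum_le_sum_of_subset_of_nonneg (Finset.range_mono hn)
            fun _ _ _ => le_max_left _ _
  by_cases h : (k : ℝ) - 1 ≤ y
  · have h1 := key k le_rfl
    refine lt_of_lt_of_le ?_ h1
    have h2 : (k : ℝ) * (y / 2) ≤ (k : ℝ) * (y - (k - 1) / 2) := by
      apply mul_le_mul_of_nonneg_left _ hk'.le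
      linarith
    refine lt_of_lt_of_le ?_ h2
    rw [mul_assoc]
    apply mul_lt_mul_of_pos_left _ hk'
    rw [hy]
    have : ω ^ 2 ≤ ω := by nlinarith
    nlinarith [mul_pos hω (by linarith : (0 : ℝ) < r)]
  · push Not at h
    set n := ⌊y⌋₊ + 1 with hn
    have h1 : (⌊y⌋₊ : ℝ) ≤ y := Nat.floor_le hy0.le
    have h2 : y < ⌊y⌋₊ + 1 := Nat.lt_floor_add_one y
    have h3 : n ≤ k := by
      have : (⌊y⌋₊ : ℝ) < k - 1 := lt_of_le_of_lt h1 h
      have h4 : ((⌊y⌋₊ + 1 : ℕ) : ℝ) < k := by push_cast; linarith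
      exact_mod_cast h4.le
    have h4 := key n h3
    refine lt_of_lt_of_le ?_ h4
    have hnr : (n : ℝ) = ⌊y⌋₊ + 1 := by rw [hn]; push_cast; ring
    have h5 : y * (y / 2) ≤ (n : ℝ) * (y - (n - 1) / 2) := by
      apply mul_le_mul
      · linarith
      · rw [hnr]; linarith
      · positivity
      · rw [hnr]; positivity
    refine lt_of_lt_of_le ?_ h5
    have h6 : (k : ℝ) * ω ^ 2 * r ≤ 2 * r * ω ^ 2 * r := by
      have : (k : ℝ) ≤ 2 * r := by linarith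
      gcongr
    refine lt_of_le_of_lt h6 ?_
    rw [hy]
    have : 0 < ω ^ 2 * (r : ℝ) ^ 2 := by positivity
    nlinarith

/-- ROTH: Roth's lemma in two variables, integer polynomial, point over a number field. -/
theorem roth2 (K : Type) [Field K] [NumberField K] :
    ∃ C : ℝ, 0 < C ∧ ∀ (ω : ℝ), 0 < ω → ω ≤ 1 → ∀ (r₁ r₂ : ℕ), 0 < r₂ → (r₂ : ℝ) ≤ ω ^ 2 * r₁ →
      ∀ (c : ℕ → ℕ → ℤ),
        (∃ a ∈ Finset.range (r₁ + 1), ∃ b ∈ Finset.range (r₂ + 1), c a b ≠ 0) →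
      ∀ (L : ℝ), 0 ≤ L → (∀ a b, |(c a b : ℝ)| ≤ Real.exp L) →
      ∀ (ξ₁ ξ₂ : K), C * (L + r₁) ≤ ω ^ 2 * (r₁ * Height.logHeight₁ ξ₁) →
        C * (L + r₁) ≤ ω ^ 2 * (r₂ * Height.logHeight₁ ξ₂) →
      ∃ i₁ i₂ : ℕ, (i₁ : ℝ) / r₁ + (i₂ : ℝ) / r₂ ≤ 4 * ω ∧
        ∑ a ∈ Finset.range (r₁ + 1), ∑ b ∈ Finset.range (r₂ + 1),
          (c a b : K) * ((a.choose i₁ : K) * ξ₁ ^ (a - i₁)) *
            ((b.choose i₂ : K) * ξ₂ ^ (b - i₂)) ≠ 0 := by
  have hd : (0 : ℝ) < Module.finrank ℚ K := by exact_mod_cast Module.finrank_pos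
  refine ⟨6 * Module.finrank ℚ K, by positivity, ?_⟩
  set d : ℝ := (Module.finrank ℚ K : ℝ) with hddef
  intro ω hω hω1 r₁ r₂ hr₂ hr c hc L hL hcL ξ₁ ξ₂ hh1 hh2
  by_contra hcon
  push Not at hcon
  have hr₂' : (1 : ℝ) ≤ r₂ := by exact_mod_cast hr₂
  have hω2 : ω ^ 2 ≤ ω := by nlinarith
  have hω21 : ω ^ 2 ≤ 1 := by nlinarith
  have hr₁pos : (0 : ℝ) < r₁ := by
    by_contra h
    push Not at h
    have : ω ^ 2 * (r₁ : ℝ) ≤ 0 := mul_nonpos_of_nonneg_of_nonpos (by positivity) h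
    linarith
  have hrr' : (r₂ : ℝ) ≤ r₁ := hr.trans (by nlinarith)
  have hrr : r₂ ≤ r₁ := by exact_mod_cast hrr'
  -- vanishing
  set t : ℕ := ⌊4 * ω * r₁ * r₂⌋₊ + 1 with ht
  have hV : ∀ i j, i * r₂ + j * r₁ < t → VV c r₁ r₂ ξ₁ ξ₂ i j = 0 := by
    intro i j hij
    apply hcon
    have h1 : i * r₂ + j * r₁ ≤ ⌊4 * ω * r₁ * r₂⌋₊ := by omega
    have h2 : ((i * r₂ + j * r₁ : ℕ) : ℝ) ≤ 4 * ω * r₁ * r₂ :=
      (Nat.cast_le.mpr h1).trans (Nat.floor_le (by positivity))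
    push_cast at h2
    rw [div_add_div _ _ hr₁pos.ne' (by linarith), div_le_iff₀ (by positivity)]
    nlinarith
  -- rank factorisation
  obtain ⟨k, α, β, n, hn, hkq, hαl, hβl, hfac⟩ := rank_factor
    (Matrix.of fun (i : Fin (r₁ + 1)) (j : Fin (r₂ + 1)) => ((c i j : ℤ) : ℚ))
  have hk : 0 < k := by
    rcases Nat.eq_zero_or_pos k with h | h
    · exfalso
      subst h
      obtain ⟨a, ha, b, hb, hab⟩ := hc
      rw [Finset.mem_range] at ha hb
      have := hfac ⟨a, ha⟩ ⟨b, hb⟩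
      simp at this
      exact hab this
    · exact h
  set f : Fin k → ℤ[X] := fun l => mkP r₁ (fun a => c a (α l)) with hf
  set g : Fin k → ℤ[X] := fun m => mkP r₂ (fun b => c (β m) b) with hg
  have hfl : LinearIndependent ℚ (fun l => (f l).map (Int.castRingHom ℚ)) := linInd_mkP _ _ hαl
  have hgl : LinearIndependent ℚ (fun l => (g l).map (Int.castRingHom ℚ)) := linInd_mkP _ _ hβl
  have hW1 := wronskian_ne f hfl
  have hW2 := wronskian_ne g hgl
  have hfd : ∀ l, (f l).natDegree ≤ r₁ := fun l => natDegree_mkP _ _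
  have hgd : ∀ l, (g l).natDegree ≤ r₂ := fun l => natDegree_mkP _ _
  have hfB : ∀ l n, |((f l).coeff n : ℝ)| ≤ Real.exp L := by
    intro l n
    rw [hf, coeff_mkP]
    split_ifs
    · exact hcL _ _
    · simp; positivity
  have hgB : ∀ l n, |((g l).coeff n : ℝ)| ≤ Real.exp L := by
    intro l n
    rw [hg, coeff_mkP]
    split_ifs
    · exact hcL _ _
    · simp; positivity
  have hL1 := log_l1_wronskian hk (by omega) le_rfl f L hL hfd hfB hW1
  have hL2 := log_l1_wronskian (r₁ := r₁) hk (by omega) hrr g L hL hgd hgB hW2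
  have hdet := det_EE c r₁ r₂ ξ₁ ξ₂ (X ^ r₂) (X ^ r₁) f g
    (n.map (algebraMap ℚ K)) hfd hgd (by
      intro a ha b hb
      have h1 := hfac ⟨a, by omega⟩ ⟨b, by omega⟩
      have h2 := congrArg (algebraMap ℚ K) h1
      simp only [Matrix.of_apply, map_sum, map_mul, map_intCast] at h2
      rw [h2]
      apply Finset.sum_congr rfl
      intro l _
      apply Finset.sum_congr rfl
      intro m _
      simp only [hf, hg, coeff_mkP, Matrix.map_apply]
      rw [if_pos ha, if_pos hb])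
  set W1 := (Matrix.of fun i l : Fin k => hasseDeriv (i : ℕ) (f l)).det with hW1def
  set W2 := (Matrix.of fun i l : Fin k => hasseDeriv (i : ℕ) (g l)).det with hW2def
  obtain ⟨e1, U1, hd1, hU1, he1⟩ := comp_order W1 hW1 ξ₁ r₂ hr₂
  obtain ⟨e2, U2, hd2, hU2, he2⟩ := comp_order W2 hW2 ξ₂ r₁ (by exact_mod_cast hr₁pos)
  rw [he1, he2] at hdet
  have hb1 := order_bound K ξ₁ e1 W1 hW1 hd1
  have hb2 := order_bound K ξ₂ e2 W2 hW2 hd2
  -- divisibility
  have hdvd := det_dvd (Matrix.of fun i j : Fin k => EE c r₁ r₂ ξ₁ ξ₂ (X ^ r₂) (X ^ r₁) i j)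
    (fun j => t - (k - 1) * r₂ - (j : ℕ) * r₁) (by
      intro i j
      rw [Matrix.of_apply]
      refine dvd_trans (pow_dvd_pow _ ?_) (EE_dvd c r₁ r₂ ξ₁ ξ₂ t hV i j)
      have : (i : ℕ) * r₂ ≤ (k - 1) * r₂ := Nat.mul_le_mul_right _ (by omega)
      omega)
  rw [hdet] at hdvd
  have hN : ∑ j : Fin k, (t - (k - 1) * r₂ - (j : ℕ) * r₁) ≤ r₂ * e1 + r₁ * e2 := by
    apply pow_le_of_dvd _ _ (U1 * C (n.map (algebraMap ℚ K)).det * U2)
    · simp only [eval_mul, eval_C]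
      refine mul_ne_zero (mul_ne_zero hU1 ?_) hU2
      have : (n.map (algebraMap ℚ K)).det = algebraMap ℚ K n.det := by
        rw [RingHom.map_det]; rfl
      rw [this]
      simpa using hn
    · convert hdvd using 1
      rw [pow_add]
      ring
  -- numerics
  have hLr : 0 < L + r₁ := by positivity
  have hE1 : (e1 : ℝ) ≤ k * ω ^ 2 * r₁ / 2 := by
    have h1 : (0 : ℝ) < Height.logHeight₁ ξ₁ := by
      by_contra h
      push Not at h
      have h2 : ω ^ 2 * (r₁ * Height.logHeight₁ ξ₁) ≤ 0 := by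
        apply mul_nonpos_of_nonneg_of_nonpos (by positivity)
        exact mul_nonpos_of_nonneg_of_nonpos (by positivity) h
      have h3 : 0 < 6 * d * (L + r₁) := by positivity
      linarith
    have h2 : e1 * Height.logHeight₁ ξ₁ ≤ (k * ω ^ 2 * r₁ / 2) * Height.logHeight₁ ξ₁ := by
      calc e1 * Height.logHeight₁ ξ₁ ≤ d * Real.log (l1 W1) := hb1
        _ ≤ d * (3 * k * (L + r₁)) := mul_le_mul_of_nonneg_left hL1 hd.le
        _ = k / 2 * (6 * d * (L + r₁)) := by ring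
        _ ≤ k / 2 * (ω ^ 2 * (r₁ * Height.logHeight₁ ξ₁)) :=
          mul_le_mul_of_nonneg_left hh1 (by positivity)
        _ = _ := by ring
    exact le_of_mul_le_mul_right h2 h1
  have hE2 : (e2 : ℝ) ≤ k * ω ^ 2 * r₂ / 2 := by
    have h1 : (0 : ℝ) < Height.logHeight₁ ξ₂ := by
      by_contra h
      push Not at h
      have h2 : ω ^ 2 * (r₂ * Height.logHeight₁ ξ₂) ≤ 0 := by
        apply mul_nonpos_of_nonneg_of_nonpos (by positivity)
        exact mul_nonpos_of_nonneg_of_nonpos (by positivity) h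
      have h3 : 0 < 6 * d * (L + r₁) := by positivity
      linarith
    have h2 : e2 * Height.logHeight₁ ξ₂ ≤ (k * ω ^ 2 * r₂ / 2) * Height.logHeight₁ ξ₂ := by
      calc e2 * Height.logHeight₁ ξ₂ ≤ d * Real.log (l1 W2) := hb2
        _ ≤ d * (3 * k * (L + r₁)) := mul_le_mul_of_nonneg_left hL2 hd.le
        _ = k / 2 * (6 * d * (L + r₁)) := by ring
        _ ≤ k / 2 * (ω ^ 2 * (r₂ * Height.logHeight₁ ξ₂)) :=
          mul_le_mul_of_nonneg_left hh2 (by positivity)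
        _ = _ := by ring
    exact le_of_mul_le_mul_right h2 h1
  have hupper : ((∑ j : Fin k, (t - (k - 1) * r₂ - (j : ℕ) * r₁) : ℕ) : ℝ) ≤
      k * ω ^ 2 * r₂ * r₁ := by
    calc ((∑ j : Fin k, (t - (k - 1) * r₂ - (j : ℕ) * r₁) : ℕ) : ℝ) ≤
          ((r₂ * e1 + r₁ * e2 : ℕ) : ℝ) := by exact_mod_cast hN
      _ = r₂ * e1 + r₁ * e2 := by push_cast; ring
      _ ≤ r₂ * (k * ω ^ 2 * r₁ / 2) + r₁ * (k * ω ^ 2 * r₂ / 2) := by gcongr
      _ = _ := by ring
  have hlower : (r₁ : ℝ) * ∑ j ∈ Finset.range k, max 0 (3 * ω * r₂ - j) ≤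
      ((∑ j : Fin k, (t - (k - 1) * r₂ - (j : ℕ) * r₁) : ℕ) : ℝ) := by
    rw [Finset.sum_range, Finset.mul_sum]
    push_cast
    apply Finset.sum_le_sum
    intro j _
    rw [mul_max_of_nonneg _ _ hr₁pos.le, mul_zero]
    apply max_le (by positivity)
    have h1 : (t : ℝ) ≤ ((t - (k - 1) * r₂ - (j : ℕ) * r₁ : ℕ) : ℝ) + (k - 1) * r₂ + j * r₁ := by
      have h2 : t ≤ (t - (k - 1) * r₂ - (j : ℕ) * r₁) + (k - 1) * r₂ + j * r₁ := by omega
      have h3 : (t : ℝ) ≤ (((t - (k - 1) * r₂ - (j : ℕ) * r₁) + (k - 1) * r₂ + j * r₁ : ℕ) : ℝ) :=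
        Nat.cast_le.mpr h2
      push_cast [Nat.cast_sub (show 1 ≤ k by omega)] at h3 ⊢
      exact h3
    have h2 : 4 * ω * r₁ * r₂ < t := by
      rw [ht]
      push_cast
      exact Nat.lt_floor_add_one _
    have h3 : ((k : ℝ) - 1) * r₂ ≤ ω * r₁ * r₂ := by
      have h4 : (k : ℝ) - 1 ≤ r₂ := by
        have : (k : ℝ) ≤ r₂ + 1 := by exact_mod_cast hkq
        linarith
      have h5 : (k : ℝ) - 1 ≤ ω * r₁ := by nlinarith
      exact mul_le_mul_of_nonneg_right h5 (by positivity)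
    nlinarith
  have hfinal := sum_max_lower k r₂ hk hr₂ hkq ω hω hω1
  have h9 : (r₁ : ℝ) * (k * ω ^ 2 * r₂) < r₁ * ∑ j ∈ Finset.range k, max 0 (3 * ω * r₂ - j) :=
    mul_lt_mul_of_pos_left hfinal hr₁pos
  nlinarith

end Pool.Agent.H106R2.Rt
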