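import Pool.Agent.H437R2.Man.V1

/-! The lower bound for the local functions through the two quotient elliptic curves:
identities and the local inequality, for `y² = c₃ x⁶ + c₂ x⁴ + c₁ x² + c₀`. -/

set_option autoImplicit false
set_option maxRecDepth 20000

open Height Height.AdmissibleAbsValues

namespace Pool.Agent.H106R2
namespace Phi

section ident

variable {K : Type} [Field K]

/-- the sextic -/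
def F (c₀ c₁ c₂ c₃ a : K) : K := c₃*a^6+c₂*a^4+c₁*a^2+c₀
/-- numerator of the `x`-coordinate of `φ₁ P - φ₁ Q` -/
def n1 (c₀ c₁ c₂ c₃ a₁ b₁ a₂ b₂ : K) : K :=
  2*c₀ + c₁*(a₁^2+a₂^2) + 2*c₂*(a₁*a₂)^2 + c₃*((a₁*a₂)^2*(a₁^2+a₂^2)) + 2*(b₁*b₂)
/-- numerator of the `x`-coordinate of `φ₂ P - φ₂ Q` -/
def n2 (c₀ c₁ c₂ c₃ a₁ b₁ a₂ b₂ : K) : K :=
  c₀*(a₁^2+a₂^2) + 2*c₁*(a₁*a₂)^2 + c₂*((a₁*a₂)^2*(a₁^2+a₂^2)) + 2*c₃*(a₁*a₂)^4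
    + 2*(a₁*a₂)*(b₁*b₂)
/-- auxiliary polynomial -/
def bb (c₀ c₁ c₂ c₃ a₁ a₂ : K) : K :=
  c₀+a₁*a₂*(c₁+c₂*(a₁^2-a₁*a₂+a₂^2)+c₃*(a₁^2-a₁*a₂+a₂^2)^2)
/-- auxiliary polynomial -/
def hh (c₁ c₂ c₃ a₁ a₂ : K) : K := c₃*(a₁^4+a₁^2*a₂^2+a₂^4)+c₂*(a₁^2+a₂^2)+c₁
/-- auxiliary polynomial -/
def kk (c₀ c₁ c₂ c₃ a₁ a₂ : K) : K :=
  c₀-a₁*a₂*(c₁+c₂*(a₁^2+a₁*a₂+a₂^2)+c₃*(a₁^2+a₁*a₂+a₂^2)^2)
/-- auxiliary polynomial -/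
def ll (c₁ c₂ c₃ a₁ a₂ : K) : K := c₃*(a₁^4-a₁^2*a₂^2+a₂^4)+c₂*(a₁^2+a₂^2)+c₁
/-- auxiliary polynomial -/
def qq (c₀ c₁ c₂ c₃ a₁ b₁ a₂ b₂ : K) : K :=
  (b₁+b₂)^2*bb c₀ c₁ c₂ c₃ a₁ a₂ - a₁*a₂*(a₁-a₂)^2*hh c₁ c₂ c₃ a₁ a₂^2

variable {c₀ c₁ c₂ c₃ a₁ b₁ a₂ b₂ : K}

lemma n1_eq (h₁ : b₁^2=F c₀ c₁ c₂ c₃ a₁) (h₂ : b₂^2=F c₀ c₁ c₂ c₃ a₂) :
    n1 c₀ c₁ c₂ c₃ a₁ b₁ a₂ b₂
      = (b₁+b₂)^2 - (a₁-a₂)^2*(a₁+a₂)^2*(c₂+c₃*(a₁^2+a₂^2)) := by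
  unfold n1 F at *
  linear_combination -h₁ - h₂

lemma n2_eq (h₁ : b₁^2=F c₀ c₁ c₂ c₃ a₁) (h₂ : b₂^2=F c₀ c₁ c₂ c₃ a₂) :
    n2 c₀ c₁ c₂ c₃ a₁ b₁ a₂ b₂
      = a₁*a₂*(b₁+b₂)^2 + (a₁-a₂)^2 * kk c₀ c₁ c₂ c₃ a₁ a₂ := by
  unfold n2 kk F at *
  linear_combination -a₁*a₂*h₁ - a₁*a₂*h₂

lemma pn2_eq (h₁ : b₁^2=F c₀ c₁ c₂ c₃ a₁) (h₂ : b₂^2=F c₀ c₁ c₂ c₃ a₂) :
    (b₁+b₂)^2 * n2 c₀ c₁ c₂ c₃ a₁ b₁ a₂ b₂ = (a₁+a₂)^2 * qq c₀ c₁ c₂ c₃ a₁ b₁ a₂ b₂ := by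
  rw [n2_eq h₁ h₂]
  have e : (b₁+b₂)^2 = F c₀ c₁ c₂ c₃ a₁ + F c₀ c₁ c₂ c₃ a₂ + 2*(b₁*b₂) := by
    linear_combination h₁ + h₂
  have f : (b₁*b₂)^2 = F c₀ c₁ c₂ c₃ a₁ * F c₀ c₁ c₂ c₃ a₂ := by rw [mul_pow, h₁, h₂]
  unfold qq bb hh kk
  rw [e]
  generalize b₁*b₂ = w at *
  unfold F at *
  linear_combination 4*(a₁*a₂)*f

lemma q4_eq (h₁ : b₁^2=F c₀ c₁ c₂ c₃ a₁) (h₂ : b₂^2=F c₀ c₁ c₂ c₃ a₂) :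
    4*c₀*qq c₀ c₁ c₂ c₃ a₁ b₁ a₂ b₂ =
      n2 c₀ c₁ c₂ c₃ a₁ b₁ a₂ b₂*(a₁-a₂)^2*hh c₁ c₂ c₃ a₁ a₂^2
      + (b₁+b₂)^2*qq c₀ c₁ c₂ c₃ a₁ b₁ a₂ b₂
      - ll c₁ c₂ c₃ a₁ a₂*((b₁+b₂)^2*n2 c₀ c₁ c₂ c₃ a₁ b₁ a₂ b₂
        +(a₁-a₂)^2*qq c₀ c₁ c₂ c₃ a₁ b₁ a₂ b₂)
      + c₂*(a₁*a₂)*((b₁+b₂)^2*n2 c₀ c₁ c₂ c₃ a₁ b₁ a₂ b₂
        -(a₁-a₂)^2*qq c₀ c₁ c₂ c₃ a₁ b₁ a₂ b₂) := by
  rw [n2_eq h₁ h₂]
  have e : (b₁+b₂)^2 = F c₀ c₁ c₂ c₃ a₁ + F c₀ c₁ c₂ c₃ a₂ + 2*(b₁*b₂) := by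
    linear_combination h₁ + h₂
  have f : (b₁*b₂)^2 = F c₀ c₁ c₂ c₃ a₁ * F c₀ c₁ c₂ c₃ a₂ := by rw [mul_pow, h₁, h₂]
  unfold qq bb hh kk ll
  rw [e]
  generalize b₁*b₂ = w at *
  unfold F at *
  linear_combination (-(4*(c₀+a₁*a₂*(c₁+c₂*(a₁^2-a₁*a₂+a₂^2)+c₃*(a₁^2-a₁*a₂+a₂^2)^2)))
    + 4*(a₁*a₂)*(c₃*(a₁^4-a₁^2*a₂^2+a₂^4)+c₂*(a₁^2+a₂^2)+c₁) - 4*c₂*(a₁*a₂)^2)*f

lemma n12_eq (h₁ : b₁^2=F c₀ c₁ c₂ c₃ a₁) (h₂ : b₂^2=F c₀ c₁ c₂ c₃ a₂) :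
    n1 c₀ c₁ c₂ c₃ a₁ b₁ a₂ b₂ * n2 c₀ c₁ c₂ c₃ a₁ b₁ a₂ b₂ =
      (a₁+a₂)^2*(qq c₀ c₁ c₂ c₃ a₁ b₁ a₂ b₂
        - (a₁-a₂)^2*(c₂+c₃*(a₁^2+a₂^2))*n2 c₀ c₁ c₂ c₃ a₁ b₁ a₂ b₂) := by
  have := pn2_eq h₁ h₂
  rw [n1_eq h₁ h₂]
  linear_combination this

end ident

section loc

variable {K : Type} [Field K] {v : AbsoluteValue K ℝ} {k : ℝ}

/-- `v x ≤ k^n m^e` -/
def Bd (v : AbsoluteValue K ℝ) (k m : ℝ) (n e : ℕ) (x : K) : Prop := v x ≤ k ^ n * m ^ e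

lemma Bd.mul {m : ℝ} (hk : 1 ≤ k) (hm : 0 ≤ m) {n n' e e' : ℕ} {x y : K} (hx : Bd v k m n e x)
    (hy : Bd v k m n' e' y) : Bd v k m (n + n') (e + e') (x * y) := by
  have hk0 : 0 ≤ k := by linarith
  unfold Bd at *
  rw [map_mul]
  calc v x * v y ≤ (k ^ n * m ^ e) * (k ^ n' * m ^ e') :=
        mul_le_mul hx hy (v.nonneg _) (by positivity)
    _ = _ := by ring

lemma Bd.pow {m : ℝ} (_hm : 0 ≤ m) {n e : ℕ} {x : K} (hx : Bd v k m n e x)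
    (j : ℕ) : Bd v k m (n * j) (e * j) (x ^ j) := by
  unfold Bd at *
  rw [map_pow]
  calc v x ^ j ≤ (k ^ n * m ^ e) ^ j := pow_le_pow_left₀ (v.nonneg _) hx _
    _ = _ := by rw [mul_pow, ← pow_mul, ← pow_mul]

lemma Bd.mono {m : ℝ} (hk : 1 ≤ k) (hm : 0 ≤ m) {n n' e : ℕ} {x : K} (hx : Bd v k m n e x)
    (h : n ≤ n') : Bd v k m n' e x := by
  unfold Bd at *
  refine hx.trans ?_
  gcongr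

/-- raise the exponent of `m` when `1 ≤ m` -/
lemma Bd.monoe {m : ℝ} (hk : 1 ≤ k) (hm : 1 ≤ m) {n n' e e' : ℕ} {x : K} (hx : Bd v k m n e x)
    (h : n ≤ n') (h' : e ≤ e') : Bd v k m n' e' x := by
  unfold Bd at *
  refine hx.trans ?_
  gcongr

lemma Bd.add {m : ℝ} (hk : 1 ≤ k) (hm : 0 ≤ m)
    (hadd : ∀ x y, v (x + y) ≤ k * max (v x) (v y)) {n n' e : ℕ} {x y : K} (hx : Bd v k m n e x)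
    (hy : Bd v k m n' e y) : Bd v k m (max n n' + 1) e (x + y) := by
  have hx' := hx.mono hk hm (le_max_left n n')
  have hy' := hy.mono hk hm (le_max_right n n')
  have hk0 : 0 ≤ k := by linarith
  unfold Bd at *
  refine (hadd x y).trans ?_
  calc k * max (v x) (v y) ≤ k * (k ^ (max n n') * m ^ e) :=
        mul_le_mul_of_nonneg_left (max_le hx' hy') hk0
    _ = _ := by ring

lemma Bd.neg {m : ℝ} {n e : ℕ} {x : K} (hx : Bd v k m n e x) : Bd v k m n e (-x) := by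
  unfold Bd at *
  rwa [v.map_neg]

lemma Bd.sub {m : ℝ} (hk : 1 ≤ k) (hm : 0 ≤ m)
    (hadd : ∀ x y, v (x + y) ≤ k * max (v x) (v y)) {n n' e : ℕ} {x y : K} (hx : Bd v k m n e x)
    (hy : Bd v k m n' e y) : Bd v k m (max n n' + 1) e (x - y) := by
  rw [sub_eq_add_neg]
  exact hx.add hk hm hadd hy.neg

lemma two_le (hadd : ∀ x y, v (x + y) ≤ k * max (v x) (v y)) : v 2 ≤ k := by
  have := hadd 1 1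
  rw [one_add_one_eq_two] at this
  simpa using this

lemma four_le (hk : 1 ≤ k) (hadd : ∀ x y, v (x + y) ≤ k * max (v x) (v y)) : v 4 ≤ k ^ 2 := by
  have h := two_le hadd
  have e : (4 : K) = 2 * 2 := by norm_num
  rw [e, map_mul, pow_two]
  exact mul_le_mul h h (v.nonneg _) (by linarith)

variable {c₀ c₁ c₂ c₃ : K}

/-- the bounded region -/
lemma reg1 (hk : 1 ≤ k) (hadd : ∀ x y, v (x + y) ≤ k * max (v x) (v y))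
    (hc₀ : v c₀ ≤ k) (hc₁ : v c₁ ≤ k) (hc₂ : v c₂ ≤ k) (hc₃ : v c₃ ≤ k) {m : ℝ} (hm : 0 ≤ m)
    {a₁ b₁ a₂ b₂ : K} (h₁ : b₁^2=F c₀ c₁ c₂ c₃ a₁) (h₂ : b₂^2=F c₀ c₁ c₂ c₃ a₂)
    (ha₁ : v a₁ ≤ k) (ha₂ : v a₂ ≤ k)
    (hd : v (a₁ - a₂) ≤ m) (hp : v (b₁ + b₂) ≤ m) :
    v (4 * c₀) * (max (v ((a₁+a₂)*(a₁-a₂)) ^ 2) (v (n1 c₀ c₁ c₂ c₃ a₁ b₁ a₂ b₂)) *
      max (v ((a₁+a₂)*(a₁-a₂)) ^ 2) (v (n2 c₀ c₁ c₂ c₃ a₁ b₁ a₂ b₂)))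
      ≤ k ^ 60 * m ^ 4 * v (a₁+a₂) ^ 2 := by
  have hk0 : 0 ≤ k := by linarith
  have C0 : Bd v k m 1 0 c₀ := by simpa [Bd] using hc₀
  have C1 : Bd v k m 1 0 c₁ := by simpa [Bd] using hc₁
  have C2 : Bd v k m 1 0 c₂ := by simpa [Bd] using hc₂
  have C3 : Bd v k m 1 0 c₃ := by simpa [Bd] using hc₃
  have A1 : Bd v k m 1 0 a₁ := by simpa [Bd] using ha₁
  have A2 : Bd v k m 1 0 a₂ := by simpa [Bd] using ha₂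
  have D : Bd v k m 0 1 (a₁ - a₂) := by simpa [Bd] using hd
  have P0 : Bd v k m 0 1 (b₁ + b₂) := by simpa [Bd] using hp
  have D2 : Bd v k m 0 2 ((a₁ - a₂)^2) := D.pow hm 2
  have P : Bd v k m 0 2 ((b₁ + b₂)^2) := P0.pow hm 2
  have O : Bd v k m 0 0 (1 : K) := by simp [Bd]
  have S : Bd v k m 2 0 (a₁ + a₂) := A1.add hk hm hadd A2
  have S2 : Bd v k m 4 0 ((a₁ + a₂)^2) := S.pow hm 2
  have A12 : Bd v k m 2 0 (a₁ ^ 2) := A1.pow hm 2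
  have A22 : Bd v k m 2 0 (a₂ ^ 2) := A2.pow hm 2
  have A14 : Bd v k m 4 0 (a₁ ^ 4) := A1.pow hm 4
  have A24 : Bd v k m 4 0 (a₂ ^ 4) := A2.pow hm 4
  have T : Bd v k m 3 0 (a₁^2 + a₂^2) := A12.add hk hm hadd A22
  have PP : Bd v k m 2 0 (a₁ * a₂) := A1.mul hk hm A2
  have S' : Bd v k m 4 0 (a₁^2 + a₁*a₂ + a₂^2) := (A12.add hk hm hadd PP).add hk hm hadd A22
  have S'' : Bd v k m 4 0 (a₁^2 - a₁*a₂ + a₂^2) := (A12.sub hk hm hadd PP).add hk hm hadd A22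
  have S'2 : Bd v k m 8 0 ((a₁^2 + a₁*a₂ + a₂^2)^2) := S'.pow hm 2
  have S''2 : Bd v k m 8 0 ((a₁^2 - a₁*a₂ + a₂^2)^2) := S''.pow hm 2
  have CT : Bd v k m 5 0 (c₂+c₃*(a₁^2+a₂^2)) := C2.add hk hm hadd (C3.mul hk hm T)
  have KK : Bd v k m 13 0 (kk c₀ c₁ c₂ c₃ a₁ a₂) :=
    C0.sub hk hm hadd (PP.mul hk hm ((C1.add hk hm hadd (C2.mul hk hm S')).add hk hm hadd
      (C3.mul hk hm S'2)))
  have BB : Bd v k m 13 0 (bb c₀ c₁ c₂ c₃ a₁ a₂) :=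
    C0.add hk hm hadd (PP.mul hk hm ((C1.add hk hm hadd (C2.mul hk hm S'')).add hk hm hadd
      (C3.mul hk hm S''2)))
  have HH : Bd v k m 9 0 (hh c₁ c₂ c₃ a₁ a₂) :=
    ((C3.mul hk hm ((A14.add hk hm hadd (A12.mul hk hm A22)).add hk hm hadd A24)).add hk hm hadd
      (C2.mul hk hm T)).add hk hm hadd C1
  have HH2 : Bd v k m 18 0 (hh c₁ c₂ c₃ a₁ a₂ ^ 2) := HH.pow hm 2
  have LL : Bd v k m 9 0 (ll c₁ c₂ c₃ a₁ a₂) :=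
    ((C3.mul hk hm ((A14.sub hk hm hadd (A12.mul hk hm A22)).add hk hm hadd A24)).add hk hm hadd
      (C2.mul hk hm T)).add hk hm hadd C1
  have N1 : Bd v k m 10 2 (n1 c₀ c₁ c₂ c₃ a₁ b₁ a₂ b₂) := by
    rw [n1_eq h₁ h₂]
    exact P.sub hk hm hadd ((D2.mul hk hm S2).mul hk hm CT)
  have N2 : Bd v k m 14 2 (n2 c₀ c₁ c₂ c₃ a₁ b₁ a₂ b₂) := by
    rw [n2_eq h₁ h₂]
    exact (PP.mul hk hm P).add hk hm hadd (D2.mul hk hm KK)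
  have QQ : Bd v k m 21 2 (qq c₀ c₁ c₂ c₃ a₁ b₁ a₂ b₂) :=
    (P.mul hk hm BB).sub hk hm hadd ((PP.mul hk hm D2).mul hk hm HH2)
  have Q4 : Bd v k m 35 4 (4 * c₀ * qq c₀ c₁ c₂ c₃ a₁ b₁ a₂ b₂) := by
    rw [q4_eq h₁ h₂]
    exact ((((N2.mul hk hm D2).mul hk hm HH2).add hk hm hadd (P.mul hk hm QQ)).sub hk hm hadd
      (LL.mul hk hm ((P.mul hk hm N2).add hk hm hadd (D2.mul hk hm QQ)))).add hk hm hadd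
      ((C2.mul hk hm PP).mul hk hm ((P.mul hk hm N2).sub hk hm hadd (D2.mul hk hm QQ)))
  have F4 : Bd v k m 3 0 (4 * c₀ : K) := by
    have : Bd v k m 2 0 (4 : K) := by simpa [Bd] using four_le hk hadd
    exact this.mul hk hm C0
  have R : Bd v k m 60 4 (4 * c₀ * (qq c₀ c₁ c₂ c₃ a₁ b₁ a₂ b₂
      - (a₁-a₂)^2*(c₂+c₃*(a₁^2+a₂^2))*n2 c₀ c₁ c₂ c₃ a₁ b₁ a₂ b₂)) := by
    rw [mul_sub]
    exact (Q4.sub hk hm hadd (F4.mul hk hm ((D2.mul hk hm CT).mul hk hm N2))).mono hk hm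
      (by norm_num)
  have hs0 : 0 ≤ v (a₁+a₂) ^ 2 := by positivity
  have hF : v (4 * c₀ : K) ≤ k ^ 3 := by simpa [Bd] using F4
  have hD2 : v ((a₁ - a₂)^2) ≤ m ^ 2 := by simpa [Bd] using D2
  have hS2 : v ((a₁ + a₂)^2) ≤ k ^ 4 := by simpa [Bd] using S2
  have hN1 : v (n1 c₀ c₁ c₂ c₃ a₁ b₁ a₂ b₂) ≤ k ^ 10 * m ^ 2 := N1
  have hN2 : v (n2 c₀ c₁ c₂ c₃ a₁ b₁ a₂ b₂) ≤ k ^ 14 * m ^ 2 := N2
  have hSD : v ((a₁+a₂)*(a₁-a₂)) ^ 2 = v (a₁+a₂) ^ 2 * v ((a₁ - a₂)^2) := by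
    rw [map_mul, mul_pow, map_pow]
  -- mixed products
  have c1 : ∀ (y : ℝ) (i : ℕ), 0 ≤ y → i ≤ 57 → y ≤ k ^ i * m ^ 2 →
      v (4 * c₀) * (v ((a₁+a₂)*(a₁-a₂)) ^ 2 * y) ≤ k ^ 60 * m ^ 4 * v (a₁+a₂) ^ 2 := by
    intro y i hy0 hi hy
    have hy' : y ≤ k ^ 57 * m ^ 2 := hy.trans (by gcongr)
    rw [hSD]
    calc v (4 * c₀) * (v (a₁+a₂) ^ 2 * v ((a₁ - a₂)^2) * y)
        ≤ k ^ 3 * (v (a₁+a₂) ^ 2 * m ^ 2 * (k ^ 57 * m ^ 2)) := by gcongr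
      _ = _ := by ring
  have c2 : v ((a₁+a₂)*(a₁-a₂)) ^ 2 ≤ k ^ 4 * m ^ 2 := by
    rw [hSD, ← map_pow]
    exact mul_le_mul hS2 hD2 (v.nonneg _) (by positivity)
  rcases le_total (v ((a₁+a₂)*(a₁-a₂)) ^ 2) (v (n1 c₀ c₁ c₂ c₃ a₁ b₁ a₂ b₂)) with e1 | e1
  · rcases le_total (v ((a₁+a₂)*(a₁-a₂)) ^ 2) (v (n2 c₀ c₁ c₂ c₃ a₁ b₁ a₂ b₂)) with e2 | e2
    · rw [max_eq_right e1, max_eq_right e2, ← map_mul, ← map_mul, n12_eq h₁ h₂]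
      have e : (4 * c₀ : K) * ((a₁+a₂)^2*(qq c₀ c₁ c₂ c₃ a₁ b₁ a₂ b₂
          - (a₁-a₂)^2*(c₂+c₃*(a₁^2+a₂^2))*n2 c₀ c₁ c₂ c₃ a₁ b₁ a₂ b₂))
          = (4 * c₀ * (qq c₀ c₁ c₂ c₃ a₁ b₁ a₂ b₂
            - (a₁-a₂)^2*(c₂+c₃*(a₁^2+a₂^2))*n2 c₀ c₁ c₂ c₃ a₁ b₁ a₂ b₂)) * (a₁+a₂)^2 := by ring
      rw [e, map_mul, map_pow]
      exact mul_le_mul_of_nonneg_right R hs0
    · rw [max_eq_right e1, max_eq_left e2, mul_comm (v (n1 c₀ c₁ c₂ c₃ a₁ b₁ a₂ b₂))]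
      exact c1 _ 10 (v.nonneg _) (by norm_num) hN1
  · rw [max_eq_left e1]
    refine c1 _ 14 (by positivity) (by norm_num) (max_le ?_ hN2)
    exact c2.trans (by gcongr; norm_num)

/-- the local maximum `M_v` -/
noncomputable def MM (v : AbsoluteValue K ℝ) (a₁ b₁ a₂ b₂ : K) : ℝ :=
  max (v (a₁ - a₂) * max (v a₁) 1 ^ 2 * max (v a₂) 1 ^ 2)
    (max (v (b₁ + b₂)) (v (b₁ * a₂ ^ 3 + b₂ * a₁ ^ 3)))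

/-- the local inequality in the bounded region -/
lemma loc1 (hk : 1 ≤ k) (hadd : ∀ x y, v (x + y) ≤ k * max (v x) (v y))
    (hc₀ : v c₀ ≤ k) (hc₁ : v c₁ ≤ k) (hc₂ : v c₂ ≤ k) (hc₃ : v c₃ ≤ k)
    {a₁ b₁ a₂ b₂ : K} (h₁ : b₁^2=F c₀ c₁ c₂ c₃ a₁) (h₂ : b₂^2=F c₀ c₁ c₂ c₃ a₂)
    (ha₁ : v a₁ ≤ k) (ha₂ : v a₂ ≤ k) :
    v (4 * c₀ * c₃) * (max (v ((a₁+a₂)*(a₁-a₂)) ^ 2) (v (n1 c₀ c₁ c₂ c₃ a₁ b₁ a₂ b₂)) *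
      max (v ((a₁+a₂)*(a₁-a₂)) ^ 2) (v (n2 c₀ c₁ c₂ c₃ a₁ b₁ a₂ b₂))) *
      (max (v a₁) 1 ^ 6 * max (v a₂) 1 ^ 6) ≤ k ^ 99 * MM v a₁ b₁ a₂ b₂ ^ 4 * v (a₁+a₂) ^ 2 := by
  have hk0 : 0 ≤ k := by linarith
  have m1 : max (v a₁) 1 ≤ k := max_le ha₁ hk
  have m2 : max (v a₂) 1 ≤ k := max_le ha₂ hk
  have o1 : 1 ≤ max (v a₁) 1 := le_max_right _ _
  have o2 : 1 ≤ max (v a₂) 1 := le_max_right _ _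
  have hd : v (a₁ - a₂) ≤ MM v a₁ b₁ a₂ b₂ := by
    refine le_trans ?_ (le_max_left _ _)
    have := one_le_mul_of_one_le_of_one_le (one_le_pow₀ (n := 2) o1) (one_le_pow₀ (n := 2) o2)
    calc v (a₁ - a₂) = v (a₁ - a₂) * 1 := (mul_one _).symm
      _ ≤ v (a₁ - a₂) * (max (v a₁) 1 ^ 2 * max (v a₂) 1 ^ 2) :=
        mul_le_mul_of_nonneg_left this (v.nonneg _)
      _ = _ := by ring
  have hp : v (b₁ + b₂) ≤ MM v a₁ b₁ a₂ b₂ := (le_max_left _ _).trans (le_max_right _ _)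
  have hM : 0 ≤ MM v a₁ b₁ a₂ b₂ := (v.nonneg _).trans hp
  have := reg1 hk hadd hc₀ hc₁ hc₂ hc₃ hM h₁ h₂ ha₁ ha₂ hd hp
  rw [map_mul v (4 * c₀) c₃]
  calc _ = v c₃ * (v (4 * c₀) * (max (v ((a₁+a₂)*(a₁-a₂)) ^ 2) (v (n1 c₀ c₁ c₂ c₃ a₁ b₁ a₂ b₂)) *
      max (v ((a₁+a₂)*(a₁-a₂)) ^ 2) (v (n2 c₀ c₁ c₂ c₃ a₁ b₁ a₂ b₂)))) *
      (max (v a₁) 1 ^ 6 * max (v a₂) 1 ^ 6) := by ring
    _ ≤ k * (k ^ 60 * MM v a₁ b₁ a₂ b₂ ^ 4 * v (a₁+a₂) ^ 2) * (k ^ 6 * k ^ 6) := by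
        refine mul_le_mul (mul_le_mul hc₃ this ?_ hk0) ?_ (by positivity) (by positivity)
        · exact mul_nonneg (v.nonneg _) (mul_nonneg (le_max_of_le_right (v.nonneg _))
            (le_max_of_le_right (v.nonneg _)))
        · exact mul_le_mul (pow_le_pow_left₀ (by positivity) m1 6)
            (pow_le_pow_left₀ (by positivity) m2 6) (by positivity) (by positivity)
    _ = k ^ 73 * (MM v a₁ b₁ a₂ b₂ ^ 4 * v (a₁+a₂) ^ 2) := by ring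
    _ ≤ k ^ 99 * (MM v a₁ b₁ a₂ b₂ ^ 4 * v (a₁+a₂) ^ 2) :=
        mul_le_mul_of_nonneg_right (pow_le_pow_right₀ hk (by norm_num)) (by positivity)
    _ = _ := by ring

/-- the local inequality in the region at infinity -/
lemma loc2 (hk : 1 ≤ k) (hadd : ∀ x y, v (x + y) ≤ k * max (v x) (v y))
    (hc₀ : v c₀ ≤ k) (hc₁ : v c₁ ≤ k) (hc₂ : v c₂ ≤ k) (hc₃ : v c₃ ≤ k)
    {a₁ b₁ a₂ b₂ : K} (h₁ : b₁^2=F c₀ c₁ c₂ c₃ a₁) (h₂ : b₂^2=F c₀ c₁ c₂ c₃ a₂)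
    (a₁0 : a₁ ≠ 0) (a₂0 : a₂ ≠ 0)
    (ha₁ : (v a₁)⁻¹ ≤ k) (ha₂ : (v a₂)⁻¹ ≤ k) :
    v (4 * c₀ * c₃) * (max (v ((a₁+a₂)*(a₁-a₂)) ^ 2) (v (n1 c₀ c₁ c₂ c₃ a₁ b₁ a₂ b₂)) *
      max (v ((a₁+a₂)*(a₁-a₂)) ^ 2) (v (n2 c₀ c₁ c₂ c₃ a₁ b₁ a₂ b₂))) *
      (max (v a₁) 1 ^ 6 * max (v a₂) 1 ^ 6) ≤ k ^ 99 * MM v a₁ b₁ a₂ b₂ ^ 4 * v (a₁+a₂) ^ 2 := by
  have hk0 : 0 ≤ k := by linarith
  have p1 : 0 < v a₁ := v.pos a₁0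
  have p2 : 0 < v a₂ := v.pos a₂0
  have m1 : max (v a₁) 1 ≤ k * v a₁ := by
    refine max_le ?_ ?_
    · nlinarith
    · rwa [inv_le_iff_one_le_mul₀ p1] at ha₁
  have m2 : max (v a₂) 1 ≤ k * v a₂ := by
    refine max_le ?_ ?_
    · nlinarith
    · rwa [inv_le_iff_one_le_mul₀ p2] at ha₂
  have o1 : v a₁ ≤ max (v a₁) 1 := le_max_left _ _
  have o2 : v a₂ ≤ max (v a₂) 1 := le_max_left _ _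
  set q : ℝ := v a₁ * v a₂ with hq
  have q0 : 0 < q := mul_pos p1 p2
  set M := MM v a₁ b₁ a₂ b₂ with hMdef
  have hd : v (a₁ - a₂) * q ^ 2 ≤ M := by
    refine le_trans ?_ (le_max_left _ _)
    calc v (a₁ - a₂) * q ^ 2 = v (a₁ - a₂) * (v a₁) ^ 2 * (v a₂) ^ 2 := by rw [hq]; ring
      _ ≤ _ := by gcongr
  have hp : v (b₁ * a₂ ^ 3 + b₂ * a₁ ^ 3) ≤ M := (le_max_right _ _).trans (le_max_right _ _)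
  have hM : 0 ≤ M := (v.nonneg _).trans hp
  have i1 : (b₁ * a₁⁻¹ ^ 3) ^ 2 = F c₃ c₂ c₁ c₀ a₁⁻¹ := by
    rw [mul_pow, h₁]; unfold F; field_simp; ring
  have i2 : (b₂ * a₂⁻¹ ^ 3) ^ 2 = F c₃ c₂ c₁ c₀ a₂⁻¹ := by
    rw [mul_pow, h₂]; unfold F; field_simp; ring
  have ed : a₁⁻¹ - a₂⁻¹ = -(a₁ - a₂) / (a₁ * a₂) := by field_simp; ring
  have es : a₁⁻¹ + a₂⁻¹ = (a₁ + a₂) / (a₁ * a₂) := by field_simp; ring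
  have ep : b₁ * a₁⁻¹ ^ 3 + b₂ * a₂⁻¹ ^ 3 = (b₁ * a₂ ^ 3 + b₂ * a₁ ^ 3) / (a₁ * a₂) ^ 3 := by
    field_simp
  have en1 : n1 c₃ c₂ c₁ c₀ a₁⁻¹ (b₁ * a₁⁻¹ ^ 3) a₂⁻¹ (b₂ * a₂⁻¹ ^ 3)
      = n2 c₀ c₁ c₂ c₃ a₁ b₁ a₂ b₂ / (a₁ * a₂) ^ 4 := by
    unfold n1 n2; field_simp; ring
  have en2 : n2 c₃ c₂ c₁ c₀ a₁⁻¹ (b₁ * a₁⁻¹ ^ 3) a₂⁻¹ (b₂ * a₂⁻¹ ^ 3)
      = n1 c₀ c₁ c₂ c₃ a₁ b₁ a₂ b₂ / (a₁ * a₂) ^ 4 := by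
    unfold n1 n2; field_simp; ring
  have vq : v (a₁ * a₂) = q := map_mul _ _ _
  have vd : v (a₁⁻¹ - a₂⁻¹) = v (a₁ - a₂) / q := by rw [ed, map_div₀, v.map_neg, vq]
  have vs : v (a₁⁻¹ + a₂⁻¹) = v (a₁ + a₂) / q := by rw [es, map_div₀, vq]
  have vp : v (b₁ * a₁⁻¹ ^ 3 + b₂ * a₂⁻¹ ^ 3) = v (b₁ * a₂ ^ 3 + b₂ * a₁ ^ 3) / q ^ 3 := by
    rw [ep, map_div₀, map_pow, vq]
  have vn1 : v (n1 c₃ c₂ c₁ c₀ a₁⁻¹ (b₁ * a₁⁻¹ ^ 3) a₂⁻¹ (b₂ * a₂⁻¹ ^ 3))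
      = v (n2 c₀ c₁ c₂ c₃ a₁ b₁ a₂ b₂) / q ^ 4 := by
    rw [en1, map_div₀, map_pow, vq]
  have vn2 : v (n2 c₃ c₂ c₁ c₀ a₁⁻¹ (b₁ * a₁⁻¹ ^ 3) a₂⁻¹ (b₂ * a₂⁻¹ ^ 3))
      = v (n1 c₀ c₁ c₂ c₃ a₁ b₁ a₂ b₂) / q ^ 4 := by
    rw [en2, map_div₀, map_pow, vq]
  have vsd : v ((a₁⁻¹ + a₂⁻¹) * (a₁⁻¹ - a₂⁻¹)) ^ 2 = v ((a₁+a₂)*(a₁-a₂)) ^ 2 / q ^ 4 := by
    rw [map_mul, vs, vd, map_mul]; field_simp
  have key := reg1 (v := v) (k := k) hk hadd hc₃ hc₂ hc₁ hc₀ (m := M / q ^ 3) (by positivity) i1 i2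
    (by rwa [map_inv₀]) (by rwa [map_inv₀])
    (by
      rw [vd, div_le_div_iff₀ q0 (by positivity)]
      calc v (a₁ - a₂) * q ^ 3 = (v (a₁ - a₂) * q ^ 2) * q := by ring
        _ ≤ M * q := by gcongr)
    (by rw [vp]; gcongr)
  rw [vsd, vn1, vn2, vs, max_div_div_right (by positivity), max_div_div_right (by positivity)] at key
  have key2 : v (4 * c₃) * (max (v ((a₁+a₂)*(a₁-a₂)) ^ 2) (v (n1 c₀ c₁ c₂ c₃ a₁ b₁ a₂ b₂)) *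
      max (v ((a₁+a₂)*(a₁-a₂)) ^ 2) (v (n2 c₀ c₁ c₂ c₃ a₁ b₁ a₂ b₂))) * q ^ 6 ≤
      k ^ 60 * M ^ 4 * v (a₁+a₂) ^ 2 := by
    have h := mul_le_mul_of_nonneg_right key (show 0 ≤ q ^ 14 by positivity)
    calc _ = v (4 * c₃) * (max (v ((a₁+a₂)*(a₁-a₂)) ^ 2) (v (n2 c₀ c₁ c₂ c₃ a₁ b₁ a₂ b₂)) / q ^ 4 *
          (max (v ((a₁+a₂)*(a₁-a₂)) ^ 2) (v (n1 c₀ c₁ c₂ c₃ a₁ b₁ a₂ b₂)) / q ^ 4)) * q ^ 14 := by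
            field_simp
      _ ≤ _ := h
      _ = _ := by field_simp
  have e43 : v (4 * c₀ * c₃) = v c₀ * v (4 * c₃) := by rw [← map_mul]; congr 1; ring
  rw [e43]
  calc _ ≤ v c₀ * v (4 * c₃) * (max (v ((a₁+a₂)*(a₁-a₂)) ^ 2) (v (n1 c₀ c₁ c₂ c₃ a₁ b₁ a₂ b₂)) *
      max (v ((a₁+a₂)*(a₁-a₂)) ^ 2) (v (n2 c₀ c₁ c₂ c₃ a₁ b₁ a₂ b₂))) *
        ((k * v a₁) ^ 6 * (k * v a₂) ^ 6) := by
        gcongr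
    _ = v c₀ * (v (4 * c₃) * (max (v ((a₁+a₂)*(a₁-a₂)) ^ 2) (v (n1 c₀ c₁ c₂ c₃ a₁ b₁ a₂ b₂)) *
      max (v ((a₁+a₂)*(a₁-a₂)) ^ 2) (v (n2 c₀ c₁ c₂ c₃ a₁ b₁ a₂ b₂))) * q ^ 6) * k ^ 12 := by
        rw [hq]; ring
    _ ≤ k * (k ^ 60 * M ^ 4 * v (a₁+a₂) ^ 2) * k ^ 12 := by gcongr
    _ = k ^ 73 * (M ^ 4 * v (a₁+a₂) ^ 2) := by ring
    _ ≤ k ^ 99 * (M ^ 4 * v (a₁+a₂) ^ 2) :=
        mul_le_mul_of_nonneg_right (pow_le_pow_right₀ hk (by norm_num)) (by positivity)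
    _ = _ := by ring

/-- the local inequality in the mixed region -/
lemma loc3 (hk : 1 ≤ k) (hadd : ∀ x y, v (x + y) ≤ k * max (v x) (v y))
    (hc₀ : v c₀ ≤ k) (hc₁ : v c₁ ≤ k) (hc₂ : v c₂ ≤ k) (hc₃ : v c₃ ≤ k)
    {a₁ b₁ a₂ b₂ : K} (h₁ : b₁^2=F c₀ c₁ c₂ c₃ a₁) (h₂ : b₂^2=F c₀ c₁ c₂ c₃ a₂)
    (ha₁ : k ≤ v a₁) (ha₂ : v a₂ * k ≤ 1) (hlt : k < v a₁) :
    v (4 * c₀ * c₃) * (max (v ((a₁+a₂)*(a₁-a₂)) ^ 2) (v (n1 c₀ c₁ c₂ c₃ a₁ b₁ a₂ b₂)) *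
      max (v ((a₁+a₂)*(a₁-a₂)) ^ 2) (v (n2 c₀ c₁ c₂ c₃ a₁ b₁ a₂ b₂))) *
      (max (v a₁) 1 ^ 6 * max (v a₂) 1 ^ 6) ≤ k ^ 99 * MM v a₁ b₁ a₂ b₂ ^ 4 * v (a₁+a₂) ^ 2 := by
  have hk0 : 0 < k := by linarith
  set A := v a₁ with hA
  have A1 : 1 ≤ A := hk.trans ha₁
  have A0 : 0 < A := by linarith
  have a2n : 0 ≤ v a₂ := v.nonneg _
  have a21 : v a₂ ≤ 1 := by nlinarith
  have m1 : max A 1 = A := max_eq_left A1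
  have m2 : max (v a₂) 1 = 1 := max_eq_right a21
  -- lower bounds for the difference and the sum
  have hD : A ≤ k * v (a₁ - a₂) := by
    have h := hadd (a₁ - a₂) a₂
    rw [sub_add_cancel] at h
    rcases le_total (v a₂) (v (a₁ - a₂)) with e | e
    · rwa [max_eq_left e] at h
    · rw [max_eq_right e] at h
      nlinarith
  have hS : A ≤ k * v (a₁ + a₂) := by
    have h := hadd (a₁ + a₂) (-a₂)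
    rw [add_neg_cancel_right, v.map_neg] at h
    rcases le_total (v a₂) (v (a₁ + a₂)) with e | e
    · rwa [max_eq_left e] at h
    · rw [max_eq_right e] at h
      nlinarith
  set M := MM v a₁ b₁ a₂ b₂ with hMdef
  have hM : A ^ 3 ≤ k * M := by
    have h : v (a₁ - a₂) * A ^ 2 ≤ M := by
      refine le_trans (le_of_eq ?_) (le_max_left _ _)
      rw [m1, m2]; ring
    calc A ^ 3 = A * A ^ 2 := by ring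
      _ ≤ (k * v (a₁ - a₂)) * A ^ 2 := by gcongr
      _ = k * (v (a₁ - a₂) * A ^ 2) := by ring
      _ ≤ _ := by gcongr
  have hM0 : 0 ≤ M := by
    have : 0 < k * M := lt_of_lt_of_le (by positivity) hM
    exact (pos_of_mul_pos_right this hk0.le).le
  -- upper bounds
  have C0 : Bd v k A 1 0 c₀ := by simpa [Bd] using hc₀
  have C1 : Bd v k A 1 0 c₁ := by simpa [Bd] using hc₁
  have C2 : Bd v k A 1 0 c₂ := by simpa [Bd] using hc₂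
  have C3 : Bd v k A 1 0 c₃ := by simpa [Bd] using hc₃
  have Z1 : Bd v k A 0 1 a₁ := by simp [Bd, hA]
  have Z2 : Bd v k A 0 0 a₂ := by simpa [Bd] using a21
  have W2 : Bd v k A 1 0 (2 : K) := by simpa [Bd] using two_le hadd
  have W4 : Bd v k A 2 0 (4 : K) := by simpa [Bd] using four_le hk hadd
  have hm := A0.le
  have mo : ∀ {n e : ℕ} {x : K}, Bd v k A n e x → ∀ n' e' : ℕ, n ≤ n' → e ≤ e' → Bd v k A n' e' x :=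
    fun h n' e' h1 h2 => h.monoe hk A1 h1 h2
  have T : Bd v k A 1 2 (a₁^2+a₂^2) :=
    (Z1.pow hm 2).add hk hm hadd (mo (Z2.pow hm 2) 0 2 (by norm_num) (by norm_num))
  have PP : Bd v k A 0 1 (a₁*a₂) := Z1.mul hk hm Z2
  have PP2 : Bd v k A 0 2 ((a₁*a₂)^2) := PP.pow hm 2
  have PP4 : Bd v k A 0 4 ((a₁*a₂)^4) := PP.pow hm 4
  have F1 : Bd v k A 4 6 (F c₀ c₁ c₂ c₃ a₁) :=
    (((mo (C3.mul hk hm (Z1.pow hm 6)) 1 6 (by norm_num) (by norm_num)).add hk hm hadd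
      (mo (C2.mul hk hm (Z1.pow hm 4)) 1 6 (by norm_num) (by norm_num))).add hk hm hadd
      (mo (C1.mul hk hm (Z1.pow hm 2)) 1 6 (by norm_num) (by norm_num))).add hk hm hadd
      (mo C0 1 6 (by norm_num) (by norm_num))
  have F2 : Bd v k A 4 0 (F c₀ c₁ c₂ c₃ a₂) :=
    (((mo (C3.mul hk hm (Z2.pow hm 6)) 1 0 (by norm_num) (by norm_num)).add hk hm hadd
      (mo (C2.mul hk hm (Z2.pow hm 4)) 1 0 (by norm_num) (by norm_num))).add hk hm hadd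
      (mo (C1.mul hk hm (Z2.pow hm 2)) 1 0 (by norm_num) (by norm_num))).add hk hm hadd
      (mo C0 1 0 (by norm_num) (by norm_num))
  have B1 : Bd v k A 2 3 b₁ := by
    unfold Bd
    refine le_of_sq_le_sq ?_ (by positivity)
    rw [← map_pow, h₁]
    refine le_trans F1 (le_of_eq (by ring))
  have B2 : Bd v k A 2 0 b₂ := by
    unfold Bd
    refine le_of_sq_le_sq ?_ (by positivity)
    rw [← map_pow, h₂]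
    refine le_trans F2 (le_of_eq (by ring))
  have W : Bd v k A 4 3 (b₁*b₂) := B1.mul hk hm B2
  have uN1 : Bd v k A 6 4 (n1 c₀ c₁ c₂ c₃ a₁ b₁ a₂ b₂) :=
    ((((mo (W2.mul hk hm C0) 2 4 (by norm_num) (by norm_num)).add hk hm hadd
      (mo (C1.mul hk hm T) 2 4 (by norm_num) (by norm_num))).add hk hm hadd
      (mo ((W2.mul hk hm C2).mul hk hm PP2) 2 4 (by norm_num) (by norm_num))).add hk hm hadd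
      (mo (C3.mul hk hm (PP2.mul hk hm T)) 2 4 (by norm_num) (by norm_num))).add hk hm hadd
      (mo (W2.mul hk hm W) 5 4 (by norm_num) (by norm_num))
  have uN2 : Bd v k A 6 4 (n2 c₀ c₁ c₂ c₃ a₁ b₁ a₂ b₂) :=
    ((((mo (C0.mul hk hm T) 2 4 (by norm_num) (by norm_num)).add hk hm hadd
      (mo ((W2.mul hk hm C1).mul hk hm PP2) 2 4 (by norm_num) (by norm_num))).add hk hm hadd
      (mo (C2.mul hk hm (PP2.mul hk hm T)) 2 4 (by norm_num) (by norm_num))).add hk hm hadd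
      (mo ((W2.mul hk hm C3).mul hk hm PP4) 2 4 (by norm_num) (by norm_num))).add hk hm hadd
      (mo ((W2.mul hk hm PP).mul hk hm W) 5 4 (by norm_num) (by norm_num))
  have uS : Bd v k A 1 1 (a₁ + a₂) :=
    Z1.add hk hm hadd (mo Z2 0 1 (by norm_num) (by norm_num))
  have uD : Bd v k A 1 1 (a₁ - a₂) :=
    Z1.sub hk hm hadd (mo Z2 0 1 (by norm_num) (by norm_num))
  have uSD : v ((a₁+a₂)*(a₁-a₂)) ^ 2 ≤ k ^ 6 * A ^ 4 := by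
    have := mo ((uS.mul hk hm uD).pow hm 2) 6 4 (by norm_num) (by norm_num)
    unfold Bd at this
    rwa [map_pow] at this
  have h4 : v (4 * c₀ * c₃ : K) ≤ k ^ 4 := by
    have := (W4.mul hk hm C0).mul hk hm C3
    unfold Bd at this
    simpa using this
  have hM' : A ^ 12 ≤ k ^ 4 * M ^ 4 := by
    calc A ^ 12 = (A ^ 3) ^ 4 := by ring
      _ ≤ (k * M) ^ 4 := by gcongr
      _ = _ := by ring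
  have hS' : A ^ 2 ≤ k ^ 2 * v (a₁ + a₂) ^ 2 := by
    calc A ^ 2 ≤ (k * v (a₁ + a₂)) ^ 2 := by gcongr
      _ = _ := by ring
  rw [m1, m2]
  calc _ ≤ k ^ 4 * ((k ^ 6 * A ^ 4) * (k ^ 6 * A ^ 4)) * (A ^ 6 * 1 ^ 6) := by
        gcongr
        · exact max_le uSD uN1
        · exact max_le uSD uN2
    _ = k ^ 16 * (A ^ 12 * A ^ 2) := by ring
    _ ≤ k ^ 16 * ((k ^ 4 * M ^ 4) * (k ^ 2 * v (a₁ + a₂) ^ 2)) := by gcongr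
    _ = k ^ 22 * (M ^ 4 * v (a₁ + a₂) ^ 2) := by ring
    _ ≤ k ^ 99 * (M ^ 4 * v (a₁ + a₂) ^ 2) :=
        mul_le_mul_of_nonneg_right (pow_le_pow_right₀ hk (by norm_num)) (by positivity)
    _ = _ := by ring

lemma n1_symm {K : Type} [Field K] (c₀ c₁ c₂ c₃ a₁ b₁ a₂ b₂ : K) :
    n1 c₀ c₁ c₂ c₃ a₂ b₂ a₁ b₁ = n1 c₀ c₁ c₂ c₃ a₁ b₁ a₂ b₂ := by
  unfold n1; ring

lemma n2_symm {K : Type} [Field K] (c₀ c₁ c₂ c₃ a₁ b₁ a₂ b₂ : K) :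
    n2 c₀ c₁ c₂ c₃ a₂ b₂ a₁ b₁ = n2 c₀ c₁ c₂ c₃ a₁ b₁ a₂ b₂ := by
  unfold n2; ring

lemma MM_symm (v : AbsoluteValue K ℝ) (a₁ b₁ a₂ b₂ : K) : MM v a₂ b₂ a₁ b₁ = MM v a₁ b₁ a₂ b₂ := by
  unfold MM
  have e1 : v (a₂ - a₁) = v (a₁ - a₂) := v.map_sub _ _
  rw [e1, add_comm b₂ b₁, add_comm (b₂ * a₁ ^ 3) (b₁ * a₂ ^ 3)]
  congr 1
  ring

/-- the local inequality -/
theorem local_ineq (hk : 1 ≤ k) (hadd : ∀ x y, v (x + y) ≤ k * max (v x) (v y))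
    (hc₀ : v c₀ ≤ k) (hc₁ : v c₁ ≤ k) (hc₂ : v c₂ ≤ k) (hc₃ : v c₃ ≤ k)
    {a₁ b₁ a₂ b₂ : K} (h₁ : b₁^2=F c₀ c₁ c₂ c₃ a₁) (h₂ : b₂^2=F c₀ c₁ c₂ c₃ a₂)
    (a₁0 : a₁ ≠ 0) (a₂0 : a₂ ≠ 0) :
    v (4 * c₀ * c₃) * (max (v ((a₁+a₂)*(a₁-a₂)) ^ 2) (v (n1 c₀ c₁ c₂ c₃ a₁ b₁ a₂ b₂)) *
      max (v ((a₁+a₂)*(a₁-a₂)) ^ 2) (v (n2 c₀ c₁ c₂ c₃ a₁ b₁ a₂ b₂))) *
      (max (v a₁) 1 ^ 6 * max (v a₂) 1 ^ 6) ≤ k ^ 99 * MM v a₁ b₁ a₂ b₂ ^ 4 * v (a₁+a₂) ^ 2 := by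
  have p1 : 0 < v a₁ := v.pos a₁0
  have p2 : 0 < v a₂ := v.pos a₂0
  have hk0 : 0 < k := by linarith
  rcases le_or_gt (v a₁) k with c1 | c1
  · rcases le_or_gt (v a₂) k with c2 | c2
    · exact loc1 hk hadd hc₀ hc₁ hc₂ hc₃ h₁ h₂ c1 c2
    · rcases le_or_gt ((v a₁)⁻¹) k with d1 | d1
      · refine loc2 hk hadd hc₀ hc₁ hc₂ hc₃ h₁ h₂ a₁0 a₂0 d1 ?_
        exact (inv_le_one_of_one_le₀ (hk.trans c2.le)).trans hk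
      · have := loc3 hk hadd hc₀ hc₁ hc₂ hc₃ h₂ h₁ c2.le (by rw [lt_inv_comm₀ hk0 p1, ← one_div, lt_div_iff₀ hk0] at d1; exact d1.le) c2
        rw [n1_symm, n2_symm, MM_symm, add_comm a₂ a₁] at this
        have e : v ((a₁ + a₂) * (a₂ - a₁)) = v ((a₁ + a₂) * (a₁ - a₂)) := by
          rw [map_mul, map_mul, v.map_sub]
        rw [e, mul_comm (max (v a₂) 1 ^ 6)] at this
        exact this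
  · rcases le_or_gt ((v a₂)⁻¹) k with d2 | d2
    · refine loc2 hk hadd hc₀ hc₁ hc₂ hc₃ h₁ h₂ a₁0 a₂0 ?_ d2
      exact (inv_le_one_of_one_le₀ (hk.trans c1.le)).trans hk
    · exact loc3 hk hadd hc₀ hc₁ hc₂ hc₃ h₁ h₂ c1.le (by rw [lt_inv_comm₀ hk0 p2, ← one_div, lt_div_iff₀ hk0] at d2; exact d2.le) c1

end loc

end Phi
end Pool.Agent.H106R2
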