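import Pool.Agent.H106R2.Iface
import Pool.Agent.H106R2.Phi1

/-! The lower bound for the local functions `mloc` through the two quotient elliptic curves
(global part). -/

set_option autoImplicit false
set_option maxRecDepth 20000

open Height Height.AdmissibleAbsValues

namespace Pool.Agent.H106R2

open Pool.Agent.H437R2.Man (gs FS lx MW.crv FS_lx FS_log gs_add gs_const_mul gs_log gs_lx gs_le
  gs_pair arch_emb)

variable [Gc]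

namespace Phi

lemma fv_eq {K : Type} [Field K] (a : K) : fv a = F (g0 : K) (g1 : K) (g2 : K) (g3 : K) a := rfl

/-- logarithmic form of the local inequality -/
lemma local_log {K : Type} [Field K] [CharZero K] {v : AbsoluteValue K ℝ} {k : ℝ}
    (hk : 1 ≤ k) (hadd : ∀ x y, v (x + y) ≤ k * max (v x) (v y)) {c₀ c₁ c₂ c₃ : K}
    (hc₀ : v c₀ ≤ k) (hc₁ : v c₁ ≤ k) (hc₂ : v c₂ ≤ k) (hc₃ : v c₃ ≤ k) (n₀ : c₀ ≠ 0) (n₃ : c₃ ≠ 0)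
    {a₁ b₁ a₂ b₂ : K} (h₁ : b₁^2=F c₀ c₁ c₂ c₃ a₁) (h₂ : b₂^2=F c₀ c₁ c₂ c₃ a₂)
    (hne : a₁ ≠ a₂) (hne' : a₁ ≠ -a₂)
    (a₁0 : a₁ ≠ 0) (a₂0 : a₂ ≠ 0) :
    Real.log (v (4 * c₀ * c₃)) +
      (Real.log (max (v (n1 c₀ c₁ c₂ c₃ a₁ b₁ a₂ b₂)) (v (((a₁+a₂)*(a₁-a₂))^2)))
      + Real.log (max (v (n2 c₀ c₁ c₂ c₃ a₁ b₁ a₂ b₂)) (v (((a₁+a₂)*(a₁-a₂))^2)))
      + (6 * lx a₁ v + 6 * lx a₂ v)) ≤
      4 * mloc a₁ b₁ a₂ b₂ v + 2 * Real.log (v (a₁ + a₂)) + 99 * Real.log k := by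
  have hk0 : 0 < k := by linarith
  have hs : a₁ + a₂ ≠ 0 := fun h => hne' (eq_neg_of_add_eq_zero_left h)
  have hd : a₁ - a₂ ≠ 0 := sub_ne_zero.mpr hne
  have hs0 : 0 < v (a₁ + a₂) := v.pos hs
  have hd0 : 0 < v (a₁ - a₂) := v.pos hd
  have h4 : 0 < v (4 * c₀ * c₃ : K) := v.pos (mul_ne_zero (mul_ne_zero (by norm_num) n₀) n₃)
  have hsd : 0 < v (((a₁+a₂)*(a₁-a₂))^2) := v.pos (pow_ne_zero 2 (mul_ne_zero hs hd))
  have x1 : 0 < max (v a₁) 1 := lt_of_lt_of_le one_pos (le_max_right _ _)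
  have x2 : 0 < max (v a₂) 1 := lt_of_lt_of_le one_pos (le_max_right _ _)
  have hM : 0 < MM v a₁ b₁ a₂ b₂ := lt_of_lt_of_le (by positivity) (le_max_left _ _)
  have e1 : 0 < max (v (n1 c₀ c₁ c₂ c₃ a₁ b₁ a₂ b₂)) (v (((a₁+a₂)*(a₁-a₂))^2)) :=
    lt_of_lt_of_le hsd (le_max_right _ _)
  have e2 : 0 < max (v (n2 c₀ c₁ c₂ c₃ a₁ b₁ a₂ b₂)) (v (((a₁+a₂)*(a₁-a₂))^2)) :=
    lt_of_lt_of_le hsd (le_max_right _ _)
  have key := local_ineq hk hadd hc₀ hc₁ hc₂ hc₃ h₁ h₂ a₁0 a₂0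
  rw [← map_pow v ((a₁+a₂)*(a₁-a₂)) 2, max_comm _ (v (n1 c₀ c₁ c₂ c₃ a₁ b₁ a₂ b₂)),
    max_comm _ (v (n2 c₀ c₁ c₂ c₃ a₁ b₁ a₂ b₂))] at key
  have key2 := Real.log_le_log (mul_pos (mul_pos h4 (mul_pos e1 e2))
    (mul_pos (pow_pos x1 6) (pow_pos x2 6))) key
  have kk : (0:ℝ) < k ^ 99 := pow_pos hk0 99
  rw [Real.log_mul (mul_pos h4 (mul_pos e1 e2)).ne' (mul_pos (pow_pos x1 6) (pow_pos x2 6)).ne',
    Real.log_mul h4.ne' (mul_pos e1 e2).ne',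
    Real.log_mul e1.ne' e2.ne', Real.log_mul (pow_pos x1 6).ne' (pow_pos x2 6).ne',
    Real.log_mul (mul_pos kk (pow_pos hM 4)).ne' (pow_pos hs0 2).ne',
    Real.log_mul kk.ne' (pow_pos hM 4).ne',
    Real.log_pow, Real.log_pow, Real.log_pow, Real.log_pow, Real.log_pow] at key2
  have em : mloc a₁ b₁ a₂ b₂ v = Real.log (MM v a₁ b₁ a₂ b₂) := rfl
  rw [em]
  unfold lx
  push_cast at key2
  linarith

variable {K : Type} [Field K] [NumberField K]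

lemma FS_mloc {a₁ b₁ a₂ b₂ : K} (hne : a₁ ≠ a₂) : FS (mloc a₁ b₁ a₂ b₂) := by
  refine Set.Finite.subset ((((FS_log (sub_ne_zero.mpr hne)).union (FS_lx a₁)).union
    (FS_lx a₂)).union ((FS_lx (b₁ + b₂)).union (FS_lx (b₁ * a₂ ^ 3 + b₂ * a₁ ^ 3)))) ?_
  intro v hv
  by_contra hc
  simp only [Set.mem_union, Function.mem_support, ne_eq, not_or, not_not] at hc hv
  obtain ⟨⟨⟨c1, c2⟩, c3⟩, c4, c5⟩ := hc
  have l1 : ∀ x : K, lx x v.val = 0 → max (v.val x) 1 = 1 := by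
    intro x hx
    unfold lx at hx
    have h1 : (1 : ℝ) ≤ max (v.val x) 1 := le_max_right _ _
    rw [Real.log_eq_zero] at hx
    rcases hx with h | h | h <;> linarith
  have d1 : v.val (a₁ - a₂) = 1 := by
    have := v.val.pos (sub_ne_zero.mpr hne)
    rw [Real.log_eq_zero] at c1
    rcases c1 with h | h | h <;> linarith
  apply hv
  unfold mloc
  rw [d1, l1 _ c2, l1 _ c3]
  have f4 : v.val (b₁ + b₂) ≤ 1 := by
    have := l1 _ c4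
    exact (le_max_left _ _).trans this.le
  have f5 : v.val (b₁ * a₂ ^ 3 + b₂ * a₁ ^ 3) ≤ 1 := by
    have := l1 _ c5
    exact (le_max_left _ _).trans this.le
  rw [max_eq_left]
  · norm_num
  · norm_num
    exact ⟨f4, f5⟩

lemma xdiff {K : Type} [Field K] [DecidableEq K] {p q r x₁ y₁ x₂ y₂ : K}
    (h₁ : (MW.crv p q r).toAffine.Nonsingular x₁ y₁) (h₂ : (MW.crv p q r).toAffine.Nonsingular x₂ y₂)
    (hx : x₁ ≠ x₂) :
    (WeierstrassCurve.Affine.Point.some _ _ h₁ - WeierstrassCurve.Affine.Point.some _ _ h₂).xRep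
      = ![((y₁ + y₂) / (x₁ - x₂)) ^ 2 - (p + q + r) - x₁ - x₂, 1] := by
  rw [sub_eq_add_neg, WeierstrassCurve.Affine.Point.neg_some,
    WeierstrassCurve.Affine.Point.add_of_X_ne hx, WeierstrassCurve.Affine.Point.xRep_some]
  congr 1
  rw [WeierstrassCurve.Affine.slope_of_X_ne hx]
  simp [WeierstrassCurve.Affine.addX, WeierstrassCurve.Affine.negY, MW.crv]

end Phi

open Phi in
/-- PHI: lower bound for the local functions through the elliptic curves -/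
theorem phi_lower (K : Type) [Field K] [NumberField K] [DecidableEq K] : PhiStatement K := by
  set k : ℝ := max 2 hh with hkdef
  have hk2 : 2 ≤ k := le_max_left _ _
  have hk1 : 1 ≤ k := by linarith
  refine ⟨totalWeight K * (99 * Real.log k), ?_⟩
  intro a₁ b₁ a₂ b₂ h₁ h₂ hne hne' a₁0 a₂0 n₁ n₂ n₃ n₄
  rw [fv_eq] at h₁ h₂
  have hs : a₁ + a₂ ≠ 0 := fun h => hne' (eq_neg_of_add_eq_zero_left h)
  have hd : a₁ - a₂ ≠ 0 := sub_ne_zero.mpr hne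
  have hsd : ((a₁+a₂)*(a₁-a₂))^2 ≠ 0 := pow_ne_zero 2 (mul_ne_zero hs hd)
  have hg3 : ((g3 : ℤ) : K) ≠ 0 := by exact_mod_cast Gc.hg3
  have hg0 : ((g0 : ℤ) : K) ≠ 0 := by exact_mod_cast g0_ne
  have hsq : a₁ ^ 2 - a₂ ^ 2 ≠ 0 := by
    have := mul_ne_zero hs hd
    intro h
    apply this
    rw [← h]; ring
  have hx1 : (g3 : K) * a₁ ^ 2 ≠ (g3 : K) * a₂ ^ 2 := by
    intro h
    exact (sub_ne_zero.mp hsq) (mul_left_cancel₀ hg3 h)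
  have hx2 : (g0 : K) * a₁⁻¹ ^ 2 ≠ (g0 : K) * a₂⁻¹ ^ 2 := by
    intro h
    have := mul_left_cancel₀ hg0 h
    rw [inv_pow, inv_pow] at this
    exact (sub_ne_zero.mp hsq) (inv_injective this)
  have hA2 : ((-(g3 * Gc.e1) : ℚ) : K) + ((-(g3 * Gc.e2) : ℚ) : K) + ((-(g3 * Gc.e3) : ℚ) : K)
      = (g2 : K) := by
    rw [← Rat.cast_add, ← Rat.cast_add]
    have : (-(g3 * Gc.e1) : ℚ) + (-(g3 * Gc.e2) : ℚ) + (-(g3 * Gc.e3) : ℚ) = ((g2 : ℤ) : ℚ) := by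
      rw [Gc.hg2]; ring
    rw [this, Rat.cast_intCast]
  have hB2 : ((-(g0 / Gc.e1) : ℚ) : K) + ((-(g0 / Gc.e2) : ℚ) : K) + ((-(g0 / Gc.e3) : ℚ) : K)
      = (g1 : K) := by
    rw [← Rat.cast_add, ← Rat.cast_add]
    have : (-(g0 / Gc.e1) : ℚ) + (-(g0 / Gc.e2) : ℚ) + (-(g0 / Gc.e3) : ℚ) = ((g1 : ℤ) : ℚ) := by
      rw [Gc.hg1, Gc.hg0]
      have := Gc.he1
      have := Gc.he2
      have := Gc.he3
      field_simp
      ring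
    rw [this, Rat.cast_intCast]
  have E1 := xdiff n₁ n₂ hx1
  have E2 := xdiff n₃ n₄ hx2
  rw [hA2] at E1
  rw [hB2] at E2
  have e1 : (((g3 : K) * b₁ + (g3 : K) * b₂) / ((g3 : K) * a₁ ^ 2 - (g3 : K) * a₂ ^ 2)) ^ 2 - (g2 : K)
        - (g3 : K) * a₁ ^ 2 - (g3 : K) * a₂ ^ 2
      = n1 (g0 : K) (g1 : K) (g2 : K) (g3 : K) a₁ b₁ a₂ b₂ / ((a₁+a₂)*(a₁-a₂))^2 := by
    rw [n1_eq h₁ h₂]
    have e5 : ((g3 : K) * b₁ + (g3 : K) * b₂) / ((g3 : K) * a₁ ^ 2 - (g3 : K) * a₂ ^ 2)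
        = (b₁ + b₂) / ((a₁+a₂)*(a₁-a₂)) := by
      rw [← mul_add, ← mul_sub, mul_div_mul_left _ _ hg3]
      congr 1
      ring
    rw [e5, div_pow]
    field_simp
    ring
  have e2 : (((g0 : K) * (b₁ * a₁⁻¹ ^ 3) + (g0 : K) * (b₂ * a₂⁻¹ ^ 3)) /
        ((g0 : K) * a₁⁻¹ ^ 2 - (g0 : K) * a₂⁻¹ ^ 2)) ^ 2 - (g1 : K)
        - (g0 : K) * a₁⁻¹ ^ 2 - (g0 : K) * a₂⁻¹ ^ 2
      = n2 (g0 : K) (g1 : K) (g2 : K) (g3 : K) a₁ b₁ a₂ b₂ / ((a₁+a₂)*(a₁-a₂))^2 := by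
    have e3 : a₁⁻¹ ^ 2 - a₂⁻¹ ^ 2 = -((a₁+a₂)*(a₁-a₂)) / (a₁*a₂)^2 := by
      field_simp; ring
    have e4 : b₁ * a₁⁻¹ ^ 3 + b₂ * a₂⁻¹ ^ 3 = (b₁ * a₂ ^ 3 + b₂ * a₁ ^ 3) / (a₁ * a₂) ^ 3 := by
      field_simp
    rw [← mul_add, ← mul_sub, mul_div_mul_left _ _ hg0, e3, e4, eq_div_iff hsd]
    have g1' := hs
    have g2' := hd
    have e5 : (b₁ * a₂ ^ 3 + b₂ * a₁ ^ 3) ^ 2 =
        F (g0 : K) (g1 : K) (g2 : K) (g3 : K) a₁ * a₂^6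
        + F (g0 : K) (g1 : K) (g2 : K) (g3 : K) a₂*a₁^6 + 2 * (a₁*a₂)^3*(b₁*b₂) := by
      rw [← h₁, ← h₂]; ring
    have e6 : ((b₁ * a₂ ^ 3 + b₂ * a₁ ^ 3) / (a₁ * a₂) ^ 3 / (-((a₁+a₂)*(a₁-a₂)) / (a₁*a₂)^2)) ^ 2
        = (b₁ * a₂ ^ 3 + b₂ * a₁ ^ 3)^2 / ((a₁*a₂)^2 * ((a₁+a₂)*(a₁-a₂))^2) := by
      field_simp
    rw [e6, e5]
    unfold n2 F
    field_simp
    ring
  have L1 : logHeight (WeierstrassCurve.Affine.Point.some _ _ n₁ -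
          WeierstrassCurve.Affine.Point.some _ _ n₂).xRep
      = logHeight₁ (n1 (g0 : K) (g1 : K) (g2 : K) (g3 : K) a₁ b₁ a₂ b₂ / ((a₁+a₂)*(a₁-a₂))^2) := by
    rw [logHeight₁_eq_logHeight, ← e1, ← E1]; rfl
  have L2 : logHeight (WeierstrassCurve.Affine.Point.some _ _ n₃ -
          WeierstrassCurve.Affine.Point.some _ _ n₄).xRep
      = logHeight₁ (n2 (g0 : K) (g1 : K) (g2 : K) (g3 : K) a₁ b₁ a₂ b₂ / ((a₁+a₂)*(a₁-a₂))^2) := by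
    rw [logHeight₁_eq_logHeight, ← e2, ← E2]; rfl
  rw [L1, L2]
  obtain ⟨F1, G1⟩ := gs_pair (x := n1 (g0 : K) (g1 : K) (g2 : K) (g3 : K) a₁ b₁ a₂ b₂) hsd _
    (fun v => rfl)
  obtain ⟨F2, G2⟩ := gs_pair (x := n2 (g0 : K) (g1 : K) (g2 : K) (g3 : K) a₁ b₁ a₂ b₂) hsd _
    (fun v => rfl)
  have F3 := (FS_lx a₁).const_mul 6
  have F4 := (FS_lx a₂).const_mul 6
  have h4 : (4 * (g0 : K) * (g3 : K) : K) ≠ 0 := mul_ne_zero (mul_ne_zero (by norm_num) hg0) hg3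
  have F5 := FS_log h4
  have F6 := (FS_mloc (b₁ := b₁) (b₂ := b₂) hne).const_mul 4
  have F7 := (FS_log hs).const_mul 2
  have key := gs_le (F5.add ((F1.add F2).add (F3.add F4))) (F6.add F7) (99 * Real.log k) ?_ ?_
  · rw [gs_add F5 ((F1.add F2).add (F3.add F4)), gs_add (F1.add F2) (F3.add F4), gs_add F1 F2,
      gs_add F3 F4, gs_add F6 F7, gs_const_mul _ (FS_lx a₁), gs_const_mul _ (FS_lx a₂),
      gs_const_mul _ (FS_mloc hne), gs_const_mul _ (FS_log hs), gs_log h4, gs_log hs, gs_lx, gs_lx,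
      G1, G2] at key
    linarith
  · intro v hv
    obtain ⟨φ, hφ⟩ := arch_emb hv
    have hint : ∀ n : ℤ, v (n : K) = |(n : ℝ)| := by
      intro n
      rw [hφ, map_intCast, Complex.norm_intCast]
    have hhk : hh ≤ k := le_max_right _ _
    have a0 := abs_nonneg ((g0 : ℤ) : ℝ)
    have a1 := abs_nonneg ((g1 : ℤ) : ℝ)
    have a2 := abs_nonneg ((g2 : ℤ) : ℝ)
    have a3 := abs_nonneg ((g3 : ℤ) : ℝ)
    unfold hh at hhk
    refine local_log (k := k) hk1 ?_ (by rw [hint]; linarith) (by rw [hint]; linarith)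
      (by rw [hint]; linarith) (by rw [hint]; linarith) hg0 hg3 h₁ h₂ hne hne' a₁0 a₂0
    intro x y
    refine (v.add_le x y).trans ?_
    have i1 := le_max_left (v x) (v y)
    have i2 := le_max_right (v x) (v y)
    have i3 : 0 ≤ max (v x) (v y) := (v.nonneg x).trans i1
    nlinarith
  · intro v hv
    have hna : IsNonarchimedean v := isNonarchimedean v hv
    have hint : ∀ n : ℤ, v (n : K) ≤ 1 := fun n => hna.apply_intCast_le_one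
    have := local_log (v := v) (k := 1) le_rfl ?_ (hint g0) (hint g1) (hint g2) (hint g3)
      hg0 hg3 h₁ h₂ hne hne' a₁0 a₂0
    · simpa using this
    · intro x y
      rw [one_mul]
      exact hna x y

end Pool.Agent.H106R2
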