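import Pool.Agent.H106R2.V5c
import Pool.Agent.H106R2.Phi2

/-! Product formula step. -/

set_option autoImplicit false

open Height Height.AdmissibleAbsValues

namespace Pool.Agent.H106R2

open Pool.Agent.H437R2.Man (gs FS lx FS_lx FS_log gs_add gs_const_mul gs_log gs_lx gs_le
  gs_pair arch_emb FS.const_mul FS.add)

variable [Gc]

theorem mi_sum (K : Type) [Field K] [NumberField K] : SumStatement K := by
  intro c hc
  have htw : (0:ℝ) ≤ totalWeight K := Nat.cast_nonneg _
  refine ⟨totalWeight K * (1 + c) + 1, by positivity, ?_⟩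
  intro n₁ n₂ e j₁ j₂ Λ hΛ a₁ b₁ a₂ b₂ g hne hg h₁ h₂ harch hnon
  have hd : a₁ - a₂ ≠ 0 := sub_ne_zero.mpr hne
  have F1 : FS (mloc a₁ b₁ a₂ b₂) := Phi.FS_mloc hne
  have F2 : FS (fun v : AbsoluteValue K ℝ => Real.log (v g)) := FS_log hg
  have F3 : FS (fun v : AbsoluteValue K ℝ => Real.log (v (a₁ - a₂))) := FS_log hd
  have F4 := FS_lx a₁
  have F5 := FS_lx a₂
  have hl := gs_le (f := fun v => Real.log (v g) + (2 * e : ℝ) * mloc a₁ b₁ a₂ b₂ v)
    (g := fun v => ((n₁ + 4 * e + 5 * j₁ : ℕ) : ℝ) * lx a₁ v + (((n₂ + 4 * e + 5 * j₂ : ℕ) : ℝ) * lx a₂ v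
      + (2 * e : ℝ) * Real.log (v (a₁ - a₂))))
    (F2.add (F1.const_mul _)) ((F4.const_mul _).add ((F5.const_mul _).add (F3.const_mul _)))
    (Λ + c * (n₁ + n₂ + e + j₁ + j₂)) ?_ ?_
  · rw [gs_add F2 (F1.const_mul _), gs_add (F4.const_mul _) ((F5.const_mul _).add (F3.const_mul _)),
      gs_add (F5.const_mul _) (F3.const_mul _), gs_const_mul _ F1, gs_const_mul _ F4,
      gs_const_mul _ F5, gs_const_mul _ F3, gs_log hg, gs_log hd, gs_lx, gs_lx] at hl
    push_cast at hl
    have hj1 : (0:ℝ) ≤ j₁ := Nat.cast_nonneg _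
    have hj2 : (0:ℝ) ≤ j₂ := Nat.cast_nonneg _
    have hn1 : (0:ℝ) ≤ n₁ := Nat.cast_nonneg _
    have hn2 : (0:ℝ) ≤ n₂ := Nat.cast_nonneg _
    have he0 : (0:ℝ) ≤ e := Nat.cast_nonneg _
    have hb : (totalWeight K : ℝ) * (Λ + c * (n₁ + n₂ + e + j₁ + j₂)) ≤
        (totalWeight K * (1 + c) + 1) * (Λ + n₁ + n₂ + e + j₁ + j₂) := by
      have : Λ + c * (n₁ + n₂ + e + j₁ + j₂) ≤ (1 + c) * (Λ + n₁ + n₂ + e + j₁ + j₂) := by
        nlinarith [mul_nonneg hc hΛ]
      have h2 := mul_le_mul_of_nonneg_left this htw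
      have h3 : 0 ≤ Λ + n₁ + n₂ + e + j₁ + j₂ := by positivity
      linarith
    linarith
  · intro v hv
    obtain ⟨φ, hφ⟩ := arch_emb hv
    have hvn : ∀ n : ℕ, v (n : K) = n := by
      intro n
      rw [hφ, map_natCast]
      simp
    have h := harch v hvn
    have hvd : 0 < v (a₁ - a₂) := v.pos hd
    have hvg : 0 < v g := v.pos hg
    have hX1 : 0 < max (v a₁) 1 := lt_of_lt_of_le one_pos (le_max_right _ _)
    have hX2 : 0 < max (v a₂) 1 := lt_of_lt_of_le one_pos (le_max_right _ _)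
    have hM : 0 < max (v (a₁ - a₂) * max (v a₁) 1 ^ 2 * max (v a₂) 1 ^ 2)
            (max (v (b₁ + b₂)) (v (b₁ * a₂ ^ 3 + b₂ * a₁ ^ 3))) :=
      lt_of_lt_of_le (by positivity) (le_max_left _ _)
    have h2 := Real.log_le_log (by positivity) h
    rw [Real.log_mul hvg.ne' (by positivity), Real.log_pow, Real.log_mul (by positivity) (by positivity),
      Real.log_mul (by positivity) (by positivity), Real.log_mul (by positivity) (by positivity),
      Real.log_exp, Real.log_pow, Real.log_pow, Real.log_pow] at h2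
    unfold mloc lx
    push_cast at h2 ⊢
    linarith
  · intro v hv
    have hv1 : IsNonarchimedean v := isNonarchimedean v hv
    have hvn : ∀ n : ℕ, v (n : K) ≤ 1 := fun n => hv1.apply_natCast_le_one
    have h := hnon v hv1 hvn
    have hvd : 0 < v (a₁ - a₂) := v.pos hd
    have hvg : 0 < v g := v.pos hg
    have hX1 : 0 < max (v a₁) 1 := lt_of_lt_of_le one_pos (le_max_right _ _)
    have hX2 : 0 < max (v a₂) 1 := lt_of_lt_of_le one_pos (le_max_right _ _)
    have hM : 0 < max (v (a₁ - a₂) * max (v a₁) 1 ^ 2 * max (v a₂) 1 ^ 2)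
            (max (v (b₁ + b₂)) (v (b₁ * a₂ ^ 3 + b₂ * a₁ ^ 3))) :=
      lt_of_lt_of_le (by positivity) (le_max_left _ _)
    have h2 := Real.log_le_log (by positivity) h
    rw [Real.log_mul hvg.ne' (by positivity), Real.log_pow, Real.log_mul (by positivity) (by positivity),
      Real.log_mul (by positivity) (by positivity), Real.log_pow, Real.log_pow, Real.log_pow] at h2
    unfold mloc lx
    push_cast at h2 ⊢
    linarith

theorem mi (K : Type) [Field K] [NumberField K] : MIStatement K := mi_of K (mi_sum K)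

end Pool.Agent.H106R2
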