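import Mathlib

/-! Generic `ℓ¹` norms of polynomials (copy of the general part of TEAM-V's file Norm). -/

set_option autoImplicit false

open Polynomial

namespace Pool.Agent.H106R2

section general

variable {R : Type} [CommRing R]

/-- the `ℓ¹` norm attached to a function on the coefficient ring -/
noncomputable def pn (N : R → ℝ) (p : Polynomial R) : ℝ := p.sum (fun _ c => N c)

/-- axioms for a ring seminorm -/
structure SN (N : R → ℝ) : Prop where
  zero : N 0 = 0
  nonneg : ∀ a, 0 ≤ N a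
  add : ∀ a b, N (a + b) ≤ N a + N b
  neg : ∀ a, N (-a) = N a
  mul : ∀ a b, N (a * b) ≤ N a * N b

lemma pn_range {N : R → ℝ} (h : SN N) {p : Polynomial R} {n : ℕ} (hn : p.natDegree < n) :
    pn N p = ∑ i ∈ Finset.range n, N (p.coeff i) :=
  sum_over_range' p (fun _ => h.zero) n hn

lemma pn_nonneg {N : R → ℝ} (h : SN N) (p : Polynomial R) : 0 ≤ pn N p := by
  rw [pn_range h (Nat.lt_succ_self _)]
  exact Finset.sum_nonneg fun _ _ => h.nonneg _

lemma pn_zero {N : R → ℝ} : pn N (0 : Polynomial R) = 0 := by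
  simp [pn]

lemma pn_add {N : R → ℝ} (h : SN N) (p q : Polynomial R) : pn N (p + q) ≤ pn N p + pn N q := by
  have h1 : p.natDegree < max p.natDegree q.natDegree + 1 := by
    have := le_max_left p.natDegree q.natDegree; omega
  have h2 : q.natDegree < max p.natDegree q.natDegree + 1 := by
    have := le_max_right p.natDegree q.natDegree; omega
  have h3 : (p + q).natDegree < max p.natDegree q.natDegree + 1 := by
    have := natDegree_add_le p q; omega
  rw [pn_range h h1, pn_range h h2, pn_range h h3, ← Finset.sum_add_distrib]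
  exact Finset.sum_le_sum fun i _ => by rw [coeff_add]; exact h.add _ _

lemma pn_neg {N : R → ℝ} (h : SN N) (p : Polynomial R) : pn N (-p) = pn N p := by
  rw [pn_range h (n := p.natDegree + 1) (by rw [natDegree_neg]; omega),
    pn_range h (Nat.lt_succ_self _)]
  exact Finset.sum_congr rfl fun i _ => by rw [coeff_neg, h.neg]

lemma pn_sub {N : R → ℝ} (h : SN N) (p q : Polynomial R) : pn N (p - q) ≤ pn N p + pn N q := by
  rw [sub_eq_add_neg, ← pn_neg h q]
  exact pn_add h _ _

lemma pn_sum {N : R → ℝ} (h : SN N) {ι : Type} (s : Finset ι) (f : ι → Polynomial R) :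
    pn N (∑ i ∈ s, f i) ≤ ∑ i ∈ s, pn N (f i) := by
  classical
  induction s using Finset.induction_on with
  | empty => simp [pn_zero]
  | insert a s ha ih =>
    rw [Finset.sum_insert ha, Finset.sum_insert ha]
    exact (pn_add h _ _).trans (add_le_add le_rfl ih)

lemma pn_C_mul {N : R → ℝ} (h : SN N) (c : R) (p : Polynomial R) :
    pn N (C c * p) ≤ N c * pn N p := by
  have h1 : (C c * p).natDegree < p.natDegree + 1 := by
    have := natDegree_C_mul_le c p; omega
  rw [pn_range h h1, pn_range h (Nat.lt_succ_self _), Finset.mul_sum]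
  exact Finset.sum_le_sum fun i _ => by rw [coeff_C_mul]; exact h.mul _ _

lemma pn_X_pow_mul {N : R → ℝ} (h : SN N) (k : ℕ) (p : Polynomial R) :
    pn N (X ^ k * p) = pn N p := by
  have h1 : (X ^ k * p).natDegree < k + (p.natDegree + 1) := by
    have h2 := natDegree_mul_le (p := (X : Polynomial R) ^ k) (q := p)
    have h3 := natDegree_X_pow_le (R := R) k
    omega
  rw [pn_range h h1, pn_range h (Nat.lt_succ_self _), Finset.sum_range_add]
  have e1 : ∑ x ∈ Finset.range k, N ((X ^ k * p).coeff x) = 0 := by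
    refine Finset.sum_eq_zero fun x hx => ?_
    rw [Finset.mem_range] at hx
    rw [coeff_X_pow_mul', if_neg (by omega), h.zero]
  rw [e1, zero_add]
  refine Finset.sum_congr rfl fun x _ => ?_
  rw [add_comm, coeff_X_pow_mul]

lemma pn_mul {N : R → ℝ} (h : SN N) (p q : Polynomial R) : pn N (p * q) ≤ pn N p * pn N q := by
  have e : p * q = ∑ i ∈ Finset.range (p.natDegree + 1), X ^ i * (C (p.coeff i) * q) := by
    conv_lhs => rw [p.as_sum_range_C_mul_X_pow]
    rw [Finset.sum_mul]
    exact Finset.sum_congr rfl fun i _ => by ring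
  rw [e, pn_range h (Nat.lt_succ_self p.natDegree), Finset.sum_mul]
  refine (pn_sum h _ _).trans (Finset.sum_le_sum fun i _ => ?_)
  rw [pn_X_pow_mul h]
  exact pn_C_mul h _ _

lemma pn_SN {N : R → ℝ} (h : SN N) : SN (pn N) :=
  ⟨pn_zero, pn_nonneg h, pn_add h, pn_neg h, pn_mul h⟩

lemma le_pn {N : R → ℝ} (h : SN N) (p : Polynomial R) (i : ℕ) : N (p.coeff i) ≤ pn N p := by
  rcases le_or_gt i p.natDegree with hi | hi
  · rw [pn_range h (Nat.lt_succ_self _)]
    exact Finset.single_le_sum (f := fun i => N (p.coeff i)) (fun i _ => h.nonneg _)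
      (Finset.mem_range.mpr (by omega))
  · rw [coeff_eq_zero_of_natDegree_lt hi, h.zero]
    exact pn_nonneg h p

lemma pn_C {N : R → ℝ} (h : SN N) (c : R) : pn N (C c) = N c := by
  rw [pn_range h (n := 1) (by rw [natDegree_C]; omega)]
  simp

lemma pn_one {N : R → ℝ} (h : SN N) (h1 : N 1 = 1) : pn N (1 : Polynomial R) = 1 := by
  rw [← C_1, pn_C h, h1]

lemma pn_X_pow {N : R → ℝ} (h : SN N) (h1 : N 1 = 1) (k : ℕ) :
    pn N (X ^ k : Polynomial R) = 1 := by
  rw [← mul_one (X ^ k : Polynomial R), pn_X_pow_mul h, pn_one h h1]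

lemma pn_X {N : R → ℝ} (h : SN N) (h1 : N 1 = 1) : pn N (X : Polynomial R) = 1 := by
  have := pn_X_pow h h1 1
  rwa [pow_one] at this

lemma SN.pow_le {N : R → ℝ} (h : SN N) (h1 : N 1 = 1) {a : R} {B : ℝ} (hB : N a ≤ B)
    (k : ℕ) : N (a ^ k) ≤ B ^ k := by
  induction k with
  | zero => simp [h1]
  | succ k ih =>
    rw [pow_succ, pow_succ]
    exact (h.mul _ _).trans (mul_le_mul ih hB (h.nonneg _) (pow_nonneg ((h.nonneg a).trans hB) _))

lemma pn_taylor {N : R → ℝ} (h : SN N) (h1 : N 1 = 1) {r : R} (hr : N r ≤ 1)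
    {p : Polynomial R} {d : ℕ} (hd : p.natDegree ≤ d) :
    pn N (taylor r p) ≤ 2 ^ d * pn N p := by
  have e : taylor r p = ∑ i ∈ Finset.range (p.natDegree + 1), C (p.coeff i) * (X + C r) ^ i := by
    conv_lhs => rw [p.as_sum_range_C_mul_X_pow]
    rw [map_sum]
    refine Finset.sum_congr rfl fun i _ => ?_
    rw [taylor_mul, taylor_C, taylor_pow, taylor_X]
  rw [e, pn_range h (Nat.lt_succ_self p.natDegree), Finset.mul_sum]
  refine (pn_sum h _ _).trans (Finset.sum_le_sum fun i hi => ?_)
  rw [Finset.mem_range] at hi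
  have h2 : pn N ((X + C r) ^ i) ≤ 2 ^ i := by
    refine (pn_SN h).pow_le (pn_one h h1) ?_ i
    have := pn_add h X (C r)
    rw [pn_X h h1, pn_C h] at this
    linarith
  have h3 : (2 : ℝ) ^ i ≤ 2 ^ d := pow_le_pow_right₀ (by norm_num) (by omega)
  calc pn N (C (p.coeff i) * (X + C r) ^ i) ≤ N (p.coeff i) * pn N ((X + C r) ^ i) := pn_C_mul h _ _
    _ ≤ N (p.coeff i) * 2 ^ d := mul_le_mul_of_nonneg_left (h2.trans h3) (h.nonneg _)
    _ = _ := mul_comm _ _

end general


end Pool.Agent.H106R2
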