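import Pool.Agent.H106R2.Iface
import Pool.Agent.H106R2.NormG

/-! `ℓ¹` norms of bivariate integer polynomials. -/

set_option autoImplicit false
set_option linter.unusedSectionVars false

open Polynomial

namespace Pool.Agent.H106R2

variable [Gc]

lemma SN_int : SN (fun c : ℤ => |(c : ℝ)|) :=
  ⟨by simp, fun a => abs_nonneg _, fun a b => by push_cast; exact abs_add_le _ _,
    fun a => by push_cast; exact abs_neg _, fun a b => by push_cast; exact (abs_mul _ _).le⟩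

lemma l1_eq : l1 = pn (fun c : ℤ => |(c : ℝ)|) := rfl

lemma SN_l1 : SN l1 := pn_SN SN_int

lemma l2_eq : l2 = pn l1 := rfl

lemma SN_l2 : SN l2 := pn_SN SN_l1

lemma l1_one : l1 1 = 1 := pn_one SN_int (by simp)

lemma l2_one : l2 1 = 1 := pn_one SN_l1 l1_one

lemma l1_X : l1 X = 1 := pn_X SN_int (by simp)

lemma l2_X_pow (k : ℕ) : l2 (X ^ k) = 1 := pn_X_pow SN_l1 l1_one k

lemma l1_X_pow (k : ℕ) : l1 (X ^ k) = 1 := pn_X_pow SN_int (by simp) k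

lemma l1_int (n : ℤ) : l1 (n : Polynomial ℤ) = |(n : ℝ)| := by
  have e : ((n : ℤ) : Polynomial ℤ) = C n := by simp
  rw [e, l1_eq, pn_C SN_int]

lemma l2_int (n : ℤ) : l2 (n : P2 ℤ) = |(n : ℝ)| := by
  have e : ((n : ℤ) : P2 ℤ) = C ((n : ℤ) : Polynomial ℤ) := by simp
  rw [e, l2_eq, pn_C SN_l1, l1_int]

lemma l1_ff : l1 (ff ℤ) ≤ hh := by
  unfold ff hh
  have t := SN_l1.add ((g3 : Polynomial ℤ) * X ^ 6 + (g2 : Polynomial ℤ) * X ^ 4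
    + (g1 : Polynomial ℤ) * X ^ 2) (g0 : Polynomial ℤ)
  have t1 := SN_l1.add ((g3 : Polynomial ℤ) * X ^ 6 + (g2 : Polynomial ℤ) * X ^ 4)
    ((g1 : Polynomial ℤ) * X ^ 2)
  have t2 := SN_l1.add ((g3 : Polynomial ℤ) * X ^ 6) ((g2 : Polynomial ℤ) * X ^ 4)
  have m3 := SN_l1.mul (g3 : Polynomial ℤ) (X ^ 6)
  have m2 := SN_l1.mul (g2 : Polynomial ℤ) (X ^ 4)
  have m1 := SN_l1.mul (g1 : Polynomial ℤ) (X ^ 2)
  rw [l1_X_pow, mul_one, l1_int] at m1 m2 m3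
  rw [l1_int] at t
  linarith

lemma l1_df : l1 (df ℤ) ≤ 6 * hh := by
  unfold df hh
  have t1 := SN_l1.add ((g3 : Polynomial ℤ) * (6 * X ^ 5) + (g2 : Polynomial ℤ) * (4 * X ^ 3))
    ((g1 : Polynomial ℤ) * (2 * X))
  have t2 := SN_l1.add ((g3 : Polynomial ℤ) * (6 * X ^ 5)) ((g2 : Polynomial ℤ) * (4 * X ^ 3))
  have m3 := SN_l1.mul (g3 : Polynomial ℤ) (6 * X ^ 5)
  have m2 := SN_l1.mul (g2 : Polynomial ℤ) (4 * X ^ 3)
  have m1 := SN_l1.mul (g1 : Polynomial ℤ) (2 * X)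
  have hc : ∀ (c : ℕ) (n : ℕ), l1 ((c : Polynomial ℤ) * X ^ n) ≤ c := by
    intro c n
    have := SN_l1.mul (c : Polynomial ℤ) (X ^ n)
    rw [l1_X_pow, mul_one] at this
    have e : ((c : ℕ) : Polynomial ℤ) = (((c : ℤ)) : Polynomial ℤ) := by simp
    refine this.trans ?_
    rw [e, l1_int]
    simp
  have c6 : l1 (6 * X ^ 5 : Polynomial ℤ) ≤ 6 := by simpa using hc 6 5
  have c4 : l1 (4 * X ^ 3 : Polynomial ℤ) ≤ 4 := by simpa using hc 4 3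
  have c2 : l1 (2 * X : Polynomial ℤ) ≤ 2 := by simpa using hc 2 1
  rw [l1_int] at m1 m2 m3
  have a0 := abs_nonneg ((g0 : ℤ) : ℝ)
  have a1 := abs_nonneg ((g1 : ℤ) : ℝ)
  have a2 := abs_nonneg ((g2 : ℤ) : ℝ)
  have a3 := abs_nonneg ((g3 : ℤ) : ℝ)
  have p3 := mul_le_mul_of_nonneg_left c6 a3
  have p2 := mul_le_mul_of_nonneg_left c4 a2
  have p1 := mul_le_mul_of_nonneg_left c2 a1
  linarith

lemma l2_f1 : l2 (f1 ℤ) ≤ hh := by
  rw [f1, l2_eq, pn_C SN_l1]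
  exact l1_ff

lemma l2_f2 : l2 (f2 ℤ) ≤ hh := by
  unfold f2 hh
  have t := SN_l2.add ((g3 : P2 ℤ) * X ^ 6 + (g2 : P2 ℤ) * X ^ 4
    + (g1 : P2 ℤ) * X ^ 2) (g0 : P2 ℤ)
  have t1 := SN_l2.add ((g3 : P2 ℤ) * X ^ 6 + (g2 : P2 ℤ) * X ^ 4)
    ((g1 : P2 ℤ) * X ^ 2)
  have t2 := SN_l2.add ((g3 : P2 ℤ) * X ^ 6) ((g2 : P2 ℤ) * X ^ 4)
  have m3 := SN_l2.mul (g3 : P2 ℤ) (X ^ 6)
  have m2 := SN_l2.mul (g2 : P2 ℤ) (X ^ 4)
  have m1 := SN_l2.mul (g1 : P2 ℤ) (X ^ 2)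
  rw [l2_X_pow, mul_one, l2_int] at m1 m2 m3
  rw [l2_int] at t
  linarith

lemma l2_DD : l2 (DD ℤ) ≤ hh ^ 2 := by
  have := SN_l2.mul (f1 ℤ) (f2 ℤ)
  have h1 := l2_f1
  have h2 := l2_f2
  have h3 := SN_l2.nonneg (f1 ℤ)
  have h4 := SN_l2.nonneg (f2 ℤ)
  rw [DD]
  nlinarith

lemma l2_two : l2 2 ≤ 2 := by
  have := SN_l2.add 1 1
  rw [l2_one, one_add_one_eq_two] at this
  linarith

lemma lR_nonneg (G : RR ℤ) : 0 ≤ lR G := by
  have h1 := SN_l2.nonneg G.re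
  have h2 := SN_l2.nonneg G.im
  have hp := one_le_hh
  rw [lR]; positivity

theorem lR_mul (G H : RR ℤ) : lR (G * H) ≤ lR G * lR H := by
  have a1 := SN_l2.nonneg G.re
  have a2 := SN_l2.nonneg G.im
  have a3 := SN_l2.nonneg H.re
  have a4 := SN_l2.nonneg H.im
  have hp := one_le_hh
  have b1 : l2 (G * H).re ≤ l2 G.re * l2 H.re + hh ^ 2 * (l2 G.im * l2 H.im) := by
    rw [QuadraticAlgebra.re_mul]
    refine (SN_l2.add _ _).trans (add_le_add (SN_l2.mul _ _) ?_)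
    rw [mul_assoc]
    refine (SN_l2.mul _ _).trans ?_
    exact mul_le_mul l2_DD (SN_l2.mul _ _) (SN_l2.nonneg _) (by positivity)
  have b2 : l2 (G * H).im ≤ l2 G.re * l2 H.im + l2 G.im * l2 H.re := by
    rw [QuadraticAlgebra.im_mul, zero_mul, zero_mul, add_zero]
    exact (SN_l2.add _ _).trans (add_le_add (SN_l2.mul _ _) (SN_l2.mul _ _))
  rw [lR, lR, lR]
  have b3 := mul_le_mul_of_nonneg_left b2 (by linarith : 0 ≤ hh)
  nlinarith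

lemma lR_P0 : lR (P0 ℤ) ≤ 4 * hh := by
  have hp := one_le_hh
  have h1 := SN_l2.add (f1 ℤ) (f2 ℤ)
  have h2 := l2_f1
  have h3 := l2_f2
  have h4 := mul_le_mul_of_nonneg_left l2_two (by linarith : 0 ≤ hh)
  simp only [lR, P0]
  linarith

lemma lR_P3 : lR (P3 ℤ) ≤ 4 * hh := by
  have hp := one_le_hh
  have hX3 : l2 (X ^ 3) = 1 := l2_X_pow 3
  have hX6 : l2 (X ^ 6) = 1 := l2_X_pow 6
  have hC : ∀ k : ℕ, l2 ((C X : P2 ℤ) ^ k) = 1 := fun k => by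
    rw [← C_pow, l2_eq, pn_C SN_l1, l1_X_pow]
  have h1 : l2 (f1 ℤ * X ^ 6) ≤ hh := by
    have := SN_l2.mul (f1 ℤ) (X ^ 6)
    rw [hX6, mul_one] at this
    exact this.trans l2_f1
  have h2 : l2 (f2 ℤ * (C X) ^ 6) ≤ hh := by
    have := SN_l2.mul (f2 ℤ) ((C X) ^ 6)
    rw [hC, mul_one] at this
    exact this.trans l2_f2
  have h3 : l2 (2 * (C X : P2 ℤ) ^ 3 * X ^ 3) ≤ 2 := by
    have e1 := SN_l2.mul (2 * (C X : P2 ℤ) ^ 3) (X ^ 3)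
    have e2 := SN_l2.mul 2 ((C X : P2 ℤ) ^ 3)
    rw [hX3, mul_one] at e1
    rw [hC, mul_one] at e2
    exact (e1.trans e2).trans l2_two
  have h4 := SN_l2.add (f1 ℤ * X ^ 6) (f2 ℤ * (C X) ^ 6)
  have h5 := mul_le_mul_of_nonneg_left h3 (by linarith : 0 ≤ hh)
  simp only [lR, P3]
  linarith

lemma lR_pow_mul {P : RR ℤ} (hP : lR P ≤ 4 * hh) (k : ℕ) (G : RR ℤ) :
    lR (P ^ k * G) ≤ (4 * hh) ^ k * lR G := by
  have hp := one_le_hh
  induction k with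
  | zero => simp
  | succ k ih =>
    have e : P ^ (k + 1) * G = P * (P ^ k * G) := by ring
    rw [e]
    calc lR (P * (P ^ k * G)) ≤ lR P * lR (P ^ k * G) := lR_mul _ _
      _ ≤ (4 * hh) * ((4 * hh) ^ k * lR G) := mul_le_mul hP ih (lR_nonneg _) (by positivity)
      _ = _ := by ring

theorem lR_P0_pow (k : ℕ) (G : RR ℤ) : lR (P0 ℤ ^ k * G) ≤ (4 * hh) ^ k * lR G :=
  lR_pow_mul lR_P0 k G

theorem lR_P3_pow (k : ℕ) (G : RR ℤ) : lR (P3 ℤ ^ k * G) ≤ (4 * hh) ^ k * lR G :=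
  lR_pow_mul lR_P3 k G

theorem l2_norm (G : RR ℤ) : l2 (G.re ^ 2 - DD ℤ * G.im ^ 2) ≤ lR G ^ 2 := by
  have a1 := SN_l2.nonneg G.re
  have a2 := SN_l2.nonneg G.im
  have b1 : l2 (G.re ^ 2) ≤ l2 G.re ^ 2 := by
    rw [sq, sq]; exact SN_l2.mul _ _
  have hp := one_le_hh
  have b2 : l2 (DD ℤ * G.im ^ 2) ≤ hh ^ 2 * l2 G.im ^ 2 := by
    refine (SN_l2.mul _ _).trans (mul_le_mul l2_DD ?_ (SN_l2.nonneg _) (by positivity))
    rw [sq, sq]; exact SN_l2.mul _ _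
  have b3 := pn_sub SN_l1 (G.re ^ 2) (DD ℤ * G.im ^ 2)
  rw [← l2_eq] at b3
  rw [lR]
  have b4 : 0 ≤ hh * (l2 G.re * l2 G.im) := by positivity
  nlinarith

theorem coeff_le_l2 (p : P2 ℤ) (i j : ℕ) : |(((p.coeff j).coeff i : ℤ) : ℝ)| ≤ l2 p :=
  (le_pn SN_int (p.coeff j) i).trans (le_pn SN_l1 p j)

lemma l2_taylor {p : P2 ℤ} {d : ℕ} (hd : p.natDegree ≤ d) : l2 (taylor X p) ≤ 2 ^ d * l2 p :=
  pn_taylor SN_l1 l1_one l1_X.le hd

theorem quot_bound {p q : P2 ℤ} {m d : ℕ} (h : p = dlt ℤ ^ m * q) (hd : p.natDegree ≤ d) :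
    l2 q ≤ 4 ^ d * l2 p := by
  rcases eq_or_ne q 0 with rfl | hq
  · rw [SN_l2.zero]
    exact mul_nonneg (by positivity) (SN_l2.nonneg _)
  have hdeg : q.natDegree ≤ d := by
    rw [h, natDegree_mul (pow_ne_zero _ dlt_ne) hq] at hd
    omega
  have ht : taylor X p = X ^ m * taylor X q := by
    have h1 : taylor X (dlt ℤ) = (X : P2 ℤ) := by simp [dlt, taylor_X, taylor_C]
    rw [h, taylor_mul, taylor_pow, h1]
  have hq1 : q = taylor (-X) (taylor X q) := by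
    rw [taylor_taylor, neg_add_cancel, taylor_zero]
  have hdeg' : (taylor (X : Polynomial ℤ) q).natDegree ≤ d := by
    rw [natDegree_taylor]; exact hdeg
  have s1 : l2 q ≤ 2 ^ d * l2 (taylor X q) := by
    conv_lhs => rw [hq1]
    refine pn_taylor SN_l1 l1_one ?_ hdeg'
    rw [SN_l1.neg]
    exact l1_X.le
  have s2 : l2 (taylor X q) = l2 (taylor X p) := by
    rw [ht, l2_eq, pn_X_pow_mul SN_l1]
  have s3 := l2_taylor hd
  calc l2 q ≤ 2 ^ d * l2 (taylor X q) := s1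
    _ ≤ 2 ^ d * (2 ^ d * l2 p) := by
        rw [s2]; exact mul_le_mul_of_nonneg_left s3 (by positivity)
    _ = 4 ^ d * l2 p := by
        rw [← mul_assoc, ← mul_pow]; norm_num

lemma l2_mono (c : ℤ) (i j : ℕ) : l2 (C (C c * X ^ i) * X ^ j) ≤ |(c : ℝ)| := by
  have h1 := SN_l2.mul (C (C c * X ^ i)) (X ^ j)
  rw [l2_X_pow, mul_one] at h1
  have h2 : l2 (C (C c * X ^ i)) = l1 (C c * X ^ i) := pn_C SN_l1 _
  have h3 := SN_l1.mul (C c) (X ^ i)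
  rw [l1_X_pow, mul_one] at h3
  have h4 : l1 (C c) = |(c : ℝ)| := pn_C SN_int _
  linarith

theorem lR_Gof {n₁ n₂ : ℕ} (c : Idx n₁ n₂ → ℤ) (B : ℝ) (hB : ∀ i, |(c i : ℝ)| ≤ B) :
    lR (Gof c) ≤ hh * (Fintype.card (Idx n₁ n₂)) * B := by
  have hp := one_le_hh
  have hB0 : 0 ≤ B := (abs_nonneg _).trans (hB (Sum.inl (0, 0)))
  have h1 : l2 (Gof c).re ≤ Fintype.card (Fin (n₁ + 1) × Fin (n₂ + 1)) * B := by
    refine (pn_sum SN_l1 _ _).trans ?_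
    refine (Finset.sum_le_sum fun i _ => (l2_mono _ _ _).trans (hB _)).trans ?_
    rw [Finset.sum_const, nsmul_eq_mul, Finset.card_univ]
  have h2 : l2 (Gof c).im ≤ Fintype.card (Fin (n₁ - 2) × Fin (n₂ - 2)) * B := by
    refine (pn_sum SN_l1 _ _).trans ?_
    refine (Finset.sum_le_sum fun i _ => (l2_mono _ _ _).trans (hB _)).trans ?_
    rw [Finset.sum_const, nsmul_eq_mul, Finset.card_univ]
  have h3 : (0 : ℝ) ≤ Fintype.card (Fin (n₁ + 1) × Fin (n₂ + 1)) * B := by positivity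
  rw [Fintype.card_sum, lR]
  push_cast
  have h4 := mul_le_mul_of_nonneg_left h2 (by linarith : 0 ≤ hh)
  nlinarith

lemma l1_cc (k : ℕ) {p : P2 ℤ} {d : ℕ} (hd : p.natDegree ≤ d) : l1 (cc k p) ≤ 2 ^ d * l2 p :=
  (le_pn SN_l1 (taylor X p) k).trans (l2_taylor hd)

lemma l1_LL (k : ℕ) {G : RR ℤ} {d : ℕ} (h1 : (P0 ℤ ^ (k / 2) * G).re.natDegree ≤ d)
    (h2 : (P0 ℤ ^ (k / 2) * G).im.natDegree ≤ d) :
    l1 (LL k G) ≤ 8 * (2 ^ d * lR (P0 ℤ ^ (k / 2) * G)) := by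
  have hp := one_le_hh
  have a1 := SN_l2.nonneg (P0 ℤ ^ (k / 2) * G).re
  have a2 := SN_l2.nonneg (P0 ℤ ^ (k / 2) * G).im
  have a3 : (0 : ℝ) < 2 ^ d := by positivity
  have b1 := l1_cc k h1
  have b2 := l1_cc k h2
  have b3 := l1_cc (k - 1) h2
  have hf : l1 (ff ℤ) ≤ hh := l1_ff
  have m1 := mul_nonneg a3.le a1
  have m2 := mul_nonneg a3.le a2
  have htwo : l1 (2 : Polynomial ℤ) ≤ 2 := by
    have := SN_l1.add 1 1
    rw [l1_one, one_add_one_eq_two] at this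
    linarith
  have c0 := SN_l1.nonneg (cc k (P0 ℤ ^ (k / 2) * G).re)
  have c1 := SN_l1.nonneg (cc k (P0 ℤ ^ (k / 2) * G).im)
  have c2 := SN_l1.nonneg (cc (k - 1) (P0 ℤ ^ (k / 2) * G).im)
  have d1 : l1 (ff ℤ * cc k (P0 ℤ ^ (k / 2) * G).im) ≤ hh * (2 ^ d * l2 (P0 ℤ ^ (k / 2) * G).im) :=
    (SN_l1.mul _ _).trans (mul_le_mul hf b2 c1 (by linarith))
  have m3 := mul_nonneg (by linarith : 0 ≤ hh) m2
  rw [LL, lR]
  split_ifs with hk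
  · have := SN_l1.add (cc k (P0 ℤ ^ (k / 2) * G).re) (ff ℤ * cc k (P0 ℤ ^ (k / 2) * G).im)
    nlinarith
  · have t1 := SN_l1.add (2 * cc k (P0 ℤ ^ (k / 2) * G).re + 2 * ff ℤ * cc k (P0 ℤ ^ (k / 2) * G).im)
      (df ℤ * cc (k - 1) (P0 ℤ ^ (k / 2) * G).im)
    have t2 := SN_l1.add (2 * cc k (P0 ℤ ^ (k / 2) * G).re) (2 * ff ℤ * cc k (P0 ℤ ^ (k / 2) * G).im)
    have t3 : l1 (2 * cc k (P0 ℤ ^ (k / 2) * G).re) ≤ 2 * (2 ^ d * l2 (P0 ℤ ^ (k / 2) * G).re) :=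
      (SN_l1.mul _ _).trans (mul_le_mul htwo b1 c0 (by norm_num))
    have t4 : l1 (2 * ff ℤ * cc k (P0 ℤ ^ (k / 2) * G).im)
        ≤ 2 * (hh * (2 ^ d * l2 (P0 ℤ ^ (k / 2) * G).im)) := by
      rw [mul_assoc]
      exact (SN_l1.mul _ _).trans (mul_le_mul htwo d1 (SN_l1.nonneg _) (by norm_num))
    have t5 : l1 (df ℤ * cc (k - 1) (P0 ℤ ^ (k / 2) * G).im)
        ≤ 6 * hh * (2 ^ d * l2 (P0 ℤ ^ (k / 2) * G).im) :=
      (SN_l1.mul _ _).trans (mul_le_mul l1_df b3 c2 (by linarith))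
    nlinarith

lemma BD_mono (c : ℤ) {i j n m : ℕ} (hi : i ≤ n) (hj : j ≤ m) :
    BD n m (C (C c * X ^ i) * X ^ j : P2 ℤ) := by
  refine (((BD_C (C c * X ^ i)).mono (n' := n) (m' := 0) ?_ le_rfl).mul
    (BD_X.pow j)).mono (by omega) (by omega)
  exact (natDegree_C_mul_X_pow_le c i).trans hi

lemma BD_sum {ι : Type} (s : Finset ι) (f : ι → P2 ℤ) {n m : ℕ} (h : ∀ i ∈ s, BD n m (f i)) :
    BD n m (∑ i ∈ s, f i) := by
  refine ⟨fun j => ?_, natDegree_sum_le_of_forall_le _ _ fun i hi => (h i hi).2⟩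
  rw [finsetSum_coeff]
  exact natDegree_sum_le_of_forall_le _ _ fun i hi => (h i hi).1 j

lemma BR_Gof' {n₁ n₂ : ℕ} (c : Idx n₁ n₂ → ℤ) : BR (n₁ + 3) (n₂ + 3) (Gof c) := by
  refine ⟨by omega, by omega, BD_sum _ _ fun i _ => ?_, BD_sum _ _ fun i _ => ?_⟩
  · have h1 := i.1.2
    have h2 := i.2.2
    exact BD_mono _ (by omega) (by omega)
  · have h1 := i.1.2
    have h2 := i.2.2
    exact BD_mono _ (by omega) (by omega)

lemma lR_single {n₁ n₂ : ℕ} (i : Idx n₁ n₂) : lR (Gof (S := ℤ) (Pi.single i 1)) ≤ hh := by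
  have hp := one_le_hh
  have h0 : ∀ k l : ℕ, (C (C (0 : ℤ) * X ^ k) * X ^ l : P2 ℤ) = 0 := by
    intro k l; simp
  have hz := SN_l2.zero
  rcases i with i | i
  · have e1 : (Gof (S := ℤ) (n₁ := n₁) (n₂ := n₂) (Pi.single (Sum.inl i) 1)).re
        = C (C (1 : ℤ) * X ^ (i.1 : ℕ)) * X ^ (i.2 : ℕ) := by
      rw [Gof]
      dsimp only
      rw [Finset.sum_eq_single i]
      · rw [Pi.single_eq_same]
      · intro b _ hb
        rw [Pi.single_eq_of_ne (by simpa using hb), h0]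
      · intro h; exact absurd (Finset.mem_univ _) h
    have e2 : (Gof (S := ℤ) (n₁ := n₁) (n₂ := n₂) (Pi.single (Sum.inl i) 1)).im = 0 := by
      rw [Gof]
      dsimp only
      refine Finset.sum_eq_zero fun b _ => ?_
      rw [Pi.single_eq_of_ne (by simp), h0]
    have h1 := l2_mono 1 (i.1 : ℕ) (i.2 : ℕ)
    have h2 := SN_l2.nonneg (C (C (1 : ℤ) * X ^ (i.1 : ℕ)) * X ^ (i.2 : ℕ))
    rw [lR, e1, e2, hz]
    norm_num at h1 h2 ⊢
    nlinarith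
  · have e1 : (Gof (S := ℤ) (n₁ := n₁) (n₂ := n₂) (Pi.single (Sum.inr i) 1)).im
        = C (C (1 : ℤ) * X ^ (i.1 : ℕ)) * X ^ (i.2 : ℕ) := by
      rw [Gof]
      dsimp only
      rw [Finset.sum_eq_single i]
      · rw [Pi.single_eq_same]
      · intro b _ hb
        rw [Pi.single_eq_of_ne (by simpa using hb), h0]
      · intro h; exact absurd (Finset.mem_univ _) h
    have e2 : (Gof (S := ℤ) (n₁ := n₁) (n₂ := n₂) (Pi.single (Sum.inr i) 1)).re = 0 := by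
      rw [Gof]
      dsimp only
      refine Finset.sum_eq_zero fun b _ => ?_
      rw [Pi.single_eq_of_ne (by simp), h0]
    have h1 := l2_mono 1 (i.1 : ℕ) (i.2 : ℕ)
    have h2 := SN_l2.nonneg (C (C (1 : ℤ) * X ^ (i.1 : ℕ)) * X ^ (i.2 : ℕ))
    rw [lR, e1, e2, hz]
    norm_num at h1 h2 ⊢
    nlinarith

theorem entry_bound : ∃ C : ℝ, 0 < C ∧ ∀ (n₁ n₂ e D : ℕ) (kd : Fin (2 * e) × Fin D)
    (i : Idx n₁ n₂), |((Amat n₁ n₂ e D kd i : ℤ) : ℝ)| ≤ Real.exp (C * (n₂ + e)) := by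
  have hp := one_le_hh
  have hL : 0 ≤ Real.log hh := Real.log_nonneg hp
  refine ⟨16 + 2 * Real.log hh, by linarith, fun n₁ n₂ e D kd i => ?_⟩
  have hk : (kd.1 : ℕ) < 2 * e := kd.1.2
  have he : 1 ≤ e := by omega
  set k : ℕ := (kd.1 : ℕ) with hkdef
  set G : RR ℤ := Gof (S := ℤ) (Pi.single i 1) with hG
  have hBR : BR (n₁ + 3 + 6 * (k / 2)) (n₂ + 3 + 6 * (k / 2)) (P0 ℤ ^ (k / 2) * G) :=
    BR_P0.pow_mul (BR_Gof' _)
  have hk2 : k / 2 ≤ e := by omega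
  have h1 : (P0 ℤ ^ (k / 2) * G).re.natDegree ≤ n₂ + 3 + 6 * e := by
    have := hBR.2.2.1.2; omega
  have h2 : (P0 ℤ ^ (k / 2) * G).im.natDegree ≤ n₂ + 3 + 6 * e := by
    have := hBR.2.2.2.2; omega
  have h3 := l1_LL k h1 h2
  have h4 : lR (P0 ℤ ^ (k / 2) * G) ≤ (4 * hh) ^ e * hh := by
    refine (lR_P0_pow _ _).trans ?_
    exact mul_le_mul (pow_le_pow_right₀ (by linarith) hk2) (lR_single i) (lR_nonneg _)
      (by positivity)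
  have h5 : |((Amat n₁ n₂ e D kd i : ℤ) : ℝ)| ≤ l1 (LL k G) := le_pn SN_int (LL k G) _
  have h6 : 8 * (2 ^ (n₂ + 3 + 6 * e) * lR (P0 ℤ ^ (k / 2) * G))
      ≤ (2 : ℝ) ^ (n₂ + 16 * e) * hh ^ (2 * e) := by
    have p1 : (0 : ℝ) < 2 ^ (n₂ + 3 + 6 * e) := by positivity
    have q1 : hh ^ e * hh ≤ hh ^ (2 * e) := by
      rw [← pow_succ]
      exact pow_le_pow_right₀ hp (by omega)
    calc 8 * (2 ^ (n₂ + 3 + 6 * e) * lR (P0 ℤ ^ (k / 2) * G))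
        ≤ 8 * (2 ^ (n₂ + 3 + 6 * e) * ((4 * hh) ^ e * hh)) := by gcongr
      _ = (2 : ℝ) ^ (3 + (n₂ + 3 + 6 * e) + 2 * e) * (hh ^ e * hh) := by
        have e1 : (2 : ℝ) ^ (3 + (n₂ + 3 + 6 * e) + 2 * e)
            = 8 * 2 ^ (n₂ + 3 + 6 * e) * 4 ^ e := by
          rw [pow_add, pow_add, pow_mul (2 : ℝ) 2 e]; norm_num
        rw [e1, mul_pow]; ring
      _ ≤ (2 : ℝ) ^ (n₂ + 16 * e) * hh ^ (2 * e) := by
        refine mul_le_mul (pow_le_pow_right₀ (by norm_num) (by omega)) q1 (by positivity)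
          (by positivity)
  have h7 : (2 : ℝ) ^ (n₂ + 16 * e) * hh ^ (2 * e) ≤ Real.exp ((16 + 2 * Real.log hh) * (n₂ + e)) := by
    have e1 : (2 : ℝ) ≤ Real.exp 1 := by
      have := Real.add_one_le_exp (1 : ℝ); linarith
    have e2 : hh = Real.exp (Real.log hh) := (Real.exp_log (by linarith)).symm
    calc (2 : ℝ) ^ (n₂ + 16 * e) * hh ^ (2 * e)
        ≤ Real.exp 1 ^ (n₂ + 16 * e) * Real.exp (Real.log hh) ^ (2 * e) := by
          rw [← e2]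
          exact mul_le_mul_of_nonneg_right (pow_le_pow_left₀ (by norm_num) e1 _) (by positivity)
      _ = Real.exp ((n₂ + 16 * e : ℕ) * 1 + (2 * e : ℕ) * Real.log hh) := by
          rw [Real.exp_add, Real.exp_nat_mul, Real.exp_nat_mul]
      _ ≤ _ := by
        apply Real.exp_le_exp.mpr
        push_cast
        have : (0 : ℝ) ≤ n₂ := Nat.cast_nonneg _
        have : (0 : ℝ) ≤ e := Nat.cast_nonneg _
        nlinarith [mul_nonneg hL (Nat.cast_nonneg n₂ : (0:ℝ) ≤ n₂)]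
  linarith

end Pool.Agent.H106R2
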