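import Pool.Agent.H106R2.G0
import Pool.Agent.H437R2.Man.V2

/-! Local expansions of the curve `y² = f(x)` in the coordinate `x = a + 4 f(a) T`. -/

set_option autoImplicit false
set_option linter.unusedSectionVars false

open PowerSeries

namespace Pool.Agent.H106R2

open Pool.Agent.H437R2.Man (wseq wseq_zero wseq_sq Ba Bn Ba_mono Ba_C Bn_mono Bn_C Ba_wseq Bn_wseq)

variable [Gc]

section curve

variable {K : Type} [Field K]

/-- divided derivatives of the sextic -/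
def d1 (a : K) : K := 6 * (g3 : K) * a ^ 5 + 4 * (g2 : K) * a ^ 3 + 2 * (g1 : K) * a
def d2 (a : K) : K := 15 * (g3 : K) * a ^ 4 + 6 * (g2 : K) * a ^ 2 + (g1 : K)
def d3 (a : K) : K := 20 * (g3 : K) * a ^ 3 + 4 * (g2 : K) * a
def d4 (a : K) : K := 15 * (g3 : K) * a ^ 2 + (g2 : K)
def d5 (a : K) : K := 6 * (g3 : K) * a
def d6 : K := (g3 : K)

/-- the `x`-coordinate series -/
noncomputable def xs (a : K) : PowerSeries K := C a + C (4 * fv a) * X

noncomputable def gamS (a : K) : PowerSeries K :=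
  C (d1 a) * X ^ 1 + C (d2 a * (4 * fv a)) * X ^ 2 +
  C (d3 a * (4 * fv a) ^ 2) * X ^ 3 + C (d4 a * (4 * fv a) ^ 3) * X ^ 4 +
  C (d5 a * (4 * fv a) ^ 4) * X ^ 5 + C (d6 * (4 * fv a) ^ 5) * X ^ 6

noncomputable def gam (a : K) (n : ℕ) : K := coeff n (gamS a)

lemma mk_gam (a : K) : PowerSeries.mk (gam a) = gamS a := by
  ext n
  simp [gam]

lemma gam_zero (a : K) : gam a 0 = 0 := by
  simp [gam, gamS, coeff_zero_eq_constantCoeff]

/-- the square root series -/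
noncomputable def ss (a : K) : PowerSeries K := 1 + C 2 * PowerSeries.mk (wseq (gam a))

lemma ss_sq (a : K) : C (fv a) * ss a ^ 2 = fv (xs a) := by
  have h := wseq_sq (gam a) (gam_zero a)
  rw [mk_gam] at h
  have h1 : ss a ^ 2 = 1 + C 4 * gamS a := by
    rw [← h, ss]
    have : (C (4:K) : PowerSeries K) = C 2 ^ 2 := by rw [← map_pow]; norm_num
    rw [this]
    have h2 : (C (2:K) : PowerSeries K) = 2 := map_ofNat (PowerSeries.C (R := K)) 2
    rw [h2]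
    ring
  rw [h1]
  unfold gamS xs fv d1 d2 d3 d4 d5 d6
  simp only [map_mul, map_add, map_pow, map_ofNat, map_intCast]
  ring

lemma const_xs (a : K) : constantCoeff (xs a) = a := by simp [xs]

lemma const_ss (a : K) : constantCoeff (ss a) = 1 := by
  rw [ss, map_add, map_mul, ← coeff_zero_eq_constantCoeff_apply (PowerSeries.mk _), coeff_mk, wseq_zero]
  simp

variable {v : AbsoluteValue K ℝ} {a b : K}

/-- monomial series -/
noncomputable def us (a b : K) (p ε : ℕ) : PowerSeries K := xs a ^ p * (C b * ss a) ^ ε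

lemma arch_int (hv : ∀ n : ℕ, v (n : K) = n) (z : ℤ) : v (z : K) = |(z : ℝ)| := by
  obtain ⟨k, rfl | rfl⟩ := Int.eq_nat_or_neg z
  · simp [hv]
  · simp [hv]

lemma nonarch_int (hn : ∀ n : ℕ, v (n : K) ≤ 1) (z : ℤ) : v (z : K) ≤ 1 := by
  rcases Int.natAbs_eq z with h | h
  · rw [h]; simpa using hn z.natAbs
  · rw [h]; simpa using hn z.natAbs

/-- archimedean bound of a monomial -/
lemma arch_mon (hv : ∀ n : ℕ, v (n : K) = n) (c : ℕ) (z : ℤ) {j i : ℕ} (hji : j ≤ i) :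
    v ((c : K) * (z : K) * a ^ j) ≤ c * |(z : ℝ)| * max (v a) 1 ^ i := by
  rw [map_mul, map_mul, map_pow, hv, arch_int hv]
  have h1 : (1 : ℝ) ≤ max (v a) 1 := le_max_right _ _
  have h2 : v a ^ j ≤ max (v a) 1 ^ i :=
    (pow_le_pow_left₀ (v.nonneg _) (le_max_left _ _) j).trans (pow_le_pow_right₀ h1 hji)
  exact mul_le_mul_of_nonneg_left h2 (by positivity)

/-- nonarchimedean bound of a monomial -/
lemma nonarch_mon (hn : ∀ n : ℕ, v (n : K) ≤ 1) (c : ℕ) (z : ℤ) {j i : ℕ} (hji : j ≤ i) :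
    v ((c : K) * (z : K) * a ^ j) ≤ max (v a) 1 ^ i := by
  rw [map_mul, map_mul, map_pow]
  have h1 : (1 : ℝ) ≤ max (v a) 1 := le_max_right _ _
  have h2 : v a ^ j ≤ max (v a) 1 ^ i :=
    (pow_le_pow_left₀ (v.nonneg _) (le_max_left _ _) j).trans (pow_le_pow_right₀ h1 hji)
  have h3 : v (c : K) * v (z : K) ≤ 1 :=
    mul_le_one₀ (hn c) (v.nonneg _) (nonarch_int hn z)
  calc v (c : K) * v (z : K) * v a ^ j ≤ 1 * max (v a) 1 ^ i :=
        mul_le_mul h3 h2 (by positivity) zero_le_one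
    _ = _ := one_mul _

lemma arch_fv (hv : ∀ n : ℕ, v (n : K) = n) : v (fv a) ≤ hh * max (v a) 1 ^ 6 := by
  have m3 := arch_mon (a := a) hv 1 g3 (j := 6) (i := 6) le_rfl
  have m2 := arch_mon (a := a) hv 1 g2 (j := 4) (i := 6) (by norm_num)
  have m1 := arch_mon (a := a) hv 1 g1 (j := 2) (i := 6) (by norm_num)
  have m0 := arch_mon (a := a) hv 1 g0 (j := 0) (i := 6) (by norm_num)
  simp only [Nat.cast_one, one_mul, pow_zero, mul_one] at m0 m1 m2 m3
  unfold fv hh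
  have t1 := v.add_le ((g3 : K) * a ^ 6 + (g2 : K) * a ^ 4 + (g1 : K) * a ^ 2) (g0 : K)
  have t2 := v.add_le ((g3 : K) * a ^ 6 + (g2 : K) * a ^ 4) ((g1 : K) * a ^ 2)
  have t3 := v.add_le ((g3 : K) * a ^ 6) ((g2 : K) * a ^ 4)
  linarith

lemma arch_ds (hv : ∀ n : ℕ, v (n : K) = n) :
    v (d1 a) ≤ 6 * hh * max (v a) 1 ^ 5 ∧ v (d2 a) ≤ 15 * hh * max (v a) 1 ^ 4 ∧
    v (d3 a) ≤ 20 * hh * max (v a) 1 ^ 3 ∧ v (d4 a) ≤ 15 * hh * max (v a) 1 ^ 2 ∧
    v (d5 a) ≤ 6 * hh * max (v a) 1 ^ 1 ∧ v (d6 : K) ≤ 1 * hh * max (v a) 1 ^ 0 := by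
  have hX : (1 : ℝ) ≤ max (v a) 1 := le_max_right _ _
  have a0 := abs_nonneg ((g0 : ℤ) : ℝ)
  have a1 := abs_nonneg ((g1 : ℤ) : ℝ)
  have a2 := abs_nonneg ((g2 : ℤ) : ℝ)
  have a3 := abs_nonneg ((g3 : ℤ) : ℝ)
  refine ⟨?_, ?_, ?_, ?_, ?_, ?_⟩
  · have m3 := arch_mon (a := a) hv 6 g3 (j := 5) (i := 5) le_rfl
    have m2 := arch_mon (a := a) hv 4 g2 (j := 3) (i := 5) (by norm_num)
    have m1 := arch_mon (a := a) hv 2 g1 (j := 1) (i := 5) (by norm_num)
    push_cast at m1 m2 m3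
    rw [pow_one] at m1
    have t1 := v.add_le (6 * (g3 : K) * a ^ 5 + 4 * (g2 : K) * a ^ 3) (2 * (g1 : K) * a)
    have t2 := v.add_le (6 * (g3 : K) * a ^ 5) (4 * (g2 : K) * a ^ 3)
    unfold d1 hh
    have p : 0 ≤ max (v a) 1 ^ 5 := by positivity
    nlinarith [mul_nonneg a0 p, mul_nonneg a1 p, mul_nonneg a2 p, mul_nonneg a3 p]
  · have m3 := arch_mon (a := a) hv 15 g3 (j := 4) (i := 4) le_rfl
    have m2 := arch_mon (a := a) hv 6 g2 (j := 2) (i := 4) (by norm_num)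
    have m1 := arch_mon (a := a) hv 1 g1 (j := 0) (i := 4) (by norm_num)
    push_cast at m1 m2 m3
    rw [pow_zero, mul_one, one_mul] at m1
    have t1 := v.add_le (15 * (g3 : K) * a ^ 4 + 6 * (g2 : K) * a ^ 2) (g1 : K)
    have t2 := v.add_le (15 * (g3 : K) * a ^ 4) (6 * (g2 : K) * a ^ 2)
    unfold d2 hh
    have p : 0 ≤ max (v a) 1 ^ 4 := by positivity
    nlinarith [mul_nonneg a0 p, mul_nonneg a1 p, mul_nonneg a2 p, mul_nonneg a3 p]
  · have m3 := arch_mon (a := a) hv 20 g3 (j := 3) (i := 3) le_rfl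
    have m2 := arch_mon (a := a) hv 4 g2 (j := 1) (i := 3) (by norm_num)
    push_cast at m2 m3
    rw [pow_one] at m2
    have t1 := v.add_le (20 * (g3 : K) * a ^ 3) (4 * (g2 : K) * a)
    unfold d3 hh
    have p : 0 ≤ max (v a) 1 ^ 3 := by positivity
    nlinarith [mul_nonneg a0 p, mul_nonneg a1 p, mul_nonneg a2 p, mul_nonneg a3 p]
  · have m3 := arch_mon (a := a) hv 15 g3 (j := 2) (i := 2) le_rfl
    have m2 := arch_mon (a := a) hv 1 g2 (j := 0) (i := 2) (by norm_num)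
    push_cast at m2 m3
    rw [pow_zero, mul_one, one_mul] at m2
    have t1 := v.add_le (15 * (g3 : K) * a ^ 2) (g2 : K)
    unfold d4 hh
    have p : 0 ≤ max (v a) 1 ^ 2 := by positivity
    nlinarith [mul_nonneg a0 p, mul_nonneg a1 p, mul_nonneg a2 p, mul_nonneg a3 p]
  · have m3 := arch_mon (a := a) hv 6 g3 (j := 1) (i := 1) le_rfl
    push_cast at m3
    rw [pow_one, pow_one] at m3
    unfold d5 hh
    rw [pow_one]
    have p : 0 ≤ max (v a) 1 := by positivity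
    nlinarith [mul_nonneg a0 p, mul_nonneg a1 p, mul_nonneg a2 p, mul_nonneg a3 p]
  · unfold d6 hh
    rw [arch_int hv]
    linarith

lemma nonarch_fv (hv : IsNonarchimedean v) (hn : ∀ n : ℕ, v (n : K) ≤ 1) :
    v (fv a) ≤ max (v a) 1 ^ 6 := by
  have m3 := nonarch_mon (a := a) hn 1 g3 (j := 6) (i := 6) le_rfl
  have m2 := nonarch_mon (a := a) hn 1 g2 (j := 4) (i := 6) (by norm_num)
  have m1 := nonarch_mon (a := a) hn 1 g1 (j := 2) (i := 6) (by norm_num)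
  have m0 := nonarch_mon (a := a) hn 1 g0 (j := 0) (i := 6) (by norm_num)
  simp only [Nat.cast_one, one_mul, pow_zero, mul_one] at m0 m1 m2 m3
  unfold fv
  exact (hv _ _).trans (max_le ((hv _ _).trans (max_le ((hv _ _).trans (max_le m3 m2)) m1)) m0)

lemma nonarch_ds (hv : IsNonarchimedean v) (hn : ∀ n : ℕ, v (n : K) ≤ 1) :
    v (d1 a) ≤ max (v a) 1 ^ 5 ∧ v (d2 a) ≤ max (v a) 1 ^ 4 ∧
    v (d3 a) ≤ max (v a) 1 ^ 3 ∧ v (d4 a) ≤ max (v a) 1 ^ 2 ∧
    v (d5 a) ≤ max (v a) 1 ^ 1 ∧ v (d6 : K) ≤ max (v a) 1 ^ 0 := by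
  refine ⟨?_, ?_, ?_, ?_, ?_, ?_⟩
  · have m3 := nonarch_mon (a := a) hn 6 g3 (j := 5) (i := 5) le_rfl
    have m2 := nonarch_mon (a := a) hn 4 g2 (j := 3) (i := 5) (by norm_num)
    have m1 := nonarch_mon (a := a) hn 2 g1 (j := 1) (i := 5) (by norm_num)
    push_cast at m1 m2 m3
    rw [pow_one] at m1
    unfold d1
    exact (hv _ _).trans (max_le ((hv _ _).trans (max_le m3 m2)) m1)
  · have m3 := nonarch_mon (a := a) hn 15 g3 (j := 4) (i := 4) le_rfl
    have m2 := nonarch_mon (a := a) hn 6 g2 (j := 2) (i := 4) (by norm_num)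
    have m1 := nonarch_mon (a := a) hn 1 g1 (j := 0) (i := 4) (by norm_num)
    push_cast at m1 m2 m3
    rw [pow_zero, mul_one, one_mul] at m1
    unfold d2
    exact (hv _ _).trans (max_le ((hv _ _).trans (max_le m3 m2)) m1)
  · have m3 := nonarch_mon (a := a) hn 20 g3 (j := 3) (i := 3) le_rfl
    have m2 := nonarch_mon (a := a) hn 4 g2 (j := 1) (i := 3) (by norm_num)
    push_cast at m2 m3
    rw [pow_one] at m2
    unfold d3
    exact (hv _ _).trans (max_le m3 m2)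
  · have m3 := nonarch_mon (a := a) hn 15 g3 (j := 2) (i := 2) le_rfl
    have m2 := nonarch_mon (a := a) hn 1 g2 (j := 0) (i := 2) (by norm_num)
    push_cast at m2 m3
    rw [pow_zero, mul_one, one_mul] at m2
    unfold d4
    exact (hv _ _).trans (max_le m3 m2)
  · have m3 := nonarch_mon (a := a) hn 6 g3 (j := 1) (i := 1) le_rfl
    push_cast at m3
    rw [pow_one, pow_one] at m3
    unfold d5
    rw [pow_one]
    exact m3
  · unfold d6
    rw [pow_zero]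
    exact nonarch_int hn _

lemma arch_us (hv : ∀ n : ℕ, v (n : K) = n) (hab : b ^ 2 = fv a) (p ε j : ℕ) :
    v (coeff j (us a b p ε)) ≤ (2 * max (v a) 1) ^ p * (4 * hh * max (v a) 1 ^ 3) ^ ε *
      (1000 * hh * max (v a) 1 ^ 5) ^ j := by
  have hp1 := one_le_hh
  obtain ⟨q1, q2, q3, q4, q5, q6⟩ := arch_ds (a := a) hv
  have hF := arch_fv (a := a) hv
  set A := max (v a) 1 with hA
  have hA1 : 1 ≤ A := le_max_right _ _
  have hA0 : 0 < A := by linarith
  have hva : v a ≤ A := le_max_left _ _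
  have hv0 : 0 ≤ v a := v.nonneg _
  have hH0 : 0 < hh := by linarith
  have h4 : v (4 : K) = 4 := by exact_mod_cast hv 4
  have h2 : v (2 : K) = 2 := by exact_mod_cast hv 2
  have h4F : v (4 * fv a) ≤ 4 * hh * A ^ 6 := by
    rw [map_mul, h4]; linarith
  set G := v (4 * fv a) with hG
  have hG0 : 0 ≤ G := v.nonneg _
  set ρ : ℝ := 1 / (1000 * hh * A ^ 5) with hρ
  have hρ0 : 0 < ρ := by positivity
  have hρA : hh * A ^ 5 * ρ = 1 / 1000 := by rw [hρ]; field_simp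
  have key : ∀ (u : K) (c : ℝ) (i k : ℕ), 0 ≤ c → i + k + 1 = 6 → v u ≤ c * hh * A ^ i →
      (v u * G ^ k) * ρ ^ (k + 1) ≤ c * 4 ^ k / 1000 ^ (k+1) := by
    intro u c i k hc hik hu
    have e2 : G ^ k ≤ (4 * hh * A ^ 6) ^ k := pow_le_pow_left₀ hG0 h4F k
    calc (v u * G ^ k) * ρ ^ (k + 1) ≤ (c * hh * A ^ i * (4 * hh * A ^ 6) ^ k) * ρ ^ (k+1) := by
          gcongr
      _ = c * 4 ^ k * (hh * A ^ 5 * ρ) ^ (k+1) := by
          have : i = 5 - k := by omega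
          have e3 : A ^ i * (A ^ 6) ^ k = (A ^ 5) ^ (k+1) := by
            rw [← pow_mul, ← pow_mul, ← pow_add]
            congr 1
            omega
          have e4 : hh * hh ^ k = hh ^ (k+1) := (pow_succ' hh k).symm
          calc c * hh * A ^ i * (4 * hh * A ^ 6) ^ k * ρ ^ (k + 1)
              = c * 4 ^ k * (hh * hh ^ k) * (A ^ i * (A ^ 6) ^ k) * ρ ^ (k+1) := by
                rw [mul_pow (4 * hh), mul_pow 4]; ring
            _ = _ := by rw [e3, e4]; ring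
      _ = _ := by rw [hρA]; rw [div_pow, one_pow]; ring
  have hgam : Ba v ρ (1/8) (PowerSeries.mk (gam a)) := by
    rw [mk_gam, gamS]
    have b1 := Ba_mono v ρ 1 (d1 a) hρ0.le
    have b2 := Ba_mono v ρ 2 (d2 a * (4 * fv a)) hρ0.le
    have b3 := Ba_mono v ρ 3 (d3 a * (4 * fv a) ^ 2) hρ0.le
    have b4 := Ba_mono v ρ 4 (d4 a * (4 * fv a) ^ 3) hρ0.le
    have b5 := Ba_mono v ρ 5 (d5 a * (4 * fv a) ^ 4) hρ0.le
    have b6 := Ba_mono v ρ 6 (d6 * (4 * fv a) ^ 5) hρ0.le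
    refine (((((b1.add b2 hρ0.le).add b3 hρ0.le).add b4 hρ0.le).add b5 hρ0.le).add b6 hρ0.le).mono ?_
    have k1 := key (d1 a) 6 5 0 (by norm_num) rfl q1
    have k2 := key (d2 a) 15 4 1 (by norm_num) rfl q2
    have k3 := key (d3 a) 20 3 2 (by norm_num) rfl q3
    have k4 := key (d4 a) 15 2 3 (by norm_num) rfl q4
    have k5 := key (d5 a) 6 1 4 (by norm_num) rfl q5
    have k6 := key d6 1 0 5 (by norm_num) rfl q6
    rw [map_mul v (d2 a), map_mul v (d3 a), map_mul v (d4 a), map_mul v (d5 a), map_mul v d6,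
      map_pow, map_pow, map_pow, map_pow, ← hG]
    norm_num at k1 k2 k3 k4 k5 k6 ⊢
    linarith
  have hW := Ba_wseq hρ0.le (gam a) hgam
  have hss : Ba v ρ (3/2) (ss a) := by
    rw [ss]
    have c1 : Ba v ρ 1 (1 : PowerSeries K) := by simpa using Ba_C v ρ (1:K) hρ0.le
    have c2 : Ba v ρ 2 (C (2:K)) := by simpa [h2] using Ba_C v ρ (2:K) hρ0.le
    refine (c1.add (c2.mul hρ0.le hW) hρ0.le).mono (by norm_num)
  have hb : v b ≤ hh * A ^ 3 := by
    have : v b ^ 2 ≤ (hh * A ^ 3) ^ 2 := by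
      rw [← map_pow, hab]
      refine le_trans hF ?_
      have e : (hh * A ^ 3) ^ 2 = hh * (hh * A ^ 6) := by ring
      rw [e]
      exact le_mul_of_one_le_left (by positivity) hp1
    exact le_of_sq_le_sq this (by positivity)
  have hbs : Ba v ρ (4 * hh * A ^ 3) (C b * ss a) := by
    refine ((Ba_C v ρ b hρ0.le).mul hρ0.le hss).mono ?_
    have : 0 ≤ hh * A ^ 3 := by positivity
    nlinarith
  have hxs : Ba v ρ (2 * A) (xs a) := by
    rw [xs]
    have c1 := Ba_C v ρ a hρ0.le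
    have c2 := Ba_mono v ρ 1 (4 * fv a) hρ0.le
    rw [pow_one, pow_one, ← hG] at c2
    refine (c1.add c2 hρ0.le).mono ?_
    have : G * ρ ≤ 4 * hh * A ^ 6 * ρ := mul_le_mul_of_nonneg_right h4F hρ0.le
    have e : 4 * hh * A ^ 6 * ρ = 4 / 1000 * A := by
      calc 4 * hh * A ^ 6 * ρ = 4 * A * (hh * A ^ 5 * ρ) := by ring
        _ = _ := by rw [hρA]; ring
    linarith
  have hu : Ba v ρ ((2 * A) ^ p * (4 * hh * A ^ 3) ^ ε) (us a b p ε) :=
    (hxs.pow hρ0.le p).mul hρ0.le (hbs.pow hρ0.le ε)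
  have := hu.coeff hρ0.le j
  have hρj : ρ ^ j * (1000 * hh * A ^ 5) ^ j = 1 := by
    rw [← mul_pow, hρ, one_div, inv_mul_cancel₀ (by positivity), one_pow]
  calc v (coeff j (us a b p ε)) = (v (coeff j (us a b p ε)) * ρ ^ j) * (1000 * hh * A ^ 5) ^ j := by
        rw [mul_assoc, hρj, mul_one]
    _ ≤ _ := mul_le_mul_of_nonneg_right this (by positivity)

lemma nonarch_us (hv : IsNonarchimedean v) (hn : ∀ n : ℕ, v (n : K) ≤ 1)
    (hab : b ^ 2 = fv a) (p ε j : ℕ) :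
    v (coeff j (us a b p ε)) ≤ (max (v a) 1) ^ p * (max (v a) 1 ^ 3) ^ ε *
      (max (v a) 1 ^ 5) ^ j := by
  obtain ⟨q1, q2, q3, q4, q5, q6⟩ := nonarch_ds (a := a) hv hn
  have hF := nonarch_fv (a := a) hv hn
  set A := max (v a) 1 with hA
  have hA1 : 1 ≤ A := le_max_right _ _
  have hA0 : 0 < A := by linarith
  have hva : v a ≤ A := le_max_left _ _
  have hv0 : 0 ≤ v a := v.nonneg _
  have h4 : v (4 : K) ≤ 1 := by exact_mod_cast hn 4
  have h2 : v (2 : K) ≤ 1 := by exact_mod_cast hn 2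
  have h4F : v (4 * fv a) ≤ A ^ 6 := by
    rw [map_mul]
    calc v 4 * v (fv a) ≤ 1 * v (fv a) := mul_le_mul_of_nonneg_right h4 (v.nonneg _)
      _ ≤ _ := by rw [one_mul]; exact hF
  set G := v (4 * fv a) with hG
  have hG0 : 0 ≤ G := v.nonneg _
  set ρ : ℝ := 1 / (A ^ 5) with hρ
  have hρ0 : 0 < ρ := by positivity
  have hρA : A ^ 5 * ρ = 1 := by rw [hρ]; field_simp
  have key : ∀ (u : K) (i k : ℕ), i + k + 1 = 6 → v u ≤ A ^ i →
      (v u * G ^ k) * ρ ^ (k + 1) ≤ 1 := by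
    intro u i k hik hu
    have e2 : G ^ k ≤ (A ^ 6) ^ k := pow_le_pow_left₀ hG0 h4F k
    calc (v u * G ^ k) * ρ ^ (k + 1) ≤ (A ^ i * (A ^ 6) ^ k) * ρ ^ (k+1) := by
          gcongr
      _ = (A ^ 5 * ρ) ^ (k+1) := by
          have e3 : A ^ i * (A ^ 6) ^ k = (A ^ 5) ^ (k+1) := by
            rw [← pow_mul, ← pow_mul, ← pow_add]
            congr 1
            omega
          rw [mul_pow, ← e3]
      _ = _ := by rw [hρA, one_pow]
  have hgam : Bn v ρ 1 (PowerSeries.mk (gam a)) := by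
    rw [mk_gam, gamS]
    have b1 := Bn_mono v ρ 1 (d1 a) hρ0.le
    have b2 := Bn_mono v ρ 2 (d2 a * (4 * fv a)) hρ0.le
    have b3 := Bn_mono v ρ 3 (d3 a * (4 * fv a) ^ 2) hρ0.le
    have b4 := Bn_mono v ρ 4 (d4 a * (4 * fv a) ^ 3) hρ0.le
    have b5 := Bn_mono v ρ 5 (d5 a * (4 * fv a) ^ 4) hρ0.le
    have b6 := Bn_mono v ρ 6 (d6 * (4 * fv a) ^ 5) hρ0.le
    have k1 := key (d1 a) 5 0 rfl q1
    have k2 := key (d2 a) 4 1 rfl q2
    have k3 := key (d3 a) 3 2 rfl q3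
    have k4 := key (d4 a) 2 3 rfl q4
    have k5 := key (d5 a) 1 4 rfl q5
    have k6 := key d6 0 5 rfl q6
    simp only [map_mul v (d2 a), map_mul v (d3 a), map_mul v (d4 a), map_mul v (d5 a),
      map_mul v (d6 : K), map_pow,
      ← hG, pow_one, pow_zero, mul_one, zero_add, Nat.reduceAdd] at b1 b2 b3 b4 b5 b6 k1 k2 k3 k4 k5 k6 ⊢
    have := ((((((b1.mono k1).add hv (b2.mono k2) hρ0.le).add hv (b3.mono k3) hρ0.le).add hv
      (b4.mono k4) hρ0.le).add hv (b5.mono k5) hρ0.le).add hv (b6.mono k6) hρ0.le)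
    simp only [max_self] at this
    exact this
  have hW := Bn_wseq hv hρ0.le (gam a) hgam
  have hss : Bn v ρ 1 (ss a) := by
    rw [ss]
    have c1 : Bn v ρ 1 (1 : PowerSeries K) := by simpa using Bn_C v ρ (1:K) hρ0.le
    have c2 : Bn v ρ 1 (C (2:K)) := (Bn_C v ρ (2:K) hρ0.le).mono h2
    have := c1.add hv (c2.mul hv hρ0.le hW) hρ0.le
    simpa using this
  have hb : v b ≤ A ^ 3 := by
    have : v b ^ 2 ≤ (A ^ 3) ^ 2 := by
      rw [← map_pow, hab]
      refine le_trans hF (le_of_eq ?_)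
      ring
    exact le_of_sq_le_sq this (by positivity)
  have hbs : Bn v ρ (A ^ 3) (C b * ss a) := by
    refine ((Bn_C v ρ b hρ0.le).mul hv hρ0.le hss).mono ?_
    linarith
  have hxs : Bn v ρ A (xs a) := by
    rw [xs]
    have c1 := Bn_C v ρ a hρ0.le
    have c2 := Bn_mono v ρ 1 (4 * fv a) hρ0.le
    rw [pow_one, pow_one, ← hG] at c2
    refine (c1.add hv c2 hρ0.le).mono (max_le hva ?_)
    have : G * ρ ≤ A ^ 6 * ρ := mul_le_mul_of_nonneg_right h4F hρ0.le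
    have e : A ^ 6 * ρ = A := by
      calc A ^ 6 * ρ = A * (A ^ 5 * ρ) := by ring
        _ = _ := by rw [hρA]; ring
    linarith
  have hu : Bn v ρ ((A) ^ p * (A ^ 3) ^ ε) (us a b p ε) :=
    (hxs.pow hv hρ0.le p).mul hv hρ0.le (hbs.pow hv hρ0.le ε)
  have := hu j
  have hρj : ρ ^ j * (A ^ 5) ^ j = 1 := by
    rw [← mul_pow, hρ, one_div, inv_mul_cancel₀ (by positivity), one_pow]
  calc v (coeff j (us a b p ε)) = (v (coeff j (us a b p ε)) * ρ ^ j) * (A ^ 5) ^ j := by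
        rw [mul_assoc, hρj, mul_one]
    _ ≤ _ := mul_le_mul_of_nonneg_right this (by positivity)

end curve

end Pool.Agent.H106R2
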